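import Pool.Agent.Helper41.RC.M_REST

/-!
# Project RC / SHARP, link (7): interpolation of head certificates

`ps d k ph` is affine in `(d, k)`. Between two certified points the head form loses at most a second order term.
-/

open MeasureTheory Set Filter intervalIntegral

namespace Helper41.RC

open Helper49.LT (ee)
open Pool.Agent.Helper99.RC (ps NS ent)

theorem tp_hasDeriv (S : Finset ℤ) (a : ℤ → ℂ) (x : ℝ) :
    HasDerivAt (tp S a) (Complex.I * tp S (fun m => (m : ℂ) * a m) x) x := by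
  unfold tp
  rw [Finset.mul_sum]
  refine HasDerivAt.fun_sum fun m _ => ?_
  have h := (ex_hasDeriv (m : ℝ) x).const_mul (a m)
  refine h.congr_deriv ?_
  push_cast
  ring

/-- weighted Cauchy-Schwarz in shifted variables -/
theorem shift_mul {ψ ψ' : ℝ → ℝ} {s : ℝ} (h : Shift ψ ψ' s) {κ θ : ℝ} (hκ : 0 < κ) (hθ : 0 < θ)
    (hs : 1 ≤ κ ^ 2 * (1 - s ^ 2)) (S T : Finset ℤ) (a b : ℤ → ℂ) :
    ∫ x in (0 : ℝ)..(2 * Real.pi), ‖tp S a (x + ψ x / 2)‖ * ‖tp T b (x - ψ x / 2)‖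
      ≤ κ / 2 * (2 * Real.pi * (θ * ∑ m ∈ S, ‖a m‖ ^ 2 + 1 / θ * ∑ m ∈ T, ‖b m‖ ^ 2)) := by
  have hpi := Real.pi_pos
  have hψ := h.cont
  have q1 := sq_plus h S a
  have q2 := sq_minus h T b
  have c0a : Continuous fun x : ℝ => tp S a (x + ψ x / 2) :=
    (tp_cont S a).comp (continuous_id.add (hψ.div_const 2))
  have c0b : Continuous fun x : ℝ => tp T b (x - ψ x / 2) :=
    (tp_cont T b).comp (continuous_id.sub (hψ.div_const 2))
  have c1 : Continuous fun x : ℝ => ‖tp S a (x + ψ x / 2)‖ ^ 2 * (1 + ψ' x / 2) :=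
    (c0a.norm.pow 2).mul (continuous_const.add (h.c.div_const 2))
  have c2 : Continuous fun x : ℝ => ‖tp T b (x - ψ x / 2)‖ ^ 2 * (1 - ψ' x / 2) :=
    (c0b.norm.pow 2).mul (continuous_const.sub (h.c.div_const 2))
  have hpt : ∀ x ∈ Set.Icc (0 : ℝ) (2 * Real.pi), ‖tp S a (x + ψ x / 2)‖ * ‖tp T b (x - ψ x / 2)‖
      ≤ κ / 2 * (θ * (‖tp S a (x + ψ x / 2)‖ ^ 2 * (1 + ψ' x / 2))
        + 1 / θ * (‖tp T b (x - ψ x / 2)‖ ^ 2 * (1 - ψ' x / 2))) := by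
    intro x _
    set X := ‖tp S a (x + ψ x / 2)‖
    set Y := ‖tp T b (x - ψ x / 2)‖
    have hX : 0 ≤ X := norm_nonneg _
    have hY : 0 ≤ Y := norm_nonneg _
    have hb := abs_le.1 (h.b x)
    have hs1 := h.s1
    set u := ψ' x / 2 with hu
    have hu1 : -s ≤ u := by rw [hu]; linarith [hb.1]
    have hu2 : u ≤ s := by rw [hu]; linarith [hb.2]
    have hs0 : 0 ≤ s := by linarith
    have k1 : 1 ≤ κ ^ 2 * ((1 + u) * (1 - u)) := by
      have : (1 - s ^ 2) ≤ (1 + u) * (1 - u) := by nlinarith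
      nlinarith [sq_nonneg κ, mul_le_mul_of_nonneg_left this (sq_nonneg κ)]
    have hp1 : 0 ≤ 1 + u := by linarith
    have hp2 : 0 ≤ 1 - u := by linarith
    have e1 : κ / 2 * (θ * (X ^ 2 * (1 + u)) + 1 / θ * (Y ^ 2 * (1 - u)))
        = (κ * (θ ^ 2 * (X ^ 2 * (1 + u)) + Y ^ 2 * (1 - u))) / (2 * θ) := by
      field_simp
    rw [e1, le_div_iff₀ (by positivity)]
    have k3 : (X * Y * (2 * θ)) ^ 2 ≤ (κ * (θ ^ 2 * (X ^ 2 * (1 + u)) + Y ^ 2 * (1 - u))) ^ 2 := by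
      have k4 : (X * Y * (2 * θ)) ^ 2 * 1 ≤ (X * Y * (2 * θ)) ^ 2 * (κ ^ 2 * ((1 + u) * (1 - u))) :=
        mul_le_mul_of_nonneg_left k1 (sq_nonneg _)
      nlinarith [sq_nonneg (κ * (θ ^ 2 * (X ^ 2 * (1 + u)) - Y ^ 2 * (1 - u)))]
    exact le_of_sq_le_sq k3 (by positivity)
  have hm := intervalIntegral.integral_mono_on (μ := volume) (a := 0) (b := 2 * Real.pi)
    (f := fun x => ‖tp S a (x + ψ x / 2)‖ * ‖tp T b (x - ψ x / 2)‖)
    (g := fun x => κ / 2 * (θ * (‖tp S a (x + ψ x / 2)‖ ^ 2 * (1 + ψ' x / 2))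
        + 1 / θ * (‖tp T b (x - ψ x / 2)‖ ^ 2 * (1 - ψ' x / 2)))) (by positivity)
    ((c0a.norm.mul c0b.norm).intervalIntegrable _ _)
    ((continuous_const.mul ((continuous_const.mul c1).add (continuous_const.mul c2))).intervalIntegrable _ _)
    hpt
  refine le_trans hm (le_of_eq ?_)
  rw [intervalIntegral.integral_const_mul, intervalIntegral.integral_add
    ((c1.intervalIntegrable _ _).const_mul _) ((c2.intervalIntegrable _ _).const_mul _),
    intervalIntegral.integral_const_mul, intervalIntegral.integral_const_mul, q1, q2]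
  ring

/-- INTERPOLATION of the mixed term -/
theorem interp {ψ₁ ψ₁' ψ₂ ψ₂' : ℝ → ℝ} {s : ℝ} (h₁ : Shift ψ₁ ψ₁' s) (h₂ : Shift ψ₂ ψ₂' s)
    {D κ K : ℝ} (hD : ∀ x, |ψ₁ x - ψ₂ x| ≤ D) (hκ : 0 < κ) (hs : 1 ≤ κ ^ 2 * (1 - s ^ 2))
    (S : Finset ℤ) (hK : 0 < K) (hS : ∀ m ∈ S, |(m : ℝ)| ≤ K) (a b : ℤ → ℂ) {σ : ℝ} (h0 : 0 ≤ σ) (h1 : σ ≤ 1) :
    (1 - σ) * (-2 * (∑ m ∈ S, ∑ n ∈ S, a m * (starRingEnd ℂ) (b n) * KK ψ₂ m n).im)
      + σ * (-2 * (∑ m ∈ S, ∑ n ∈ S, a m * (starRingEnd ℂ) (b n) * KK ψ₁ m n).im)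
      - κ * D ^ 2 * K / 8 * (∑ m ∈ S, ‖a m‖ ^ 2 + ∑ m ∈ S, ‖b m‖ ^ 2)
      ≤ -2 * (∑ m ∈ S, ∑ n ∈ S, a m * (starRingEnd ℂ) (b n)
        * KK (fun x => ψ₂ x + σ * (ψ₁ x - ψ₂ x)) m n).im := by
  have hpi := Real.pi_pos
  have hc1 := h₁.cont
  have hc2 := h₂.cont
  have hD0 : 0 ≤ D := le_trans (abs_nonneg _) (hD 0)
  set P : ℝ → ℝ → ℝ := fun τ y => ψ₂ y + τ * (ψ₁ y - ψ₂ y) with hP
  set F : ℝ → ℝ → ℂ := fun τ x => ∑ m ∈ S, ∑ n ∈ S, a m * (starRingEnd ℂ) (b n) * cc (P τ) m n x with hF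
  set F' : ℝ → ℝ → ℂ := fun τ x => ((ψ₁ x - ψ₂ x : ℝ) : ℂ) * (tp S a (x + P τ x / 2)
    * (starRingEnd ℂ) (tp S b (x - P τ x / 2))) with hF'
  set ma : ℤ → ℂ := fun m => (m : ℂ) * a m with hma
  set mb : ℤ → ℂ := fun m => (m : ℂ) * b m with hmb
  set F'' : ℝ → ℝ → ℂ := fun τ x => (Complex.I * (((ψ₁ x - ψ₂ x) ^ 2 / 2 : ℝ) : ℂ)) *
    (tp S ma (x + P τ x / 2) * (starRingEnd ℂ) (tp S b (x - P τ x / 2))
      + tp S a (x + P τ x / 2) * (starRingEnd ℂ) (tp S mb (x - P τ x / 2))) with hF''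
  have hPc : ∀ τ, Continuous (P τ) := fun τ => hc2.add (continuous_const.mul (hc1.sub hc2))
  have cA : ∀ (U : Finset ℤ) (c : ℤ → ℂ) (τ : ℝ), Continuous fun x : ℝ => tp U c (x + P τ x / 2) :=
    fun U c τ => (tp_cont U c).comp (continuous_id.add ((hPc τ).div_const 2))
  have cB : ∀ (U : Finset ℤ) (c : ℤ → ℂ) (τ : ℝ), Continuous fun x : ℝ => tp U c (x - P τ x / 2) :=
    fun U c τ => (tp_cont U c).comp (continuous_id.sub ((hPc τ).div_const 2))
  have hFc : ∀ τ, Continuous (F τ) := by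
    intro τ
    rw [hF]
    exact continuous_finsetSum _ fun m _ => continuous_finsetSum _ fun n _ =>
      continuous_const.mul (cc_cont (hPc τ) m n)
  have hF'c : ∀ τ, Continuous (F' τ) := fun τ =>
    (Complex.continuous_ofReal.comp (hc1.sub hc2)).mul
      ((cA S a τ).mul (Complex.continuous_conj.comp (cB S b τ)))
  have hF''c : ∀ τ, Continuous (F'' τ) := fun τ =>
    (continuous_const.mul (Complex.continuous_ofReal.comp (((hc1.sub hc2).pow 2).div_const 2))).mul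
      (((cA S ma τ).mul (Complex.continuous_conj.comp (cB S b τ))).add
        ((cA S a τ).mul (Complex.continuous_conj.comp (cB S mb τ))))
  have hFd : ∀ x τ, HasDerivAt (fun t => F t x) (F' τ x) τ := by
    intro x τ
    have h5 : HasDerivAt (fun t => F t x) (∑ m ∈ S, ∑ n ∈ S, a m * (starRingEnd ℂ) (b n)
        * (((ψ₁ x - ψ₂ x : ℝ) : ℂ) * (ex (m * (x + (ψ₂ x + τ * (ψ₁ x - ψ₂ x)) / 2))
        * (starRingEnd ℂ) (ex (n * (x - (ψ₂ x + τ * (ψ₁ x - ψ₂ x)) / 2)))))) τ := by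
      rw [hF]
      refine HasDerivAt.fun_sum fun m _ => HasDerivAt.fun_sum fun n _ => ?_
      exact (cc_deriv ψ₁ ψ₂ m n x τ).const_mul _
    refine h5.congr_deriv ?_
    rw [hF']
    simp only
    unfold tp
    rw [map_sum, Finset.sum_mul_sum, Finset.mul_sum]
    refine Finset.sum_congr rfl fun m _ => ?_
    rw [Finset.mul_sum]
    refine Finset.sum_congr rfl fun n _ => ?_
    rw [map_mul]
    ring
  have hlP : ∀ x τ, HasDerivAt (fun t => P t x) (ψ₁ x - ψ₂ x) τ := by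
    intro x τ
    have h : HasDerivAt (fun t : ℝ => t * (ψ₁ x - ψ₂ x)) (ψ₁ x - ψ₂ x) τ := by
      simpa using (hasDerivAt_id τ).mul_const (ψ₁ x - ψ₂ x)
    exact h.const_add (ψ₂ x)
  have hF'd : ∀ x τ, HasDerivAt (fun t => F' t x) (F'' τ x) τ := by
    intro x τ
    have e1 : HasDerivAt (fun t => x + P t x / 2) ((ψ₁ x - ψ₂ x) / 2) τ :=
      ((hlP x τ).div_const 2).const_add x
    have e2 : HasDerivAt (fun t => x - P t x / 2) (-((ψ₁ x - ψ₂ x) / 2)) τ :=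
      ((hlP x τ).div_const 2).const_sub x
    have d1 := (tp_hasDeriv S a (x + P τ x / 2)).scomp τ e1
    have d2 := ((tp_hasDeriv S b (x - P τ x / 2)).scomp τ e2).star
    have d3 := (d1.mul d2).const_mul (((ψ₁ x - ψ₂ x : ℝ) : ℂ))
    refine d3.congr_deriv ?_
    rw [hF'']
    simp only [Function.comp, Complex.real_smul, Complex.star_def, map_mul,
      Complex.conj_I, Complex.conj_ofReal]
    push_cast
    ring
  -- bounds by constants
  have hbt : ∀ (U : Finset ℤ) (c : ℤ → ℂ) (x : ℝ), ‖tp U c x‖ ≤ ∑ m ∈ U, ‖c m‖ := by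
    intro U c x
    unfold tp
    refine le_trans (norm_sum_le _ _) (Finset.sum_le_sum fun m _ => ?_)
    rw [norm_mul, ex_norm, mul_one]
  have hnn : ∀ (c : ℤ → ℂ), 0 ≤ ∑ m ∈ S, ‖c m‖ := fun c => Finset.sum_nonneg fun m _ => norm_nonneg _
  set B := D * ((∑ m ∈ S, ‖a m‖) * ∑ m ∈ S, ‖b m‖) with hB
  have hF'b : ∀ τ x, ‖F' τ x‖ ≤ B := by
    intro τ x
    rw [hF', hB]
    simp only
    rw [norm_mul, norm_mul, Complex.norm_real, Real.norm_eq_abs, Complex.norm_conj]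
    exact mul_le_mul (hD x) (mul_le_mul (hbt S a _) (hbt S b _) (norm_nonneg _) (hnn a)) (by positivity) hD0
  set B2 := D ^ 2 / 2 * ((∑ m ∈ S, ‖ma m‖) * (∑ m ∈ S, ‖b m‖) + (∑ m ∈ S, ‖a m‖) * ∑ m ∈ S, ‖mb m‖) with hB2
  have hsq : ∀ x, (ψ₁ x - ψ₂ x) ^ 2 ≤ D ^ 2 := by
    intro x
    rw [← sq_abs (ψ₁ x - ψ₂ x)]
    exact pow_le_pow_left₀ (abs_nonneg _) (hD x) 2
  have hF''n : ∀ τ x, ‖F'' τ x‖ ≤ D ^ 2 / 2 * (‖tp S ma (x + P τ x / 2)‖ * ‖tp S b (x - P τ x / 2)‖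
      + ‖tp S a (x + P τ x / 2)‖ * ‖tp S mb (x - P τ x / 2)‖) := by
    intro τ x
    rw [hF'']
    simp only
    rw [norm_mul, norm_mul, Complex.norm_I, one_mul, Complex.norm_real, Real.norm_eq_abs,
      abs_of_nonneg (by positivity)]
    have h2 := norm_add_le (tp S ma (x + P τ x / 2) * (starRingEnd ℂ) (tp S b (x - P τ x / 2)))
      (tp S a (x + P τ x / 2) * (starRingEnd ℂ) (tp S mb (x - P τ x / 2)))
    rw [norm_mul, norm_mul, Complex.norm_conj, Complex.norm_conj] at h2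
    exact mul_le_mul (by linarith [hsq x]) h2 (norm_nonneg _) (by positivity)
  have hF''b : ∀ τ x, ‖F'' τ x‖ ≤ B2 := by
    intro τ x
    refine le_trans (hF''n τ x) ?_
    rw [hB2]
    refine mul_le_mul_of_nonneg_left (add_le_add ?_ ?_) (by positivity)
    · exact mul_le_mul (hbt S ma _) (hbt S b _) (norm_nonneg _) (hnn ma)
    · exact mul_le_mul (hbt S a _) (hbt S mb _) (norm_nonneg _) (hnn a)
  set G : ℝ → ℂ := fun τ => ∫ x in (0 : ℝ)..(2 * Real.pi), F τ x with hG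
  set G' : ℝ → ℂ := fun τ => ∫ x in (0 : ℝ)..(2 * Real.pi), F' τ x with hG'
  set G'' : ℝ → ℂ := fun τ => ∫ x in (0 : ℝ)..(2 * Real.pi), F'' τ x with hG''
  have hGd : ∀ τ, HasDerivAt G (G' τ) τ := by
    intro τ
    exact (intervalIntegral.hasDerivAt_integral_of_dominated_loc_of_deriv_le
      (μ := volume) (a := 0) (b := 2 * Real.pi) (F := F) (F' := F') (x₀ := τ) (s := Set.univ)
      (bound := fun _ => B) Filter.univ_mem
      (Filter.Eventually.of_forall fun t => (hFc t).aestronglyMeasurable)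
      ((hFc τ).intervalIntegrable _ _) (hF'c τ).aestronglyMeasurable
      (ae_of_all _ fun x _ t _ => hF'b t x) intervalIntegrable_const
      (ae_of_all _ fun x _ t _ => hFd x t)).2
  have hG'd : ∀ τ, HasDerivAt G' (G'' τ) τ := by
    intro τ
    exact (intervalIntegral.hasDerivAt_integral_of_dominated_loc_of_deriv_le
      (μ := volume) (a := 0) (b := 2 * Real.pi) (F := F') (F' := F'') (x₀ := τ) (s := Set.univ)
      (bound := fun _ => B2) Filter.univ_mem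
      (Filter.Eventually.of_forall fun t => (hF'c t).aestronglyMeasurable)
      ((hF'c τ).intervalIntegrable _ _) (hF''c τ).aestronglyMeasurable
      (ae_of_all _ fun x _ t _ => hF''b t x) intervalIntegrable_const
      (ae_of_all _ fun x _ t _ => hF'd x t)).2
  -- the second derivative
  set W := ∑ m ∈ S, ‖a m‖ ^ 2 + ∑ m ∈ S, ‖b m‖ ^ 2 with hW
  have hmm : ∀ c : ℤ → ℂ, ∑ m ∈ S, ‖(m : ℂ) * c m‖ ^ 2 ≤ K ^ 2 * ∑ m ∈ S, ‖c m‖ ^ 2 := by
    intro c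
    rw [Finset.mul_sum]
    refine Finset.sum_le_sum fun m hm => ?_
    rw [norm_mul, mul_pow]
    have h1 : ‖(m : ℂ)‖ = |(m : ℝ)| := by
      rw [← Complex.ofReal_intCast, Complex.norm_real, Real.norm_eq_abs]
    rw [h1]
    exact mul_le_mul_of_nonneg_right (pow_le_pow_left₀ (abs_nonneg _) (hS m hm) 2) (by positivity)
  have hG''n : ∀ τ, 0 ≤ τ → τ ≤ 1 → ‖G'' τ‖ ≤ κ * D ^ 2 * K / 2 * (2 * Real.pi * W) := by
    intro τ h0' h1'
    have hsh := h₁.mix h₂ h0' h1'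
    have m1 := shift_mul hsh hκ (θ := 1 / K) (by positivity) hs S S ma b
    have m2 := shift_mul hsh hκ (θ := K) hK hs S S a mb
    have i1 : IntervalIntegrable (fun x => ‖tp S ma (x + P τ x / 2)‖ * ‖tp S b (x - P τ x / 2)‖)
      volume 0 (2 * Real.pi) := ((cA S ma τ).norm.mul (cB S b τ).norm).intervalIntegrable _ _
    have i2 : IntervalIntegrable (fun x => ‖tp S a (x + P τ x / 2)‖ * ‖tp S mb (x - P τ x / 2)‖)
      volume 0 (2 * Real.pi) := ((cA S a τ).norm.mul (cB S mb τ).norm).intervalIntegrable _ _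
    have hn := intervalIntegral.norm_integral_le_of_norm_le (μ := volume) (a := 0) (b := 2 * Real.pi)
      (f := F'' τ) (g := fun x => D ^ 2 / 2 * (‖tp S ma (x + P τ x / 2)‖ * ‖tp S b (x - P τ x / 2)‖
        + ‖tp S a (x + P τ x / 2)‖ * ‖tp S mb (x - P τ x / 2)‖)) (by positivity)
      (ae_of_all _ fun x _ => hF''n τ x) ((i1.add i2).const_mul _)
    rw [intervalIntegral.integral_const_mul, intervalIntegral.integral_add i1 i2] at hn
    refine le_trans hn ?_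
    have n1 := hmm a
    have n2 := hmm b
    have m1' : κ / 2 * (2 * Real.pi * (1 / K * ∑ m ∈ S, ‖ma m‖ ^ 2 + 1 / (1 / K) * ∑ m ∈ S, ‖b m‖ ^ 2))
        ≤ κ / 2 * (2 * Real.pi * (K * ∑ m ∈ S, ‖a m‖ ^ 2 + K * ∑ m ∈ S, ‖b m‖ ^ 2)) := by
      refine mul_le_mul_of_nonneg_left (mul_le_mul_of_nonneg_left (add_le_add ?_ ?_) (by positivity))
        (by positivity)
      · rw [one_div, inv_mul_le_iff₀ hK, ← mul_assoc, ← pow_two]
        exact n1
      · rw [one_div_one_div]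
    have m2' : κ / 2 * (2 * Real.pi * (K * ∑ m ∈ S, ‖a m‖ ^ 2 + 1 / K * ∑ m ∈ S, ‖mb m‖ ^ 2))
        ≤ κ / 2 * (2 * Real.pi * (K * ∑ m ∈ S, ‖a m‖ ^ 2 + K * ∑ m ∈ S, ‖b m‖ ^ 2)) := by
      refine mul_le_mul_of_nonneg_left (mul_le_mul_of_nonneg_left (add_le_add le_rfl ?_) (by positivity))
        (by positivity)
      rw [one_div, inv_mul_le_iff₀ hK, ← mul_assoc, ← pow_two]
      exact n2
    have hD2 : 0 ≤ D ^ 2 / 2 := by positivity
    calc _ ≤ D ^ 2 / 2 * (κ / 2 * (2 * Real.pi * (K * ∑ m ∈ S, ‖a m‖ ^ 2 + K * ∑ m ∈ S, ‖b m‖ ^ 2))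
          + κ / 2 * (2 * Real.pi * (K * ∑ m ∈ S, ‖a m‖ ^ 2 + K * ∑ m ∈ S, ‖b m‖ ^ 2))) :=
          mul_le_mul_of_nonneg_left (add_le_add (le_trans m1 m1') (le_trans m2 m2')) hD2
      _ = κ * D ^ 2 * K / 2 * (2 * Real.pi * W) := by rw [hW]; ring
  -- concavity
  set C := κ * D ^ 2 * K * W with hC
  have hre : ∀ (g : ℝ → ℂ) (g' : ℂ) (τ : ℝ), HasDerivAt g g' τ →
      HasDerivAt (fun t => -(1 / Real.pi) * (g t).im) (-(1 / Real.pi) * g'.im) τ := by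
    intro g g' τ hg
    have h2 : HasDerivAt (fun t => (g t).im) g'.im τ := by
      have h3 := (Complex.imCLM.hasFDerivAt (x := g τ)).comp_hasDerivAt τ hg
      exact h3
    exact h2.const_mul _
  set φ : ℝ → ℝ := fun τ => -(1 / Real.pi) * (G τ).im - C / 2 * τ ^ 2 with hφ
  set φ' : ℝ → ℝ := fun τ => -(1 / Real.pi) * (G' τ).im - C * τ with hφ'
  set φ'' : ℝ → ℝ := fun τ => -(1 / Real.pi) * (G'' τ).im - C with hφ''
  have hd1 : ∀ τ, HasDerivAt φ (φ' τ) τ := by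
    intro τ
    have h2 := (hre G (G' τ) τ (hGd τ)).sub (((hasDerivAt_id τ).pow 2).const_mul (C / 2))
    refine h2.congr_deriv ?_
    rw [hφ']
    simp only [id]
    push_cast
    ring
  have hd2 : ∀ τ, HasDerivAt φ' (φ'' τ) τ := by
    intro τ
    have h2 := (hre G' (G'' τ) τ (hG'd τ)).sub ((hasDerivAt_id τ).const_mul C)
    refine h2.congr_deriv ?_
    rw [hφ'']
    ring
  have hφc : Continuous φ := continuous_iff_continuousAt.2 fun τ => (hd1 τ).continuousAt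
  have hconc : ConcaveOn ℝ (Set.Icc (0 : ℝ) 1) φ := by
    refine concaveOn_of_hasDerivWithinAt2_nonpos (convex_Icc 0 1) hφc.continuousOn
      (fun τ _ => (hd1 τ).hasDerivWithinAt) (fun τ _ => (hd2 τ).hasDerivWithinAt) ?_
    intro τ hτ
    rw [interior_Icc] at hτ
    have h2 := hG''n τ hτ.1.le hτ.2.le
    have h3 := (abs_le.1 (le_trans (Complex.abs_im_le_norm (G'' τ)) h2)).1
    rw [hφ'']
    simp only
    have h4 : -(1 / Real.pi) * (G'' τ).im ≤ 1 / Real.pi * (κ * D ^ 2 * K / 2 * (2 * Real.pi * W)) := by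
      have h5 : -(G'' τ).im ≤ κ * D ^ 2 * K / 2 * (2 * Real.pi * W) := by linarith
      have h6 := mul_le_mul_of_nonneg_left h5 (by positivity : (0 : ℝ) ≤ 1 / Real.pi)
      linarith
    have h7 : 1 / Real.pi * (κ * D ^ 2 * K / 2 * (2 * Real.pi * W)) = C := by
      rw [hC]
      field_simp
    linarith
  have hfin := hconc.2 (Set.left_mem_Icc.2 zero_le_one) (Set.right_mem_Icc.2 zero_le_one)
    (sub_nonneg.2 h1) h0 (by ring : 1 - σ + σ = 1)
  simp only [smul_eq_mul, mul_zero, mul_one, zero_add] at hfin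
  -- the values
  have hval : ∀ τ, -2 * (∑ m ∈ S, ∑ n ∈ S, a m * (starRingEnd ℂ) (b n) * KK (P τ) m n).im
      = -(1 / Real.pi) * (G τ).im := by
    intro τ
    have e2 : ∑ m ∈ S, ∑ n ∈ S, a m * (starRingEnd ℂ) (b n) * KK (P τ) m n
        = (1 / (2 * Real.pi) : ℂ) * G τ := by
      rw [hG]
      simp only
      rw [hF]
      simp only
      rw [intervalIntegral.integral_finsetSum, Finset.mul_sum]
      · refine Finset.sum_congr rfl fun m _ => ?_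
        rw [intervalIntegral.integral_finsetSum, Finset.mul_sum]
        · refine Finset.sum_congr rfl fun n _ => ?_
          rw [intervalIntegral.integral_const_mul, KK_cc]
          ring
        · intro n _
          exact (continuous_const.mul (cc_cont (hPc τ) m n)).intervalIntegrable _ _
      · intro m _
        exact (continuous_finsetSum _ fun n _ =>
          continuous_const.mul (cc_cont (hPc τ) m n)).intervalIntegrable _ _
    rw [e2, show (1 / (2 * Real.pi) : ℂ) = ((1 / (2 * Real.pi) : ℝ) : ℂ) by push_cast; ring,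
      Complex.im_ofReal_mul]
    field_simp
  have v0 := hval 0
  have v1 := hval 1
  have vσ := hval σ
  have p0 : P 0 = ψ₂ := by
    funext y
    rw [hP]
    ring
  have p1 : P 1 = ψ₁ := by
    funext y
    rw [hP]
    ring
  rw [p0] at v0
  rw [p1] at v1
  rw [v0, v1]
  have vσ' : -2 * (∑ m ∈ S, ∑ n ∈ S, a m * (starRingEnd ℂ) (b n)
      * KK (fun x => ψ₂ x + σ * (ψ₁ x - ψ₂ x)) m n).im = -(1 / Real.pi) * (G σ).im := vσ
  rw [vσ']
  have hW0 : 0 ≤ W := by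
    rw [hW]
    exact add_nonneg (Finset.sum_nonneg fun m _ => by positivity) (Finset.sum_nonneg fun m _ => by positivity)
  have hC0 : 0 ≤ C := by
    rw [hC]
    positivity
  have e3 : φ 0 = -(1 / Real.pi) * (G 0).im := by
    rw [hφ]
    ring
  have e4 : φ 1 = -(1 / Real.pi) * (G 1).im - C / 2 := by
    rw [hφ]
    ring
  have e5 : φ σ = -(1 / Real.pi) * (G σ).im - C / 2 * σ ^ 2 := rfl
  rw [e3, e4, e5] at hfin
  have e6 : κ * D ^ 2 * K / 8 * W = C / 8 := by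
    rw [hC]
    ring
  rw [e6]
  nlinarith [mul_nonneg hC0 (sq_nonneg (2 * σ - 1))]

/-- INTERPOLATION of head certificates -/
theorem head_interp {d₀ k₀ d₁ k₁ ph f e2 e3 s2 G gs gp gr : ℝ} {K : ℕ} (hK : 1 ≤ K)
    (H0 : StHead d₀ k₀ ph f e2 e3 s2 G gs gp gr K) (H1 : StHead d₁ k₁ ph f e2 e3 s2 G gs gp gr K)
    {σ D κ gs' gp' gr' : ℝ} (hσ1 : σ < 1) (hk₀ : 3 / 2 * |k₀| ≤ σ) (hk₁ : 3 / 2 * |k₁| ≤ σ)
    (hκ : 0 < κ) (hκσ : 1 ≤ κ ^ 2 * (1 - σ ^ 2)) (hD : |d₀ - d₁| + |k₀ - k₁| ≤ D)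
    (hs : gs' ≤ gs - κ * D ^ 2 * ((K : ℝ) + 1) / 4) (hp : gp' ≤ gp - 3 * (κ * D ^ 2 * ((K : ℝ) + 1)) / 4)
    (hr : gr' ≤ gr - 147 / 128 * (κ * D ^ 2 * ((K : ℝ) + 1)))
    {t : ℝ} (h0 : 0 ≤ t) (h1 : t ≤ 1) :
    StHead ((1 - t) * d₀ + t * d₁) ((1 - t) * k₀ + t * k₁) ph f e2 e3 s2 G gs' gp' gr' K := by
  intro p r s hP
  have a0 := H0 p r s hP
  have a1 := H1 p r s hP
  rw [HF_eq _ _ _ _ _ _ _ _ K hK] at a0 a1 ⊢
  have hs0 : 0 ≤ σ := le_trans (by positivity) hk₀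
  have g0 := shift_sin (-d₀) k₀ ph (by linarith)
  have g0' : Shift (ps d₀ k₀ ph) (fun x => 3 * k₀ * Real.cos (3 * x + ph)) σ :=
    ⟨g0.d, g0.c, g0.p, fun x => le_trans (g0.b x) (by linarith), hσ1⟩
  have g1 := shift_sin (-d₁) k₁ ph (by linarith)
  have g1' : Shift (ps d₁ k₁ ph) (fun x => 3 * k₁ * Real.cos (3 * x + ph)) σ :=
    ⟨g1.d, g1.c, g1.p, fun x => le_trans (g1.b x) (by linarith), hσ1⟩
  set H := Finset.Icc (1 - (K : ℤ)) (1 + K) with hH
  have hHm : ∀ m ∈ H, |(m : ℝ)| ≤ (K : ℝ) + 1 := by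
    intro m hm
    rw [hH, Finset.mem_Icc] at hm
    have h2 : |m| ≤ (K : ℤ) + 1 := by
      rw [abs_le]
      omega
    have h3 : ((|m| : ℤ) : ℝ) ≤ (((K : ℤ) + 1 : ℤ) : ℝ) := by exact_mod_cast h2
    rw [Int.cast_abs] at h3
    push_cast at h3
    exact h3
  have hDx : ∀ x, |ps d₁ k₁ ph x - ps d₀ k₀ ph x| ≤ D := by
    intro x
    unfold ps
    have e : -d₁ + k₁ * Real.sin (3 * x + ph) - (-d₀ + k₀ * Real.sin (3 * x + ph))
        = (d₀ - d₁) + (k₁ - k₀) * Real.sin (3 * x + ph) := by ring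
    rw [e]
    refine le_trans (abs_add_le _ _) ?_
    rw [abs_mul, abs_sub_comm k₁ k₀]
    have h2 := Real.abs_sin_le_one (3 * x + ph)
    nlinarith [abs_nonneg (k₀ - k₁)]
  have hi := interp g1' g0' hDx hκ hκσ H (by positivity : (0 : ℝ) < (K : ℝ) + 1) hHm (aw p r s) (bw p r s) h0 h1
  have hfun : (fun x => ps d₀ k₀ ph x + t * (ps d₁ k₁ ph x - ps d₀ k₀ ph x))
      = ps ((1 - t) * d₀ + t * d₁) ((1 - t) * k₀ + t * k₁) ph := by
    funext x
    unfold ps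
    ring
  rw [hfun] at hi
  unfold RF at a0 a1 ⊢
  have hV : ∑ m ∈ H, ‖aw p r s m‖ ^ 2 + ∑ m ∈ H, ‖bw p r s m‖ ^ 2
      ≤ ∑ n ∈ Finset.Icc (-(K : ℤ)) K, Vw p r s n := by
    rw [← Finset.sum_add_distrib]
    refine le_trans (Finset.sum_le_sum fun m _ => ab_le hP m) ?_
    rw [hH, shift_idx (K : ℤ) (Vw p r s)]
  have hD0 : 0 ≤ D := le_trans (abs_nonneg _) (hDx 0)
  have hM : Mw gs' gp' gr' (Finset.Icc (-(K : ℤ)) K) p r s
      + κ * D ^ 2 * ((K : ℝ) + 1) / 8 * ∑ n ∈ Finset.Icc (-(K : ℤ)) K, Vw p r s n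
      ≤ Mw gs gp gr (Finset.Icc (-(K : ℤ)) K) p r s := by
    unfold Mw
    rw [Finset.mul_sum, ← Finset.sum_add_distrib]
    refine Finset.sum_le_sum fun n _ => ?_
    unfold Vw
    nlinarith [mul_le_mul_of_nonneg_right hs (sq_nonneg ‖s n‖),
      mul_le_mul_of_nonneg_right hp (sq_nonneg ‖p n‖), mul_le_mul_of_nonneg_right hr (sq_nonneg ‖r n‖)]
  have hc := mul_le_mul_of_nonneg_left hV (by positivity : 0 ≤ κ * D ^ 2 * ((K : ℝ) + 1) / 8)
  have b0 := mul_le_mul_of_nonneg_left a0 (sub_nonneg.2 h1)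
  have b1 := mul_le_mul_of_nonneg_left a1 h0
  nlinarith [hi, hM, hc, b0, b1]

end Helper41.RC
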