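import Pool.Agent.Helper41.RC.M_TAIL

/-!
# Project RC / SHARP, link (7): cross terms and dependence on the shift, in physical space

* `cross_a`, `cross_b`: the mixed terms between a family with arbitrary frequencies and a family with the frequencies
  `|m| ≥ m₁` are at most `(R/m₁) (l ∑ ‖·‖² + l⁻¹ ∑ ‖·‖²)`.
* `pert`: for two shifts `ψ₁, ψ₂` with `|ψ₁ - ψ₂| ≤ D` the mixed terms differ by at most
  `D κ (∑ ‖a‖² + ∑ ‖b‖²)`, `κ² (1 - s²) ≥ 1`.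
-/

open MeasureTheory Set Filter intervalIntegral

namespace Helper41.RC

/-- the mixed term as one integral, two index sets -/
theorem mixed_eq2 {ψ ψ' : ℝ → ℝ} {s : ℝ} (h : Shift ψ ψ' s) (S T : Finset ℤ) (hS : ∀ m ∈ S, m ≠ 0)
    (a b : ℤ → ℂ) :
    ∑ m ∈ S, ∑ n ∈ T, a m * (starRingEnd ℂ) (b n) * KK ψ m n
      = (1 / (2 * Real.pi) : ℂ) * ∫ x in (0 : ℝ)..(2 * Real.pi),
        tp S (fun m => a m / ((m : ℂ) * Complex.I)) (x + ψ x / 2)
          * (starRingEnd ℂ) (tp T b (x - ψ x / 2)) * ((1 - ψ' x / 2 : ℝ) : ℂ) := by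
  have hψc := h.cont
  have e1 : ∀ x, tp S (fun m => a m / ((m : ℂ) * Complex.I)) (x + ψ x / 2)
          * (starRingEnd ℂ) (tp T b (x - ψ x / 2)) * ((1 - ψ' x / 2 : ℝ) : ℂ)
      = ∑ m ∈ S, ∑ n ∈ T, (a m * (starRingEnd ℂ) (b n)) * ((1 / ((m : ℂ) * Complex.I))
        * ex (m * (x + ψ x / 2)) * (starRingEnd ℂ) (ex (n * (x - ψ x / 2)))
          * ((1 - ψ' x / 2 : ℝ) : ℂ)) := by
    intro x
    unfold tp
    rw [map_sum, Finset.sum_mul_sum, Finset.sum_mul]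
    refine Finset.sum_congr rfl fun m _ => ?_
    rw [Finset.sum_mul]
    refine Finset.sum_congr rfl fun n _ => ?_
    rw [map_mul]
    ring
  have hcont : ∀ m n : ℤ, Continuous fun x : ℝ => (a m * (starRingEnd ℂ) (b n))
      * ((1 / ((m : ℂ) * Complex.I)) * ex (m * (x + ψ x / 2))
        * (starRingEnd ℂ) (ex (n * (x - ψ x / 2))) * ((1 - ψ' x / 2 : ℝ) : ℂ)) := by
    intro m n
    refine continuous_const.mul ?_
    refine Continuous.mul (Continuous.mul (continuous_const.mul (ex_cont.comp (by fun_prop))) ?_) ?_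
    · exact Complex.continuous_conj.comp (ex_cont.comp (by fun_prop))
    · exact Complex.continuous_ofReal.comp (continuous_const.sub (h.c.div_const 2))
  rw [intervalIntegral.integral_congr (fun x _ => e1 x), intervalIntegral.integral_finsetSum]
  · rw [Finset.mul_sum]
    refine Finset.sum_congr rfl fun m hm => ?_
    rw [intervalIntegral.integral_finsetSum]
    · rw [Finset.mul_sum]
      refine Finset.sum_congr rfl fun n _ => ?_
      rw [intervalIntegral.integral_const_mul, ← mode h (hS m hm) (n := n)]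
      ring
    · intro n _
      exact (hcont m n).intervalIntegrable _ _
  · intro m _
    exact (continuous_finsetSum _ fun n _ => hcont m n).intervalIntegrable _ _

theorem sq_plus {ψ ψ' : ℝ → ℝ} {s : ℝ} (h : Shift ψ ψ' s) (S : Finset ℤ) (w : ℤ → ℂ) :
    ∫ x in (0 : ℝ)..(2 * Real.pi), ‖tp S w (x + ψ x / 2)‖ ^ 2 * (1 + ψ' x / 2)
      = 2 * Real.pi * ∑ m ∈ S, ‖w m‖ ^ 2 := by
  have := int_shift h 1 (G := fun x => ‖tp S w x‖ ^ 2) ((tp_cont S w).norm.pow 2)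
    (fun x => by rw [tp_per])
  simp only [one_mul] at this
  rw [this, tp_parseval]

theorem sq_minus {ψ ψ' : ℝ → ℝ} {s : ℝ} (h : Shift ψ ψ' s) (S : Finset ℤ) (b : ℤ → ℂ) :
    ∫ x in (0 : ℝ)..(2 * Real.pi), ‖tp S b (x - ψ x / 2)‖ ^ 2 * (1 - ψ' x / 2)
      = 2 * Real.pi * ∑ m ∈ S, ‖b m‖ ^ 2 := by
  have := int_shift h (-1) (G := fun x => ‖tp S b x‖ ^ 2) ((tp_cont S b).norm.pow 2)
    (fun x => by rw [tp_per])
  rw [tp_parseval] at this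
  rw [← this]
  refine intervalIntegral.integral_congr fun x _ => ?_
  rw [show x - ψ x / 2 = x + -1 * (ψ x / 2) by ring]
  ring

theorem sum_div {S : Finset ℤ} {m₁ : ℝ} (hm : 0 < m₁) (hS : ∀ m ∈ S, m₁ ≤ |(m : ℝ)|) (a : ℤ → ℂ) :
    ∑ m ∈ S, ‖a m / ((m : ℂ) * Complex.I)‖ ^ 2 ≤ 1 / m₁ ^ 2 * ∑ m ∈ S, ‖a m‖ ^ 2 := by
  rw [Finset.mul_sum]
  refine Finset.sum_le_sum fun m hmS => ?_
  rw [norm_div, norm_mul, Complex.norm_I, mul_one, div_pow]
  have h1 : ‖(m : ℂ)‖ = |(m : ℝ)| := by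
    rw [← Complex.ofReal_intCast, Complex.norm_real, Real.norm_eq_abs]
  rw [h1]
  have h2 : m₁ ^ 2 ≤ |(m : ℝ)| ^ 2 := pow_le_pow_left₀ hm.le (hS m hmS) 2
  have h3 : 0 < m₁ ^ 2 := by positivity
  calc ‖a m‖ ^ 2 / |(m : ℝ)| ^ 2 ≤ ‖a m‖ ^ 2 / m₁ ^ 2 :=
        div_le_div_of_nonneg_left (by positivity) h3 h2
    _ = 1 / m₁ ^ 2 * ‖a m‖ ^ 2 := by ring

theorem norm_two_pi : ‖(1 / (2 * Real.pi) : ℂ)‖ = 1 / (2 * Real.pi) := by
  have hpi := Real.pi_pos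
  rw [show (1 / (2 * Real.pi) : ℂ) = ((1 / (2 * Real.pi) : ℝ) : ℂ) by push_cast; ring,
    Complex.norm_real, Real.norm_eq_abs, abs_of_pos (by positivity)]

/-- `a` has the high frequencies -/
theorem cross_a {ψ ψ' : ℝ → ℝ} {s : ℝ} (h : Shift ψ ψ' s) (S T : Finset ℤ) {m₁ R l : ℝ}
    (hm : 0 < m₁) (hS : ∀ m ∈ S, m₁ ≤ |(m : ℝ)|) (hR : 0 < R) (hs : 1 + s ≤ R ^ 2 * (1 - s))
    (hl : 0 < l) (a b : ℤ → ℂ) :
    2 * ‖∑ m ∈ S, ∑ n ∈ T, a m * (starRingEnd ℂ) (b n) * KK ψ m n‖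
      ≤ R / m₁ * (l * ∑ m ∈ S, ‖a m‖ ^ 2 + 1 / l * ∑ m ∈ T, ‖b m‖ ^ 2) := by
  have hpi := Real.pi_pos
  have hψc := h.cont
  have hS0 : ∀ m ∈ S, m ≠ 0 := by
    intro m hmS h0
    have := hS m hmS
    rw [h0] at this
    simp at this
    linarith
  rw [mixed_eq2 h S T hS0 a b]
  set w : ℤ → ℂ := fun m => a m / ((m : ℂ) * Complex.I) with hw
  have hW := tp_cont S w
  have hB := tp_cont T b
  have q1 := sq_plus h S w
  have q2 := sq_minus h T b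
  have hww : ∑ m ∈ S, ‖w m‖ ^ 2 ≤ 1 / m₁ ^ 2 * ∑ m ∈ S, ‖a m‖ ^ 2 := sum_div hm hS a
  have hpt : ∀ x, ‖tp S w (x + ψ x / 2) * (starRingEnd ℂ) (tp T b (x - ψ x / 2))
      * ((1 - ψ' x / 2 : ℝ) : ℂ)‖
      ≤ (l * m₁ * R / 2) * (‖tp S w (x + ψ x / 2)‖ ^ 2 * (1 + ψ' x / 2))
        + (R / (2 * m₁ * l)) * (‖tp T b (x - ψ x / 2)‖ ^ 2 * (1 - ψ' x / 2)) := by
    intro x
    have hb := abs_le.1 (h.b x)
    have hs1 := h.s1
    have t1 : 0 ≤ 1 - ψ' x / 2 := by linarith [hb.2]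
    have t2 : 1 - ψ' x / 2 ≤ R ^ 2 * (1 + ψ' x / 2) := by
      have : R ^ 2 * (1 - s) ≤ R ^ 2 * (1 + ψ' x / 2) :=
        mul_le_mul_of_nonneg_left (by linarith [hb.1]) (by positivity)
      linarith [hb.1]
    rw [norm_mul, norm_mul, Complex.norm_real, Real.norm_eq_abs, abs_of_nonneg t1,
      Complex.norm_conj]
    set X := ‖tp S w (x + ψ x / 2)‖
    set Y := ‖tp T b (x - ψ x / 2)‖
    have h2 : X * Y ≤ (l * m₁ / (2 * R)) * X ^ 2 + (R / (2 * m₁ * l)) * Y ^ 2 := by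
      have h3 : (l * m₁ / (2 * R)) * X ^ 2 + (R / (2 * m₁ * l)) * Y ^ 2 - X * Y
          = (l * m₁ * X - R * Y) ^ 2 / (2 * R * m₁ * l) := by
        field_simp
        ring
      have h4 : 0 ≤ (l * m₁ * X - R * Y) ^ 2 / (2 * R * m₁ * l) := by positivity
      linarith
    have h5 : X * Y * (1 - ψ' x / 2)
        ≤ ((l * m₁ / (2 * R)) * X ^ 2 + (R / (2 * m₁ * l)) * Y ^ 2) * (1 - ψ' x / 2) :=
      mul_le_mul_of_nonneg_right h2 t1
    have h6 : (l * m₁ / (2 * R)) * X ^ 2 * (1 - ψ' x / 2)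
        ≤ (l * m₁ / (2 * R)) * X ^ 2 * (R ^ 2 * (1 + ψ' x / 2)) :=
      mul_le_mul_of_nonneg_left t2 (by positivity)
    have h7 : (l * m₁ / (2 * R)) * X ^ 2 * (R ^ 2 * (1 + ψ' x / 2))
        = (l * m₁ * R / 2) * (X ^ 2 * (1 + ψ' x / 2)) := by
      field_simp
    nlinarith [h5, h6, h7]
  have c1 : Continuous fun x : ℝ => ‖tp S w (x + ψ x / 2)‖ ^ 2 * (1 + ψ' x / 2) :=
    ((hW.comp (by fun_prop)).norm.pow 2).mul (continuous_const.add (h.c.div_const 2))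
  have c2 : Continuous fun x : ℝ => ‖tp T b (x - ψ x / 2)‖ ^ 2 * (1 - ψ' x / 2) :=
    ((hB.comp (by fun_prop)).norm.pow 2).mul (continuous_const.sub (h.c.div_const 2))
  have hnorm : ‖∫ x in (0 : ℝ)..(2 * Real.pi), tp S w (x + ψ x / 2)
      * (starRingEnd ℂ) (tp T b (x - ψ x / 2)) * ((1 - ψ' x / 2 : ℝ) : ℂ)‖
      ≤ ∫ x in (0 : ℝ)..(2 * Real.pi), ((l * m₁ * R / 2) * (‖tp S w (x + ψ x / 2)‖ ^ 2 * (1 + ψ' x / 2))
        + (R / (2 * m₁ * l)) * (‖tp T b (x - ψ x / 2)‖ ^ 2 * (1 - ψ' x / 2))) := by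
    refine intervalIntegral.norm_integral_le_of_norm_le (by positivity) ?_ ?_
    · exact ae_of_all _ fun x _ => hpt x
    · exact ((continuous_const.mul c1).add (continuous_const.mul c2)).intervalIntegrable _ _
  rw [intervalIntegral.integral_add ((c1.intervalIntegrable _ _).const_mul _)
    ((c2.intervalIntegrable _ _).const_mul _), intervalIntegral.integral_const_mul,
    intervalIntegral.integral_const_mul, q1, q2] at hnorm
  rw [norm_mul, norm_two_pi]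
  have h8 : 1 / (2 * Real.pi) * ‖∫ x in (0 : ℝ)..(2 * Real.pi), tp S w (x + ψ x / 2)
      * (starRingEnd ℂ) (tp T b (x - ψ x / 2)) * ((1 - ψ' x / 2 : ℝ) : ℂ)‖
      ≤ 1 / (2 * Real.pi) * ((l * m₁ * R / 2) * (2 * Real.pi * ∑ m ∈ S, ‖w m‖ ^ 2)
        + (R / (2 * m₁ * l)) * (2 * Real.pi * ∑ m ∈ T, ‖b m‖ ^ 2)) :=
    mul_le_mul_of_nonneg_left hnorm (by positivity)
  have h9 : 1 / (2 * Real.pi) * ((l * m₁ * R / 2) * (2 * Real.pi * ∑ m ∈ S, ‖w m‖ ^ 2)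
        + (R / (2 * m₁ * l)) * (2 * Real.pi * ∑ m ∈ T, ‖b m‖ ^ 2))
      = (l * m₁ * R / 2) * ∑ m ∈ S, ‖w m‖ ^ 2 + (R / (2 * m₁ * l)) * ∑ m ∈ T, ‖b m‖ ^ 2 := by
    field_simp
  have h10 : (l * m₁ * R / 2) * ∑ m ∈ S, ‖w m‖ ^ 2
      ≤ (l * m₁ * R / 2) * (1 / m₁ ^ 2 * ∑ m ∈ S, ‖a m‖ ^ 2) :=
    mul_le_mul_of_nonneg_left hww (by positivity)
  have h11 : (l * m₁ * R / 2) * (1 / m₁ ^ 2 * ∑ m ∈ S, ‖a m‖ ^ 2)
      = l * R / (2 * m₁) * ∑ m ∈ S, ‖a m‖ ^ 2 := by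
    field_simp
  have h12 : R / m₁ * (l * ∑ m ∈ S, ‖a m‖ ^ 2 + 1 / l * ∑ m ∈ T, ‖b m‖ ^ 2)
      = 2 * (l * R / (2 * m₁) * ∑ m ∈ S, ‖a m‖ ^ 2 + (R / (2 * m₁ * l)) * ∑ m ∈ T, ‖b m‖ ^ 2) := by
    field_simp
  rw [h12]
  linarith

theorem Shift.neg {ψ ψ' : ℝ → ℝ} {s : ℝ} (h : Shift ψ ψ' s) :
    Shift (fun x => -ψ x) (fun x => -ψ' x) s :=
  ⟨fun x => (h.d x).neg, h.c.neg, fun x => by rw [h.p], fun x => by rw [abs_neg]; exact h.b x, h.s1⟩

theorem int_conj (f : ℝ → ℂ) :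
    ∫ x in (0 : ℝ)..(2 * Real.pi), (starRingEnd ℂ) (f x)
      = (starRingEnd ℂ) (∫ x in (0 : ℝ)..(2 * Real.pi), f x) := by
  rw [intervalIntegral.integral_of_le (by positivity), intervalIntegral.integral_of_le (by positivity)]
  exact integral_conj

theorem KK_flip (ψ : ℝ → ℝ) (m n : ℤ) :
    KK ψ m n = -(starRingEnd ℂ) (KK (fun x => -ψ x) n m) := by
  unfold KK
  by_cases h : m + n = 0
  · rw [if_pos h, if_pos (by omega)]
    rw [map_mul, ← int_conj]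
    have e1 : (starRingEnd ℂ) (1 / (2 * Real.pi) : ℂ) = (1 / (2 * Real.pi) : ℂ) := by
      rw [show (1 / (2 * Real.pi) : ℂ) = ((1 / (2 * Real.pi) : ℝ) : ℂ) by push_cast; ring,
        Complex.conj_ofReal]
    rw [e1, ← mul_neg, ← intervalIntegral.integral_neg]
    congr 1
    refine intervalIntegral.integral_congr fun x _ => ?_
    simp only
    rw [map_mul, Complex.conj_ofReal, ex_conj]
    push_cast
    rw [show -(((n : ℝ) - m) * x) = ((m : ℝ) - n) * x by ring]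
    ring
  · rw [if_neg h, if_neg (by omega)]
    rw [map_mul, map_mul, ← int_conj]
    have e1 : (starRingEnd ℂ) (1 / (2 * Real.pi) : ℂ) = (1 / (2 * Real.pi) : ℂ) := by
      rw [show (1 / (2 * Real.pi) : ℂ) = ((1 / (2 * Real.pi) : ℝ) : ℂ) by push_cast; ring,
        Complex.conj_ofReal]
    have e2 : (starRingEnd ℂ) (2 / (Complex.I * ((n + m : ℤ) : ℂ)))
        = -(2 / (Complex.I * ((m + n : ℤ) : ℂ))) := by
      rw [map_div₀, map_mul, Complex.conj_I, map_ofNat, map_intCast, add_comm n m, neg_mul,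
        div_neg]
    rw [e1, e2]
    have e3 : ∫ x in (0 : ℝ)..(2 * Real.pi), (starRingEnd ℂ) (ex (((n - m : ℤ) : ℝ) * x)
        * ex (((n + m : ℤ) : ℝ) * (-ψ x / 2)))
        = ∫ x in (0 : ℝ)..(2 * Real.pi), ex (((m - n : ℤ) : ℝ) * x) * ex (((m + n : ℤ) : ℝ) * (ψ x / 2)) := by
      refine intervalIntegral.integral_congr fun x _ => ?_
      rw [map_mul, ex_conj, ex_conj]
      congr 2
      · push_cast
        ring
      · push_cast
        ring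
    rw [e3]
    ring

/-- `b` has the high frequencies -/
theorem cross_b {ψ ψ' : ℝ → ℝ} {s : ℝ} (h : Shift ψ ψ' s) (S T : Finset ℤ) {m₁ R l : ℝ}
    (hm : 0 < m₁) (hT : ∀ m ∈ T, m₁ ≤ |(m : ℝ)|) (hR : 0 < R) (hs : 1 + s ≤ R ^ 2 * (1 - s))
    (hl : 0 < l) (a b : ℤ → ℂ) :
    2 * ‖∑ m ∈ S, ∑ n ∈ T, a m * (starRingEnd ℂ) (b n) * KK ψ m n‖
      ≤ R / m₁ * (1 / l * ∑ m ∈ S, ‖a m‖ ^ 2 + l * ∑ m ∈ T, ‖b m‖ ^ 2) := by
  have h1 := cross_a h.neg T S hm hT hR hs hl b a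
  have h2 : ∑ m ∈ S, ∑ n ∈ T, a m * (starRingEnd ℂ) (b n) * KK ψ m n
      = -(starRingEnd ℂ) (∑ n ∈ T, ∑ m ∈ S, b n * (starRingEnd ℂ) (a m) * KK (fun x => -ψ x) n m) := by
    rw [map_sum, Finset.sum_comm, ← Finset.sum_neg_distrib]
    refine Finset.sum_congr rfl fun n _ => ?_
    rw [map_sum, ← Finset.sum_neg_distrib]
    refine Finset.sum_congr rfl fun m _ => ?_
    rw [map_mul, map_mul, Complex.conj_conj, KK_flip ψ m n]
    ring
  rw [h2, norm_neg, Complex.norm_conj]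
  linarith

/-- the shift `(1 - σ) ψ₂ + σ ψ₁` -/
theorem Shift.mix {ψ₁ ψ₁' ψ₂ ψ₂' : ℝ → ℝ} {s : ℝ} (h₁ : Shift ψ₁ ψ₁' s) (h₂ : Shift ψ₂ ψ₂' s)
    {σ : ℝ} (h0 : 0 ≤ σ) (h1 : σ ≤ 1) :
    Shift (fun x => ψ₂ x + σ * (ψ₁ x - ψ₂ x)) (fun x => ψ₂' x + σ * (ψ₁' x - ψ₂' x)) s := by
  refine ⟨fun x => (h₂.d x).add (((h₁.d x).sub (h₂.d x)).const_mul σ),
    h₂.c.add (continuous_const.mul (h₁.c.sub h₂.c)), fun x => by rw [h₁.p, h₂.p], fun x => ?_, h₁.s1⟩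
  have e1 := abs_le.1 (h₁.b x)
  have e2 := abs_le.1 (h₂.b x)
  rw [abs_le]
  constructor <;> nlinarith [e1.1, e1.2, e2.1, e2.2]

/-- the double sum as one integral, with a parameter -/
noncomputable def cc (ψ : ℝ → ℝ) (m n : ℤ) (x : ℝ) : ℂ :=
  if m + n = 0 then (ψ x : ℂ) * ex (((m - n : ℤ) : ℝ) * x)
  else (2 / (Complex.I * ((m + n : ℤ) : ℂ))) *
    (ex (((m - n : ℤ) : ℝ) * x) * ex (((m + n : ℤ) : ℝ) * (ψ x / 2)))

theorem KK_cc (ψ : ℝ → ℝ) (m n : ℤ) :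
    KK ψ m n = (1 / (2 * Real.pi) : ℂ) * ∫ x in (0 : ℝ)..(2 * Real.pi), cc ψ m n x := by
  unfold KK cc
  by_cases h : m + n = 0
  · simp only [if_pos h]
  · simp only [if_neg h]
    rw [intervalIntegral.integral_const_mul]
    ring

theorem cc_cont {ψ : ℝ → ℝ} (h : Continuous ψ) (m n : ℤ) : Continuous (cc ψ m n) := by
  unfold cc
  by_cases hmn : m + n = 0
  · simp only [if_pos hmn]
    exact (Complex.continuous_ofReal.comp h).mul (ex_cont.comp (by fun_prop))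
  · simp only [if_neg hmn]
    exact continuous_const.mul ((ex_cont.comp (by fun_prop)).mul (ex_cont.comp (by fun_prop)))

theorem cc_deriv (ψ₁ ψ₂ : ℝ → ℝ) (m n : ℤ) (x σ : ℝ) :
    HasDerivAt (fun τ : ℝ => cc (fun y => ψ₂ y + τ * (ψ₁ y - ψ₂ y)) m n x)
      (((ψ₁ x - ψ₂ x : ℝ) : ℂ) * (ex (m * (x + (ψ₂ x + σ * (ψ₁ x - ψ₂ x)) / 2))
        * (starRingEnd ℂ) (ex (n * (x - (ψ₂ x + σ * (ψ₁ x - ψ₂ x)) / 2))))) σ := by
  have e0 : ex (m * (x + (ψ₂ x + σ * (ψ₁ x - ψ₂ x)) / 2))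
        * (starRingEnd ℂ) (ex (n * (x - (ψ₂ x + σ * (ψ₁ x - ψ₂ x)) / 2)))
      = ex (((m - n : ℤ) : ℝ) * x) * ex (((m + n : ℤ) : ℝ) * ((ψ₂ x + σ * (ψ₁ x - ψ₂ x)) / 2)) := by
    rw [ex_conj, ← ex_add, ← ex_add]
    congr 1
    push_cast
    ring
  have hl : HasDerivAt (fun τ : ℝ => ψ₂ x + τ * (ψ₁ x - ψ₂ x)) (ψ₁ x - ψ₂ x) σ := by
    simpa using ((hasDerivAt_id σ).mul_const (ψ₁ x - ψ₂ x)).const_add (ψ₂ x)
  rw [e0]
  unfold cc
  by_cases hmn : m + n = 0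
  · simp only [if_pos hmn]
    rw [hmn]
    have h1 := (hl.ofReal_comp).mul_const (ex (((m - n : ℤ) : ℝ) * x))
    refine h1.congr_deriv ?_
    simp [ex]
  · simp only [if_neg hmn]
    have hmn' : ((m + n : ℤ) : ℂ) ≠ 0 := by exact_mod_cast hmn
    have h3 := (ex_hasDeriv ((m + n : ℤ) : ℝ) ((ψ₂ x + σ * (ψ₁ x - ψ₂ x)) / 2)).scomp σ
      (hl.div_const 2)
    have h4 := (h3.const_mul (ex (((m - n : ℤ) : ℝ) * x))).const_mul
      (2 / (Complex.I * ((m + n : ℤ) : ℂ)))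
    refine h4.congr_deriv ?_
    rw [Complex.real_smul]
    have hI0 := Complex.I_ne_zero
    push_cast
    push_cast at hmn'
    field_simp

/-- THE DEPENDENCE ON THE SHIFT -/
theorem pert {ψ₁ ψ₁' ψ₂ ψ₂' : ℝ → ℝ} {s : ℝ} (h₁ : Shift ψ₁ ψ₁' s) (h₂ : Shift ψ₂ ψ₂' s)
    (hs0 : 0 ≤ s) {D κ : ℝ} (hD : ∀ x, |ψ₁ x - ψ₂ x| ≤ D) (hκ : 0 < κ) (hs : 1 ≤ κ ^ 2 * (1 - s ^ 2))
    (S T : Finset ℤ) (a b : ℤ → ℂ) :
    2 * ‖∑ m ∈ S, ∑ n ∈ T, a m * (starRingEnd ℂ) (b n) * (KK ψ₁ m n - KK ψ₂ m n)‖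
      ≤ D * κ * (∑ m ∈ S, ‖a m‖ ^ 2 + ∑ m ∈ T, ‖b m‖ ^ 2) := by
  have hpi := Real.pi_pos
  have hc1 := h₁.cont
  have hc2 := h₂.cont
  have hD0 : 0 ≤ D := le_trans (abs_nonneg _) (hD 0)
  set P : ℝ → ℝ → ℝ := fun τ y => ψ₂ y + τ * (ψ₁ y - ψ₂ y) with hP
  set F : ℝ → ℝ → ℂ := fun τ x => ∑ m ∈ S, ∑ n ∈ T, a m * (starRingEnd ℂ) (b n) * cc (P τ) m n x with hF
  set F' : ℝ → ℝ → ℂ := fun τ x => ((ψ₁ x - ψ₂ x : ℝ) : ℂ) * (tp S a (x + P τ x / 2)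
    * (starRingEnd ℂ) (tp T b (x - P τ x / 2))) with hF'
  have hPc : ∀ τ, Continuous (P τ) := fun τ => hc2.add (continuous_const.mul (hc1.sub hc2))
  have hFc : ∀ τ, Continuous (F τ) := by
    intro τ
    rw [hF]
    exact continuous_finsetSum _ fun m _ => continuous_finsetSum _ fun n _ =>
      continuous_const.mul (cc_cont (hPc τ) m n)
  have hF'c : ∀ τ, Continuous (F' τ) := by
    intro τ
    rw [hF']
    refine (Complex.continuous_ofReal.comp (hc1.sub hc2)).mul (Continuous.mul ?_ ?_)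
    · exact (tp_cont S a).comp (continuous_id.add ((hPc τ).div_const 2))
    · exact Complex.continuous_conj.comp ((tp_cont T b).comp (continuous_id.sub ((hPc τ).div_const 2)))
  have hFd : ∀ x τ, HasDerivAt (fun t => F t x) (F' τ x) τ := by
    intro x τ
    have h5 : HasDerivAt (fun t => F t x) (∑ m ∈ S, ∑ n ∈ T, a m * (starRingEnd ℂ) (b n)
        * (((ψ₁ x - ψ₂ x : ℝ) : ℂ) * (ex (m * (x + (ψ₂ x + τ * (ψ₁ x - ψ₂ x)) / 2))
        * (starRingEnd ℂ) (ex (n * (x - (ψ₂ x + τ * (ψ₁ x - ψ₂ x)) / 2)))))) τ := by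
      rw [hF]
      refine HasDerivAt.fun_sum fun m _ => HasDerivAt.fun_sum fun n _ => ?_
      exact (cc_deriv ψ₁ ψ₂ m n x τ).const_mul _
    refine h5.congr_deriv ?_
    rw [hF']
    simp only
    unfold tp
    rw [map_sum, Finset.sum_mul_sum, Finset.mul_sum]
    refine Finset.sum_congr rfl fun m _ => ?_
    rw [Finset.mul_sum]
    refine Finset.sum_congr rfl fun n _ => ?_
    rw [map_mul]
    ring
  -- bound of `F'` by a constant
  have hbt : ∀ (U : Finset ℤ) (c : ℤ → ℂ) (x : ℝ), ‖tp U c x‖ ≤ ∑ m ∈ U, ‖c m‖ := by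
    intro U c x
    unfold tp
    refine le_trans (norm_sum_le _ _) (Finset.sum_le_sum fun m _ => ?_)
    rw [norm_mul, ex_norm, mul_one]
  set B := D * ((∑ m ∈ S, ‖a m‖) * ∑ m ∈ T, ‖b m‖) with hB
  have hF'b : ∀ τ x, ‖F' τ x‖ ≤ B := by
    intro τ x
    rw [hF', hB]
    simp only
    rw [norm_mul, norm_mul, Complex.norm_real, Real.norm_eq_abs, Complex.norm_conj]
    exact mul_le_mul (hD x) (mul_le_mul (hbt S a _) (hbt T b _) (norm_nonneg _)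
      (Finset.sum_nonneg fun m _ => norm_nonneg _)) (by positivity) hD0
  set G : ℝ → ℂ := fun τ => ∫ x in (0 : ℝ)..(2 * Real.pi), F τ x with hG
  have hGd : ∀ τ, HasDerivAt G (∫ x in (0 : ℝ)..(2 * Real.pi), F' τ x) τ := by
    intro τ
    have h6 := intervalIntegral.hasDerivAt_integral_of_dominated_loc_of_deriv_le
      (μ := volume) (a := 0) (b := 2 * Real.pi) (F := F) (F' := F') (x₀ := τ) (s := Set.univ)
      (bound := fun _ => B) Filter.univ_mem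
      (Filter.Eventually.of_forall fun t => (hFc t).aestronglyMeasurable)
      ((hFc τ).intervalIntegrable _ _) (hF'c τ).aestronglyMeasurable
      (ae_of_all _ fun x _ t _ => hF'b t x) intervalIntegrable_const
      (ae_of_all _ fun x _ t _ => hFd x t)
    exact h6.2
  -- bound of the derivative
  have hA : ∀ τ, 0 ≤ τ → τ ≤ 1 → ‖∫ x in (0 : ℝ)..(2 * Real.pi), F' τ x‖
      ≤ D * κ / 2 * (2 * Real.pi * (∑ m ∈ S, ‖a m‖ ^ 2 + ∑ m ∈ T, ‖b m‖ ^ 2)) := by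
    intro τ h0 h1
    have hsh := h₁.mix h₂ h0 h1
    have q1 := sq_plus hsh S a
    have q2 := sq_minus hsh T b
    set ψ' : ℝ → ℝ := fun x => ψ₂' x + τ * (ψ₁' x - ψ₂' x) with hψ'
    have c1 : Continuous fun x : ℝ => ‖tp S a (x + P τ x / 2)‖ ^ 2 * (1 + ψ' x / 2) :=
      (((tp_cont S a).comp (continuous_id.add ((hPc τ).div_const 2))).norm.pow 2).mul
        (continuous_const.add (hsh.c.div_const 2))
    have c2 : Continuous fun x : ℝ => ‖tp T b (x - P τ x / 2)‖ ^ 2 * (1 - ψ' x / 2) :=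
      (((tp_cont T b).comp (continuous_id.sub ((hPc τ).div_const 2))).norm.pow 2).mul
        (continuous_const.sub (hsh.c.div_const 2))
    have hpt : ∀ x, ‖F' τ x‖ ≤ D * κ / 2 * (‖tp S a (x + P τ x / 2)‖ ^ 2 * (1 + ψ' x / 2)
        + ‖tp T b (x - P τ x / 2)‖ ^ 2 * (1 - ψ' x / 2)) := by
      intro x
      rw [hF']
      simp only
      rw [norm_mul, norm_mul, Complex.norm_real, Real.norm_eq_abs, Complex.norm_conj]
      set X := ‖tp S a (x + P τ x / 2)‖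
      set Y := ‖tp T b (x - P τ x / 2)‖
      have hX : 0 ≤ X := norm_nonneg _
      have hY : 0 ≤ Y := norm_nonneg _
      have hb := abs_le.1 (hsh.b x)
      have hs1 := h₁.s1
      set u := ψ' x / 2 with hu
      have hu1 : -s ≤ u := by rw [hu]; linarith [hb.1]
      have hu2 : u ≤ s := by rw [hu]; linarith [hb.2]
      have k1 : 1 ≤ κ ^ 2 * ((1 + u) * (1 - u)) := by
        have : (1 - s ^ 2) ≤ (1 + u) * (1 - u) := by nlinarith
        nlinarith [sq_nonneg κ, mul_le_mul_of_nonneg_left this (sq_nonneg κ)]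
      have k2 : X * Y ≤ κ / 2 * (X ^ 2 * (1 + u) + Y ^ 2 * (1 - u)) := by
        have hp1 : 0 ≤ 1 + u := by linarith
        have hp2 : 0 ≤ 1 - u := by linarith
        have k3 : (X * Y) ^ 2 ≤ (κ / 2 * (X ^ 2 * (1 + u) + Y ^ 2 * (1 - u))) ^ 2 := by
          have k4 : (X * Y) ^ 2 * 1 ≤ (X * Y) ^ 2 * (κ ^ 2 * ((1 + u) * (1 - u))) :=
            mul_le_mul_of_nonneg_left k1 (sq_nonneg _)
          nlinarith [sq_nonneg (κ * (X ^ 2 * (1 + u) - Y ^ 2 * (1 - u)))]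
        exact le_of_sq_le_sq k3 (by positivity)
      calc |ψ₁ x - ψ₂ x| * (X * Y) ≤ D * (κ / 2 * (X ^ 2 * (1 + u) + Y ^ 2 * (1 - u))) :=
            mul_le_mul (hD x) k2 (by positivity) hD0
        _ = _ := by ring
    have hn := intervalIntegral.norm_integral_le_of_norm_le (μ := volume) (a := 0) (b := 2 * Real.pi)
      (f := F' τ) (g := fun x => D * κ / 2 * (‖tp S a (x + P τ x / 2)‖ ^ 2 * (1 + ψ' x / 2)
        + ‖tp T b (x - P τ x / 2)‖ ^ 2 * (1 - ψ' x / 2))) (by positivity)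
      (ae_of_all _ fun x _ => hpt x)
      ((continuous_const.mul (c1.add c2)).intervalIntegrable _ _)
    rw [intervalIntegral.integral_const_mul, intervalIntegral.integral_add
      (c1.intervalIntegrable _ _) (c2.intervalIntegrable _ _), q1, q2] at hn
    refine le_trans hn (le_of_eq ?_)
    ring
  -- mean value inequality
  have hmv : ‖G 1 - G 0‖ ≤ D * κ / 2 * (2 * Real.pi * (∑ m ∈ S, ‖a m‖ ^ 2 + ∑ m ∈ T, ‖b m‖ ^ 2))
      * ‖(1 : ℝ) - 0‖ := by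
    refine Convex.norm_image_sub_le_of_norm_hasDerivWithin_le (s := Set.Icc (0 : ℝ) 1)
      (fun τ _ => (hGd τ).hasDerivWithinAt) (fun τ hτ => hA τ hτ.1 hτ.2) (convex_Icc 0 1)
      (Set.left_mem_Icc.2 zero_le_one) (Set.right_mem_Icc.2 zero_le_one)
  have hG01 : ∑ m ∈ S, ∑ n ∈ T, a m * (starRingEnd ℂ) (b n) * (KK ψ₁ m n - KK ψ₂ m n)
      = (1 / (2 * Real.pi) : ℂ) * (G 1 - G 0) := by
    have e1 : P 1 = ψ₁ := by
      funext y
      rw [hP]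
      ring
    have e0 : P 0 = ψ₂ := by
      funext y
      rw [hP]
      ring
    have e2 : ∀ ψ : ℝ → ℝ, Continuous ψ → (1 / (2 * Real.pi) : ℂ) * ∫ x in (0 : ℝ)..(2 * Real.pi),
        ∑ m ∈ S, ∑ n ∈ T, a m * (starRingEnd ℂ) (b n) * cc ψ m n x
        = ∑ m ∈ S, ∑ n ∈ T, a m * (starRingEnd ℂ) (b n) * KK ψ m n := by
      intro ψ hψ
      rw [intervalIntegral.integral_finsetSum, Finset.mul_sum]
      · refine Finset.sum_congr rfl fun m _ => ?_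
        rw [intervalIntegral.integral_finsetSum, Finset.mul_sum]
        · refine Finset.sum_congr rfl fun n _ => ?_
          rw [intervalIntegral.integral_const_mul, KK_cc]
          ring
        · intro n _
          exact (continuous_const.mul (cc_cont hψ m n)).intervalIntegrable _ _
      · intro m _
        exact (continuous_finsetSum _ fun n _ =>
          continuous_const.mul (cc_cont hψ m n)).intervalIntegrable _ _
    rw [hG]
    simp only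
    rw [hF]
    simp only
    rw [e1, e0, mul_sub, e2 ψ₁ hc1, e2 ψ₂ hc2, ← Finset.sum_sub_distrib]
    refine Finset.sum_congr rfl fun m _ => ?_
    rw [← Finset.sum_sub_distrib]
    refine Finset.sum_congr rfl fun n _ => ?_
    ring
  rw [hG01, norm_mul, norm_two_pi]
  rw [sub_zero, norm_one, mul_one] at hmv
  have h9 := mul_le_mul_of_nonneg_left hmv (by positivity : (0 : ℝ) ≤ 1 / (2 * Real.pi))
  have h10 : 1 / (2 * Real.pi) * (D * κ / 2 * (2 * Real.pi * (∑ m ∈ S, ‖a m‖ ^ 2 + ∑ m ∈ T, ‖b m‖ ^ 2)))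
      = D * κ / 2 * (∑ m ∈ S, ‖a m‖ ^ 2 + ∑ m ∈ T, ‖b m‖ ^ 2) := by
    field_simp
  linarith

/-- the dependence on the shift, sinus shifts with the same phase -/
theorem pert_sin (d₁ k₁ d₂ k₂ p s : ℝ) (hk₁ : 3 / 2 * |k₁| ≤ s) (hk₂ : 3 / 2 * |k₂| ≤ s) (hs1 : s < 1)
    {κ : ℝ} (hκ : 0 < κ) (hs : 1 ≤ κ ^ 2 * (1 - s ^ 2)) (S T : Finset ℤ) (a b : ℤ → ℂ) :
    2 * ‖∑ m ∈ S, ∑ n ∈ T, a m * (starRingEnd ℂ) (b n)
        * (KK (fun x => d₁ + k₁ * Real.sin (3 * x + p)) m n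
          - KK (fun x => d₂ + k₂ * Real.sin (3 * x + p)) m n)‖
      ≤ (|d₁ - d₂| + |k₁ - k₂|) * κ * (∑ m ∈ S, ‖a m‖ ^ 2 + ∑ m ∈ T, ‖b m‖ ^ 2) := by
  have hs0 : 0 ≤ s := le_trans (by positivity) hk₁
  have g1 := shift_sin d₁ k₁ p (by linarith)
  have g2 := shift_sin d₂ k₂ p (by linarith)
  have g1' : Shift (fun x => d₁ + k₁ * Real.sin (3 * x + p)) (fun x => 3 * k₁ * Real.cos (3 * x + p)) s :=
    ⟨g1.d, g1.c, g1.p, fun x => le_trans (g1.b x) (by linarith), hs1⟩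
  have g2' : Shift (fun x => d₂ + k₂ * Real.sin (3 * x + p)) (fun x => 3 * k₂ * Real.cos (3 * x + p)) s :=
    ⟨g2.d, g2.c, g2.p, fun x => le_trans (g2.b x) (by linarith), hs1⟩
  refine pert g1' g2' hs0 (fun x => ?_) hκ hs S T a b
  have : d₁ + k₁ * Real.sin (3 * x + p) - (d₂ + k₂ * Real.sin (3 * x + p))
      = (d₁ - d₂) + (k₁ - k₂) * Real.sin (3 * x + p) := by ring
  rw [this]
  refine le_trans (abs_add_le _ _) ?_
  rw [abs_mul]
  have h1 := Real.abs_sin_le_one (3 * x + p)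
  nlinarith [abs_nonneg (k₁ - k₂)]

end Helper41.RC
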