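import Pool.Agent.Helper41.RC.M_R02b

/-!
# SHARP, zone I, (Q): the rows `l = 0` and `l = 2` of the rest

For `0 ≤ A`, `A + (8/5) |B| ≤ 1/12`, `β` of period `π`, `ρ` antiperiodic, bounded measurable; exact alignments of `PI c A B`.
* `row2`: `(1/12) |e_2 - (7/2) p_2 + (37/8) i r_2|² ≤ (1/200) ∑_{|n| ≤ 7} |s_n|² + (1/5000) |ρ|² + (1/400) |β|²`
* `row0`: `2 p_0 (e_0 + p_0) ≥ -(2/5) p_0² - (1/100) |s_3|² - (1/10) (|s_-3|² + |s_-5|²) - (3/10000) |ρ|² - (3/400) |β|²`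
-/

set_option autoImplicit false

open MeasureTheory Set Filter

namespace Helper41.RC.R02

open Helper49.LT hiding sg s3
open Helper49.RC (om)
open Helper49.Sharp
open Helper56.RC (fc)
open Helper87.RC (BM pars fc_conj)
open Helper95.RC (av)
open Pool.Agent.Helper20.RC (eM lk)
open Pool.Agent.Helper33.SH
open Pool.Agent.Helper43.SH

/-! ### averages -/

theorem av_add {f g : ℝ → ℂ} {C D : ℝ} (h : BM f C) (k : BM g D) : av (fun t => f t + g t) = av f + av g := by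
  unfold av
  rw [intervalIntegral.integral_add (h.i _ _) (k.i _ _)]
  ring

theorem av_cmul (c : ℂ) (f : ℝ → ℂ) : av (fun t => c * f t) = c * av f := by
  unfold av
  rw [intervalIntegral.integral_const_mul]
  ring

theorem av_congr {f g : ℝ → ℂ} (h : ∀ t, f t = g t) : av f = av g := by
  unfold av
  congr 1
  exact intervalIntegral.integral_congr fun t _ => h t

/-- Jensen -/
theorem av_sq {f : ℝ → ℂ} {C : ℝ} (h : BM f C) : ‖av f‖ ^ 2 ≤ mean fun t => ‖f t‖ ^ 2 := by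
  have h1 := le_hasSum (pars h) 0 fun n _ => by positivity
  have e : fc f 0 = av f := by
    unfold fc av
    congr 1
    refine intervalIntegral.integral_congr fun t _ => ?_
    simp [ee_zero]
  rw [e] at h1
  exact h1

/-- symmetrisation -/
theorem av_sym {f : ℝ → ℂ} {C : ℝ} (h : BM f C) (hp : ∀ t, f (t + 2 * Real.pi) = f t) :
    av f = av fun t => (f t + f (t + Real.pi)) / 2 := by
  have k : BM (fun t => f (t + Real.pi)) C := ⟨h.m.comp (measurable_id.add_const _), fun t => h.b _⟩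
  have e : (fun t => (f t + f (t + Real.pi)) / 2) = fun t => (1 / 2 : ℂ) * (f t + f (t + Real.pi)) := by
    funext t; ring
  rw [e, av_cmul, av_add h k]
  have e2 : av (fun t => f (t + Real.pi)) = av f := by
    unfold av
    rw [shiftC hp]
  rw [e2]
  ring

theorem fc_av (f : ℝ → ℂ) (n : ℤ) : fc f n = av fun t => f t * ee (-((n : ℝ) * t)) := rfl

theorem eeBM (c : ℝ) : BM (fun t : ℝ => ee (-(c * t))) 1 :=
  ⟨continuous_ee.measurable.comp ((measurable_id.const_mul _).neg), fun t => by rw [norm_ee]⟩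

/-! ### the data of the rows -/

section

variable {c : ZC} {A : ℝ} {B : ℂ} {β ρ : ℝ → ℂ} {C D : ℝ}

theorem z0_small (hA : 0 ≤ A) (hZ : A + 8 / 5 * ‖B‖ ≤ 1 / 12) (t : ℝ) : ‖z0I A B t‖ ≤ 1 / 12 := by
  have h := norm_z0I A B t
  rw [abs_of_nonneg hA] at h
  have := norm_nonneg B
  linarith

/-- the conjugate unit vectors -/
theorem E1_eq (hA : 0 ≤ A) (hZ : A + 8 / 5 * ‖B‖ ≤ 1 / 12) (t : ℝ) :
    ee (-((PI c A B).ph1 (t + Real.pi / 3) - t)) = qq * nn (qq * z0I A B t) := by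
  have h1 := z0_small hA hZ t
  have h2 : ee ((PI c A B).ph1 (t + Real.pi / 3) - t) = (PI c A B).v1 t := rfl
  rw [ee_neg, h2, v1_eq, u1_eq c A B t (by linarith)]
  unfold nn qq ζ1
  rw [map_mul, map_div₀, map_add, map_one, Complex.conj_ofReal]

theorem E2_eq (hA : 0 ≤ A) (hZ : A + 8 / 5 * ‖B‖ ≤ 1 / 12) (t : ℝ) :
    ee (-((PI c A B).ph2 (t + 2 * Real.pi / 3) - t)) = qq ^ 2 * nn (om * z0I A B t) := by
  have h1 := z0_small hA hZ t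
  have h2 : ee ((PI c A B).ph2 (t + 2 * Real.pi / 3) - t) = (PI c A B).v2 t := rfl
  rw [ee_neg, h2, v2_eq, u2_eq c A B t (by linarith)]
  unfold nn qq ζ2
  rw [map_mul, map_div₀, map_add, map_one, Complex.conj_ofReal, map_pow]

theorem qq_cube : qq ^ 3 = -1 := by
  linear_combination (qq + 1) * qq_sq
theorem om_qq : om * qq = 1 := by unfold qq; exact om_mul

theorem conj_qq : (starRingEnd ℂ) qq = om := by unfold qq; exact Complex.conj_conj _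
theorem conj_kq : (starRingEnd ℂ) kq = kc := by
  unfold kq kc
  rw [map_add, map_div₀, Complex.conj_I, Complex.conj_ofReal, map_ofNat]
  ring
theorem conj_kc : (starRingEnd ℂ) kc = kq := by
  rw [← conj_kq, Complex.conj_conj]

theorem g1L' (b r : ℂ) : g1L b r = qq * (b.re : ℂ) + kq * (b.im : ℂ) + r := rfl
theorem g2L' (b r : ℂ) : g2L b r = qq ^ 2 * (b.re : ℂ) + kc * (b.im : ℂ) - r := rfl

theorem cg1L (b r : ℂ) : (starRingEnd ℂ) (g1L b r) = om * (b.re : ℂ) + kc * (b.im : ℂ) + (starRingEnd ℂ) r := by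
  rw [g1L', map_add, map_add, map_mul, map_mul, Complex.conj_ofReal, Complex.conj_ofReal, conj_qq, conj_kq]
theorem cg2L (b r : ℂ) : (starRingEnd ℂ) (g2L b r) = om ^ 2 * (b.re : ℂ) + kq * (b.im : ℂ) - (starRingEnd ℂ) r := by
  rw [g2L', map_sub, map_add, map_mul, map_mul, Complex.conj_ofReal, Complex.conj_ofReal, map_pow, conj_qq, conj_kc]

/-- the density of the row 2 -/
noncomputable def d2 (z b r : ℂ) : ℂ :=
  (b.re : ℂ) * PX z + (b.im : ℂ) * PY z + r * CP z + (starRingEnd ℂ) r * CM z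
/-- the density of the row 0 (before the real part) -/
noncomputable def d0 (z b r : ℂ) : ℂ :=
  (b.re : ℂ) * ZX z + (b.im : ℂ) * ZY z + r * ZC0 z

theorem dens2 (hA : 0 ≤ A) (hZ : A + 8 / 5 * ‖B‖ ≤ 1 / 12) (t : ℝ) (b r : ℂ) :
    eF ((2 : ℤ) : ℝ) (g1L b r) ((PI c A B).ph1 (t + Real.pi / 3) - t)
      + eF ((2 : ℤ) : ℝ) (g2L b r) ((PI c A B).ph2 (t + 2 * Real.pi / 3) - t) = d2 (z0I A B t) b r := by
  have c1 : ∀ a : ℝ, ee (-((((2 : ℤ) : ℝ) + 1) * a)) = ee (-a) ^ 3 := by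
    intro a
    have h := ee_int_mul 3 (-a)
    have h' : ee (-a) ^ (3 : ℤ) = ee (-a) ^ 3 := by norm_cast
    rw [← h', ← h]
    congr 1
    push_cast
    ring
  have c2 : ∀ a : ℝ, ee (-((((2 : ℤ) : ℝ) - 1) * a)) = ee (-a) := by
    intro a
    congr 1
    push_cast
    ring
  unfold eF
  rw [c1, c2, c1, c2, E1_eq hA hZ, E2_eq hA hZ, cg1L, cg2L, g1L', g2L']
  unfold d2 PX PY CP CM
  set n1 := nn (qq * z0I A B t)
  set n2 := nn (om * z0I A B t)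
  have h3 := qq_cube
  have ho := om_qq
  push_cast
  linear_combination (-(1 : ℂ) / 2 * (qq * b.re + kq * b.im + r) * n1 ^ 3
      - 1 / 2 * (qq ^ 2 * b.re + kc * b.im - r) * n2 ^ 3 * (qq ^ 3 - 1)) * h3
      + (3 / 2 * b.re * n1 + 3 / 2 * b.re * n2 * (om * qq + 1)) * ho

theorem dens0 (hA : 0 ≤ A) (hZ : A + 8 / 5 * ‖B‖ ≤ 1 / 12) (t : ℝ) (b r : ℂ) :
    eF ((0 : ℤ) : ℝ) (g1L b r) ((PI c A B).ph1 (t + Real.pi / 3) - t)
      + eF ((0 : ℤ) : ℝ) (g2L b r) ((PI c A B).ph2 (t + 2 * Real.pi / 3) - t) = ((d0 (z0I A B t) b r).re : ℂ) := by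
  have c1 : ∀ a : ℝ, ee (-((((0 : ℤ) : ℝ) + 1) * a)) = ee (-a) := by
    intro a
    congr 1
    push_cast
    ring
  have c2 : ∀ a : ℝ, ee (-((((0 : ℤ) : ℝ) - 1) * a)) = (starRingEnd ℂ) (ee (-a)) := by
    intro a
    rw [← ee_neg]
    congr 1
    push_cast
    ring
  have key : ∀ g E : ℂ, (1 - (((0 : ℤ) : ℝ) : ℂ)) / 2 * (g * E) + (1 + (((0 : ℤ) : ℝ) : ℂ)) / 2 *
      ((starRingEnd ℂ) g * (starRingEnd ℂ) E) = (((g * E).re : ℝ) : ℂ) := by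
    intro g E
    rw [← map_mul, Complex.re_eq_add_conj]
    push_cast
    ring
  unfold eF
  rw [c1, c2, c1, c2, key, key, E1_eq hA hZ, E2_eq hA hZ, g1L', g2L', ← Complex.ofReal_add, ← Complex.add_re]
  congr 2
  unfold d0 ZX ZY ZC0
  ring

/-- symmetrised densities -/
theorem sym2 (z b r : ℂ) : (d2 z b r + d2 (-z) b (-r)) / 2 =
    (b.re : ℂ) * ev PX z + (b.im : ℂ) * ev PY z + r * od CP z + (starRingEnd ℂ) r * od CM z := by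
  unfold d2 ev od
  rw [map_neg]
  ring
theorem sym0 (z b r : ℂ) : (d0 z b r + d0 (-z) b (-r)) / 2 =
    (b.re : ℂ) * ev ZX z + (b.im : ℂ) * ev ZY z + r * od ZC0 z := by
  unfold d0 ev od
  ring

/-- the main part of the row 2 at a point -/
noncomputable def m2 (z b r : ℂ) : ℂ :=
  7 / 2 * (b.re : ℂ) - 37 / 8 * Complex.I * (b.im : ℂ) - 3 / 4 * (r * (z - (starRingEnd ℂ) z))
    + 3 / 4 * ((starRingEnd ℂ) r * (z + 2 * (starRingEnd ℂ) z))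
/-- the main part of the row 0 at a point -/
noncomputable def m0 (z b r : ℂ) : ℝ := -b.re + (1 / 2 * (r * (z + 2 * (starRingEnd ℂ) z))).re

theorem err2 {z b r : ℂ} (h : ‖z‖ ≤ 1 / 12) : ‖(d2 z b r + d2 (-z) b (-r)) / 2 - m2 z b r‖ ^ 2 ≤
    1103 / 1000000 * ‖r‖ ^ 2 + 13269 / 1000000 * ‖b‖ ^ 2 := by
  have e : (d2 z b r + d2 (-z) b (-r)) / 2 - m2 z b r = (b.re : ℂ) * (ev PX z - 7 / 2)
      + (b.im : ℂ) * (ev PY z + 37 / 8 * Complex.I) + r * (od CP z + 3 / 2 * Complex.I * z.im)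
      + (starRingEnd ℂ) r * (od CM z - 3 / 4 * (z + 2 * (starRingEnd ℂ) z)) := by
    have hz : z - (starRingEnd ℂ) z = 2 * Complex.I * z.im := by
      rw [Complex.sub_conj]
      push_cast
      ring
    rw [sym2]
    unfold m2
    rw [hz]
    ring
  have n1 : ‖(d2 z b r + d2 (-z) b (-r)) / 2 - m2 z b r‖ ≤ 27 / 500 * |b.re| + 19 / 200 * |b.im| + 21 / 2000 * ‖r‖ := by
    rw [e]
    refine (norm_add_le _ _).trans ((add_le_add (norm_add_le _ _) le_rfl).trans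
      ((add_le_add (add_le_add (norm_add_le _ _) le_rfl) le_rfl).trans ?_))
    rw [norm_mul, norm_mul, norm_mul, norm_mul, Complex.norm_conj, Complex.norm_real, Complex.norm_real,
      Real.norm_eq_abs, Real.norm_eq_abs]
    have a1 := mul_le_mul_of_nonneg_left (evPX h) (abs_nonneg b.re)
    have a2 := mul_le_mul_of_nonneg_left (evPY h) (abs_nonneg b.im)
    have a3 := mul_le_mul_of_nonneg_left (odCP h) (norm_nonneg r)
    have a4 := mul_le_mul_of_nonneg_left (odCM h) (norm_nonneg r)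
    linarith
  have n2 := pow_le_pow_left₀ (norm_nonneg _) n1 2
  refine n2.trans ?_
  have hb : ‖b‖ ^ 2 = |b.re| ^ 2 + |b.im| ^ 2 := by rw [nsq, sq_abs, sq_abs]
  rw [hb]
  set x := |b.re|
  set y := |b.im|
  set w := ‖r‖
  nlinarith [sq_nonneg (19 / 200 * x - 27 / 500 * y), sq_nonneg (9 * (21 / 2000 * w) - (27 / 500 * x + 19 / 200 * y))]

theorem err0 {z b r : ℂ} (h : ‖z‖ ≤ 1 / 12) : |((d0 z b r + d0 (-z) b (-r)) / 2).re - m0 z b r| ^ 2 ≤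
    21530 / 1000000000 * ‖r‖ ^ 2 + 58588 / 100000000 * ‖b‖ ^ 2 := by
  have e : ((d0 z b r + d0 (-z) b (-r)) / 2).re - m0 z b r = ((b.re : ℂ) * (ev ZX z + 1)).re
      + b.im * (ev ZY z).re + (r * (od ZC0 z - 1 / 2 * (z + 2 * (starRingEnd ℂ) z))).re := by
    rw [sym0]
    unfold m0
    have e2 : (b.re : ℂ) * ev ZX z + (b.im : ℂ) * ev ZY z + r * od ZC0 z = ((b.re : ℂ) * (ev ZX z + 1)
        + (b.im : ℂ) * ev ZY z + r * (od ZC0 z - 1 / 2 * (z + 2 * (starRingEnd ℂ) z)))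
        + (1 / 2 * (r * (z + 2 * (starRingEnd ℂ) z)) - (b.re : ℂ)) := by ring
    rw [e2, Complex.add_re, Complex.sub_re, Complex.add_re, Complex.add_re, Complex.ofReal_re,
      Complex.re_ofReal_mul b.im]
    ring
  have n1 : |((d0 z b r + d0 (-z) b (-r)) / 2).re - m0 z b r| ≤ 13 / 1250 * |b.re| + 91 / 5000 * |b.im| + 29 / 12500 * ‖r‖ := by
    rw [e]
    refine (abs_add_le _ _).trans ((add_le_add (abs_add_le _ _) le_rfl).trans ?_)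
    have a1 : |((b.re : ℂ) * (ev ZX z + 1)).re| ≤ 13 / 1250 * |b.re| := by
      refine (Complex.abs_re_le_norm _).trans ?_
      rw [norm_mul, Complex.norm_real, Real.norm_eq_abs]
      have := mul_le_mul_of_nonneg_left (evZX h) (abs_nonneg b.re)
      linarith
    have a2 : |b.im * (ev ZY z).re| ≤ 91 / 5000 * |b.im| := by
      rw [abs_mul]
      have := mul_le_mul_of_nonneg_left (evZY h) (abs_nonneg b.im)
      linarith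
    have a3 : |(r * (od ZC0 z - 1 / 2 * (z + 2 * (starRingEnd ℂ) z))).re| ≤ 29 / 12500 * ‖r‖ := by
      refine (Complex.abs_re_le_norm _).trans ?_
      rw [norm_mul]
      have := mul_le_mul_of_nonneg_left (odZ h) (norm_nonneg r)
      linarith
    linarith
  have n2 := pow_le_pow_left₀ (abs_nonneg _) n1 2
  refine n2.trans ?_
  have hb : ‖b‖ ^ 2 = |b.re| ^ 2 + |b.im| ^ 2 := by rw [nsq, sq_abs, sq_abs]
  rw [hb]
  set x := |b.re|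
  set y := |b.im|
  set w := ‖r‖
  nlinarith [sq_nonneg (91 / 5000 * x - 13 / 1250 * y), sq_nonneg (3 * (29 / 12500 * w) - (13 / 1250 * x + 91 / 5000 * y))]

/-! ### the row 2 -/

/-- `f t e^{-int}` -/
noncomputable def Tn (f : ℝ → ℂ) (n : ℤ) (t : ℝ) : ℂ := f t * ee (-((n : ℝ) * t))

theorem Tn_BM {f : ℝ → ℂ} {C : ℝ} (h : BM f C) (n : ℤ) : BM (Tn f n) (C * 1) := h.mul (eeBM _)

theorem av_Tn (f : ℝ → ℂ) (n : ℤ) : av (Tn f n) = fc f n := rfl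

theorem z_conj (A : ℝ) (B : ℂ) (t : ℝ) : (starRingEnd ℂ) (z0I A B t) =
    A * ee (3 * t) + (starRingEnd ℂ) B * ee (5 * t) - 1 / 2 * (B * ee (-5 * t)) := by
  unfold z0I
  rw [zB_eq]
  have e1 : (starRingEnd ℂ) (ee (-3 * t)) = ee (3 * t) := by rw [← ee_neg]; congr 1; ring
  have e2 : (starRingEnd ℂ) (ee (-5 * t)) = ee (5 * t) := by rw [← ee_neg]; congr 1; ring
  have e3 : (starRingEnd ℂ) (ee (5 * t)) = ee (-5 * t) := by rw [← ee_neg]; congr 1; ring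
  have h2 : (starRingEnd ℂ) (1 / 2 : ℂ) = 1 / 2 := by
    rw [map_div₀, map_one, map_ofNat]
  rw [map_sub, map_add, map_mul, map_mul, map_mul, map_mul, e1, e2, e3, h2, Complex.conj_conj, Complex.conj_ofReal]

/-- the linear part of the row 2 -/
noncomputable def L2 (A : ℝ) (B : ℂ) (s : ℤ → ℂ) : ℂ :=
  -(3 / 4 * A) * s 5 + 3 / 4 * A * s (-1) - 9 / 8 * B * s 7 + 9 / 8 * (starRingEnd ℂ) B * s (-3)
    + 3 / 4 * A * (starRingEnd ℂ) (s (-5)) + 3 / 2 * A * (starRingEnd ℂ) (s 1)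
    + 9 / 8 * (starRingEnd ℂ) B * (starRingEnd ℂ) (s 3)

theorem cs7 {a b : Fin 7 → ℝ} : (∑ i, a i * b i) ^ 2 ≤ (∑ i, a i ^ 2) * ∑ i, b i ^ 2 :=
  Finset.sum_mul_sq_le_sq_mul_sq _ _ _

theorem L2_sum (hA : 0 ≤ A) (s : ℤ → ℂ) : ‖L2 A B s‖ ≤ 3 / 4 * A * ‖s 5‖ + 3 / 4 * A * ‖s (-1)‖ + 9 / 8 * ‖B‖ * ‖s 7‖
    + 9 / 8 * ‖B‖ * ‖s (-3)‖ + 3 / 4 * A * ‖s (-5)‖ + 3 / 2 * A * ‖s 1‖ + 9 / 8 * ‖B‖ * ‖s 3‖ := by
  have hB := norm_nonneg B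
  have nA : ‖(A : ℂ)‖ = A := by rw [Complex.norm_real, Real.norm_eq_abs, abs_of_nonneg hA]
  have q1 : ‖(3 / 4 : ℂ)‖ = 3 / 4 := by norm_num
  have q2 : ‖(9 / 8 : ℂ)‖ = 9 / 8 := by norm_num
  have q3 : ‖(3 / 2 : ℂ)‖ = 3 / 2 := by norm_num
  unfold L2
  have t1 : ‖-(3 / 4 * (A : ℂ)) * s 5‖ = 3 / 4 * A * ‖s 5‖ := by rw [norm_mul, norm_neg, norm_mul, q1, nA]
  have t2 : ‖3 / 4 * (A : ℂ) * s (-1)‖ = 3 / 4 * A * ‖s (-1)‖ := by rw [norm_mul, norm_mul, q1, nA]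
  have t3 : ‖9 / 8 * B * s 7‖ = 9 / 8 * ‖B‖ * ‖s 7‖ := by rw [norm_mul, norm_mul, q2]
  have t4 : ‖9 / 8 * (starRingEnd ℂ) B * s (-3)‖ = 9 / 8 * ‖B‖ * ‖s (-3)‖ := by
    rw [norm_mul, norm_mul, q2, Complex.norm_conj]
  have t5 : ‖3 / 4 * (A : ℂ) * (starRingEnd ℂ) (s (-5))‖ = 3 / 4 * A * ‖s (-5)‖ := by
    rw [norm_mul, norm_mul, q1, nA, Complex.norm_conj]
  have t6 : ‖3 / 2 * (A : ℂ) * (starRingEnd ℂ) (s 1)‖ = 3 / 2 * A * ‖s 1‖ := by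
    rw [norm_mul, norm_mul, q3, nA, Complex.norm_conj]
  have t7 : ‖9 / 8 * (starRingEnd ℂ) B * (starRingEnd ℂ) (s 3)‖ = 9 / 8 * ‖B‖ * ‖s 3‖ := by
    rw [norm_mul, norm_mul, q2, Complex.norm_conj, Complex.norm_conj]
  refine (norm_add_le _ _).trans ?_
  rw [t7]
  have u1 := norm_add_le (-(3 / 4 * (A : ℂ)) * s 5 + 3 / 4 * A * s (-1) - 9 / 8 * B * s 7 + 9 / 8 * (starRingEnd ℂ) B * s (-3)
    + 3 / 4 * A * (starRingEnd ℂ) (s (-5))) (3 / 2 * A * (starRingEnd ℂ) (s 1))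
  have u2 := norm_add_le (-(3 / 4 * (A : ℂ)) * s 5 + 3 / 4 * A * s (-1) - 9 / 8 * B * s 7 + 9 / 8 * (starRingEnd ℂ) B * s (-3))
    (3 / 4 * A * (starRingEnd ℂ) (s (-5)))
  have u3 := norm_add_le (-(3 / 4 * (A : ℂ)) * s 5 + 3 / 4 * A * s (-1) - 9 / 8 * B * s 7) (9 / 8 * (starRingEnd ℂ) B * s (-3))
  have u4 := norm_sub_le (-(3 / 4 * (A : ℂ)) * s 5 + 3 / 4 * A * s (-1)) (9 / 8 * B * s 7)
  have u5 := norm_add_le (-(3 / 4 * (A : ℂ)) * s 5) (3 / 4 * A * s (-1))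
  linarith

theorem L2_le (hA : 0 ≤ A) (hZ : A + 8 / 5 * ‖B‖ ≤ 1 / 12) (s : ℤ → ℂ) : ‖L2 A B s‖ ^ 2 ≤
    7 / 256 * (‖s 1‖ ^ 2 + ‖s (-1)‖ ^ 2 + ‖s 3‖ ^ 2 + ‖s (-3)‖ ^ 2 + ‖s 5‖ ^ 2 + ‖s (-5)‖ ^ 2 + ‖s 7‖ ^ 2) := by
  have hB := norm_nonneg B
  have h1 : ‖L2 A B s‖ ≤ ∑ i, (![3 / 4 * A, 3 / 4 * A, 9 / 8 * ‖B‖, 9 / 8 * ‖B‖, 3 / 4 * A, 3 / 2 * A, 9 / 8 * ‖B‖] : Fin 7 → ℝ) i *
      (![‖s 5‖, ‖s (-1)‖, ‖s 7‖, ‖s (-3)‖, ‖s (-5)‖, ‖s 1‖, ‖s 3‖] : Fin 7 → ℝ) i := by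
    simp only [Fin.sum_univ_succ, Fin.sum_univ_zero, Matrix.cons_val_zero, Matrix.cons_val_succ, add_zero]
    have := L2_sum hA (B := B) s
    linarith
  have h2 := pow_le_pow_left₀ (norm_nonneg _) h1 2
  refine h2.trans (cs7.trans ?_)
  simp only [Fin.sum_univ_succ, Fin.sum_univ_zero, Matrix.cons_val_zero, Matrix.cons_val_succ, add_zero]
  set b := ‖B‖
  have hc : (3 / 4 * A) ^ 2 + ((3 / 4 * A) ^ 2 + ((9 / 8 * b) ^ 2 + ((9 / 8 * b) ^ 2 + ((3 / 4 * A) ^ 2 + ((3 / 2 * A) ^ 2 + (9 / 8 * b) ^ 2)))))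
      ≤ 7 / 256 := by
    have h3 : (A + 8 / 5 * b) ^ 2 ≤ (1 / 12) ^ 2 := pow_le_pow_left₀ (by positivity) hZ 2
    nlinarith [mul_nonneg hA hB, sq_nonneg b]
  have hs : 0 ≤ ‖s 5‖ ^ 2 + (‖s (-1)‖ ^ 2 + (‖s 7‖ ^ 2 + (‖s (-3)‖ ^ 2 + (‖s (-5)‖ ^ 2 + (‖s 1‖ ^ 2 + ‖s 3‖ ^ 2))))) := by
    positivity
  refine (mul_le_mul_of_nonneg_right hc hs).trans (le_of_eq (by ring))

theorem L2_leb (hA : 0 ≤ A) (hZ : A + 8 / 5 * ‖B‖ ≤ 1 / 12) (s : ℤ → ℂ) : ‖L2 A B s‖ ^ 2 ≤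
    89 / 10000 * (‖s (-1)‖ ^ 2 + 4 * (‖s 1‖ ^ 2 + ‖s 3‖ ^ 2 + ‖s 5‖ ^ 2 + ‖s 7‖ ^ 2) + 100 * (‖s (-3)‖ ^ 2 + ‖s (-5)‖ ^ 2)) := by
  have hB := norm_nonneg B
  have h1 : ‖L2 A B s‖ ≤ ∑ i, (![3 / 8 * A, 3 / 4 * A, 9 / 16 * ‖B‖, 9 / 80 * ‖B‖, 3 / 40 * A, 3 / 4 * A, 9 / 16 * ‖B‖] : Fin 7 → ℝ) i *
      (![2 * ‖s 5‖, ‖s (-1)‖, 2 * ‖s 7‖, 10 * ‖s (-3)‖, 10 * ‖s (-5)‖, 2 * ‖s 1‖, 2 * ‖s 3‖] : Fin 7 → ℝ) i := by
    simp only [Fin.sum_univ_succ, Fin.sum_univ_zero, Matrix.cons_val_zero, Matrix.cons_val_succ, add_zero]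
    have := L2_sum hA (B := B) s
    linarith
  have h2 := pow_le_pow_left₀ (norm_nonneg _) h1 2
  refine h2.trans (cs7.trans ?_)
  simp only [Fin.sum_univ_succ, Fin.sum_univ_zero, Matrix.cons_val_zero, Matrix.cons_val_succ, add_zero]
  set b := ‖B‖
  have hc : (3 / 8 * A) ^ 2 + ((3 / 4 * A) ^ 2 + ((9 / 16 * b) ^ 2 + ((9 / 80 * b) ^ 2 + ((3 / 40 * A) ^ 2 + ((3 / 4 * A) ^ 2 + (9 / 16 * b) ^ 2)))))
      ≤ 89 / 10000 := by
    have h3 : (A + 8 / 5 * b) ^ 2 ≤ (1 / 12) ^ 2 := pow_le_pow_left₀ (by positivity) hZ 2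
    nlinarith [mul_nonneg hA hB, sq_nonneg b]
  have hs : 0 ≤ (2 * ‖s 5‖) ^ 2 + (‖s (-1)‖ ^ 2 + ((2 * ‖s 7‖) ^ 2 + ((10 * ‖s (-3)‖) ^ 2 + ((10 * ‖s (-5)‖) ^ 2 + ((2 * ‖s 1‖) ^ 2 + (2 * ‖s 3‖) ^ 2))))) := by
    positivity
  refine (mul_le_mul_of_nonneg_right hc hs).trans (le_of_eq (by ring))

/-- the terms of the main part of the row 2 -/
theorem m2_eq (A : ℝ) (B : ℂ) (β ρ : ℝ → ℂ) (t : ℝ) : ee (-(((2 : ℤ) : ℝ) * t)) * m2 (z0I A B t) (β t) (ρ t) =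
    7 / 2 * Tn (fun t => ((β t).re : ℂ)) 2 t + (-(37 / 8 * Complex.I) * Tn (fun t => ((β t).im : ℂ)) 2 t
      + (-(3 / 4 * A) * Tn ρ 5 t + (3 / 4 * A * Tn ρ (-1) t + (-(9 / 8 * B) * Tn ρ 7 t
      + (9 / 8 * (starRingEnd ℂ) B * Tn ρ (-3) t + (3 / 4 * A * Tn (fun t => (starRingEnd ℂ) (ρ t)) 5 t
      + (3 / 2 * A * Tn (fun t => (starRingEnd ℂ) (ρ t)) (-1) t
      + 9 / 8 * (starRingEnd ℂ) B * Tn (fun t => (starRingEnd ℂ) (ρ t)) (-3) t))))))) := by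
  have hz : z0I A B t = A * ee (-3 * t) + B * ee (-5 * t) - 1 / 2 * ((starRingEnd ℂ) B * ee (5 * t)) := by
    unfold z0I
    exact zB_eq _ _ _
  have hc := z_conj A B t
  unfold m2 Tn
  rw [hc, hz]
  have a1 : ee (-(((5 : ℤ) : ℝ) * t)) = ee (-(((2 : ℤ) : ℝ) * t)) * ee (-3 * t) := by rw [← ee_add]; congr 1; push_cast; ring
  have a2 : ee (-(((-1 : ℤ) : ℝ) * t)) = ee (-(((2 : ℤ) : ℝ) * t)) * ee (3 * t) := by rw [← ee_add]; congr 1; push_cast; ring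
  have a3 : ee (-(((7 : ℤ) : ℝ) * t)) = ee (-(((2 : ℤ) : ℝ) * t)) * ee (-5 * t) := by rw [← ee_add]; congr 1; push_cast; ring
  have a4 : ee (-(((-3 : ℤ) : ℝ) * t)) = ee (-(((2 : ℤ) : ℝ) * t)) * ee (5 * t) := by rw [← ee_add]; congr 1; push_cast; ring
  rw [a1, a2, a3, a4]
  ring

theorem BMre {f : ℝ → ℂ} {C : ℝ} (h : BM f C) : BM (fun t => ((f t).re : ℂ)) C := reC_BM h
theorem BMim {f : ℝ → ℂ} {C : ℝ} (h : BM f C) : BM (fun t => ((f t).im : ℂ)) C := imC_BM h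

/-- the average of the main part -/
theorem m2_av (hb : BM β C) (hρ : BM ρ D) :
    (∃ E, BM (fun t => ee (-(((2 : ℤ) : ℝ) * t)) * m2 (z0I A B t) (β t) (ρ t)) E) ∧
    av (fun t => ee (-(((2 : ℤ) : ℝ) * t)) * m2 (z0I A B t) (β t) (ρ t)) =
      7 / 2 * fc (fun t => ((β t).re : ℂ)) 2 - 37 / 8 * Complex.I * fc (fun t => ((β t).im : ℂ)) 2 + L2 A B (fc ρ) := by
  have e := funext (m2_eq A B β ρ)
  rw [e]
  have k1 := (Tn_BM (BMre hb) 2).cmul (7 / 2)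
  have k2 := (Tn_BM (BMim hb) 2).cmul (-(37 / 8 * Complex.I))
  have k3 := (Tn_BM hρ 5).cmul (-(3 / 4 * A))
  have k4 := (Tn_BM hρ (-1)).cmul (3 / 4 * A)
  have k5 := (Tn_BM hρ 7).cmul (-(9 / 8 * B))
  have k6 := (Tn_BM hρ (-3)).cmul (9 / 8 * (starRingEnd ℂ) B)
  have k7 := (Tn_BM hρ.conj 5).cmul (3 / 4 * A)
  have k8 := (Tn_BM hρ.conj (-1)).cmul (3 / 2 * A)
  have k9 := (Tn_BM hρ.conj (-3)).cmul (9 / 8 * (starRingEnd ℂ) B)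
  refine ⟨⟨_, k1.add (k2.add (k3.add (k4.add (k5.add (k6.add (k7.add (k8.add k9)))))))⟩, ?_⟩
  rw [av_add k1 (k2.add (k3.add (k4.add (k5.add (k6.add (k7.add (k8.add k9))))))),
    av_add k2 (k3.add (k4.add (k5.add (k6.add (k7.add (k8.add k9)))))),
    av_add k3 (k4.add (k5.add (k6.add (k7.add (k8.add k9))))), av_add k4 (k5.add (k6.add (k7.add (k8.add k9)))),
    av_add k5 (k6.add (k7.add (k8.add k9))), av_add k6 (k7.add (k8.add k9)), av_add k7 (k8.add k9), av_add k8 k9]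
  simp only [av_cmul, av_Tn, fc_conj, neg_neg]
  unfold L2
  ring

theorem z0_pi (A : ℝ) (B : ℂ) (t : ℝ) : z0I A B (t + Real.pi) = -z0I A B t := zB_pi _ _ _

theorem ee2_pi (t : ℝ) : ee (-(((2 : ℤ) : ℝ) * (t + Real.pi))) = ee (-(((2 : ℤ) : ℝ) * t)) := by
  have e : -(((2 : ℤ) : ℝ) * (t + Real.pi)) + 2 * Real.pi = -(((2 : ℤ) : ℝ) * t) := by push_cast; ring
  rw [← e, ee_per]

/-- the row 2: linear part and error -/
theorem row2_core (hr : (PI c A B).Reg) (hA : 0 ≤ A) (hZ : A + 8 / 5 * ‖B‖ ≤ 1 / 12) (hb : BM β C) (hρ : BM ρ D)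
    (pb : ∀ t, β (t + Real.pi) = β t) (pr : ∀ t, ρ (t + Real.pi) = -ρ t) :
    ∃ X : ℂ, Pool.Agent.Helper43.SH.eR (PI c A B) β ρ 0 - (7 / 2 * fc (fun t => ((β t).re : ℂ)) 2
      - 37 / 8 * Complex.I * fc (fun t => ((β t).im : ℂ)) 2) = L2 A B (fc ρ) + X ∧
      ‖X‖ ^ 2 ≤ 1103 / 1000000 * mean (fun t => ‖ρ t‖ ^ 2) + 13269 / 1000000 * mean (fun t => ‖β t‖ ^ 2) := by
  have hp2 : ∀ t, β (t + 2 * Real.pi) = β t := fun t => by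
    rw [show t + 2 * Real.pi = t + Real.pi + Real.pi by ring, pb, pb]
  have hq2 : ∀ t, ρ (t + 2 * Real.pi) = ρ t := fun t => by
    rw [show t + 2 * Real.pi = t + Real.pi + Real.pi by ring, pr, pr, neg_neg]
  have hl : lk 0 = ((2 : ℤ) : ℝ) := by unfold lk; push_cast; norm_num
  have h1 : Pool.Agent.Helper43.SH.eR (PI c A B) β ρ 0 = av fun t => ee (-(((2 : ℤ) : ℝ) * t)) * d2 (z0I A B t) (β t) (ρ t) := by
    unfold Pool.Agent.Helper43.SH.eR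
    rw [hl, eM_rest hr hb hρ hp2 hq2 2]
    exact av_congr fun t => by rw [dens2 hA hZ]
  set F : ℝ → ℂ := fun t => ee (-(((2 : ℤ) : ℝ) * t)) * d2 (z0I A B t) (β t) (ρ t) with hF
  have hFB : ∃ E, BM F E := by
    obtain ⟨E1, k1⟩ := g1L_BM hb hρ
    obtain ⟨E2, k2⟩ := g2L_BM hb hρ
    obtain ⟨E3, k3⟩ := eF_BM (l := ((2 : ℤ) : ℝ)) k1 (a := fun t => (PI c A B).ph1 (t + Real.pi / 3) - t)
      ((hr.mph1.comp (measurable_id.add_const _)).sub measurable_id)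
    obtain ⟨E4, k4⟩ := eF_BM (l := ((2 : ℤ) : ℝ)) k2 (a := fun t => (PI c A B).ph2 (t + 2 * Real.pi / 3) - t)
      ((hr.mph2.comp (measurable_id.add_const _)).sub measurable_id)
    have k5 := (eeBM ((2 : ℤ) : ℝ)).mul (k3.add k4)
    have e : F = fun t => ee (-(((2 : ℤ) : ℝ) * t)) * (eF ((2 : ℤ) : ℝ) (g1L (β t) (ρ t)) ((PI c A B).ph1 (t + Real.pi / 3) - t)
      + eF ((2 : ℤ) : ℝ) (g2L (β t) (ρ t)) ((PI c A B).ph2 (t + 2 * Real.pi / 3) - t)) := by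
      funext t
      rw [hF, dens2 hA hZ]
    rw [e]
    exact ⟨_, k5⟩
  obtain ⟨E, hE⟩ := hFB
  have hFp : ∀ t, F (t + Real.pi) = ee (-(((2 : ℤ) : ℝ) * t)) * d2 (-z0I A B t) (β t) (-ρ t) := by
    intro t
    rw [hF]
    show ee (-(((2 : ℤ) : ℝ) * (t + Real.pi))) * d2 (z0I A B (t + Real.pi)) (β (t + Real.pi)) (ρ (t + Real.pi)) = _
    rw [ee2_pi, z0_pi, pb, pr]
  have hF2 : ∀ t, F (t + 2 * Real.pi) = F t := by
    intro t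
    rw [show t + 2 * Real.pi = t + Real.pi + Real.pi by ring, hFp, z0_pi, pb, pr, neg_neg, neg_neg, ee2_pi]
  rw [h1, av_sym hE hF2]
  obtain ⟨⟨G, hG⟩, hav⟩ := m2_av (A := A) (B := B) hb hρ
  set M : ℝ → ℂ := fun t => ee (-(((2 : ℤ) : ℝ) * t)) * m2 (z0I A B t) (β t) (ρ t) with hM
  have hS : BM (fun t => (F t + F (t + Real.pi)) / 2) (‖(1 / 2 : ℂ)‖ * (E + E)) := by
    have k : BM (fun t => F (t + Real.pi)) E := ⟨hE.m.comp (measurable_id.add_const _), fun t => hE.b _⟩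
    have := (hE.add k).cmul (1 / 2)
    have e : (fun t => (F t + F (t + Real.pi)) / 2) = fun t => (1 / 2 : ℂ) * (F t + F (t + Real.pi)) := by
      funext t; ring
    rw [e]
    exact this
  have hdif : av (fun t => (F t + F (t + Real.pi)) / 2) = av M + av (fun t => (F t + F (t + Real.pi)) / 2 - M t) := by
    rw [← av_add hG (hS.sub hG)]
    exact av_congr fun t => by ring
  rw [hdif, hav]
  have hJ := av_sq (hS.sub hG)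
  have hpt : ∀ t, ‖(F t + F (t + Real.pi)) / 2 - M t‖ ^ 2 ≤ 1103 / 1000000 * ‖ρ t‖ ^ 2 + 13269 / 1000000 * ‖β t‖ ^ 2 := by
    intro t
    have e : (F t + F (t + Real.pi)) / 2 - M t = ee (-(((2 : ℤ) : ℝ) * t)) *
        ((d2 (z0I A B t) (β t) (ρ t) + d2 (-z0I A B t) (β t) (-ρ t)) / 2 - m2 (z0I A B t) (β t) (ρ t)) := by
      rw [hFp, hF, hM]
      ring
    rw [e, norm_mul, norm_ee, one_mul]
    exact err2 (z0_small hA hZ t)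
  have hmn := mean_mono (BR.nrm (hS.sub hG)).sq ((((BR.nrm hρ).sq).cmul (1103 / 1000000)).add
    (((BR.nrm hb).sq).cmul (13269 / 1000000))) hpt
  rw [mean_add (((BR.nrm hρ).sq).cmul _) (((BR.nrm hb).sq).cmul _), mean_cmul, mean_cmul] at hmn
  refine ⟨av (fun t => (F t + F (t + Real.pi)) / 2 - M t), by ring, hJ.trans hmn⟩

/-- THE ROW 2 -/
theorem row2 (hr : (PI c A B).Reg) (hA : 0 ≤ A) (hZ : A + 8 / 5 * ‖B‖ ≤ 1 / 12) (hb : BM β C) (hρ : BM ρ D)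
    (pb : ∀ t, β (t + Real.pi) = β t) (pr : ∀ t, ρ (t + Real.pi) = -ρ t) :
    1 / 12 * ‖Pool.Agent.Helper43.SH.eR (PI c A B) β ρ 0 - (7 / 2 * fc (fun t => ((β t).re : ℂ)) 2
      - 37 / 8 * Complex.I * fc (fun t => ((β t).im : ℂ)) 2)‖ ^ 2 ≤
    1 / 200 * (‖fc ρ 1‖ ^ 2 + ‖fc ρ (-1)‖ ^ 2 + ‖fc ρ 3‖ ^ 2 + ‖fc ρ (-3)‖ ^ 2 + ‖fc ρ 5‖ ^ 2 + ‖fc ρ (-5)‖ ^ 2 + ‖fc ρ 7‖ ^ 2)
      + 1 / 5000 * mean (fun t => ‖ρ t‖ ^ 2) + 1 / 400 * mean (fun t => ‖β t‖ ^ 2) := by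
  obtain ⟨X, e4, hX⟩ := row2_core hr hA hZ hb hρ pb pr
  have hlin := L2_le hA hZ (fc ρ)
  rw [e4]
  have h5 : ‖L2 A B (fc ρ) + X‖ ^ 2 ≤ 2 * ‖L2 A B (fc ρ)‖ ^ 2 + 2 * ‖X‖ ^ 2 := by
    have := norm_add_le (L2 A B (fc ρ)) X
    have h6 := pow_le_pow_left₀ (norm_nonneg _) this 2
    nlinarith [sq_nonneg (‖L2 A B (fc ρ)‖ - ‖X‖)]
  have h7 : 0 ≤ mean (fun t => ‖ρ t‖ ^ 2) := mean_nonneg fun t => by positivity
  have h8 : 0 ≤ mean (fun t => ‖β t‖ ^ 2) := mean_nonneg fun t => by positivity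
  have h9 : 0 ≤ ‖fc ρ 1‖ ^ 2 + ‖fc ρ (-1)‖ ^ 2 + ‖fc ρ 3‖ ^ 2 + ‖fc ρ (-3)‖ ^ 2 + ‖fc ρ 5‖ ^ 2 + ‖fc ρ (-5)‖ ^ 2 + ‖fc ρ 7‖ ^ 2 := by
    positivity
  linarith

/-- the row 2, other weights -/
theorem row2b (hr : (PI c A B).Reg) (hA : 0 ≤ A) (hZ : A + 8 / 5 * ‖B‖ ≤ 1 / 12) (hb : BM β C) (hρ : BM ρ D)
    (pb : ∀ t, β (t + Real.pi) = β t) (pr : ∀ t, ρ (t + Real.pi) = -ρ t) :
    1 / 12 * ‖Pool.Agent.Helper43.SH.eR (PI c A B) β ρ 0 - (7 / 2 * fc (fun t => ((β t).re : ℂ)) 2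
      - 37 / 8 * Complex.I * fc (fun t => ((β t).im : ℂ)) 2)‖ ^ 2 ≤
    1 / 220 * ‖fc ρ (-1)‖ ^ 2 + 1 / 56 * (‖fc ρ 1‖ ^ 2 + ‖fc ρ 3‖ ^ 2 + ‖fc ρ 5‖ ^ 2 + ‖fc ρ 7‖ ^ 2)
      + 1 / 2 * (‖fc ρ (-3)‖ ^ 2 + ‖fc ρ (-5)‖ ^ 2)
      + 1 / 9000 * mean (fun t => ‖ρ t‖ ^ 2) + 1 / 750 * mean (fun t => ‖β t‖ ^ 2) := by
  obtain ⟨X, e4, hX⟩ := row2_core hr hA hZ hb hρ pb pr
  have hlin := L2_leb hA hZ (fc ρ)
  rw [e4]
  have h5 : ‖L2 A B (fc ρ) + X‖ ^ 2 ≤ 6 * ‖L2 A B (fc ρ)‖ ^ 2 + 6 / 5 * ‖X‖ ^ 2 := by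
    have := norm_add_le (L2 A B (fc ρ)) X
    have h6 := pow_le_pow_left₀ (norm_nonneg _) this 2
    nlinarith [sq_nonneg (5 * ‖L2 A B (fc ρ)‖ - ‖X‖)]
  have h7 : 0 ≤ mean (fun t => ‖ρ t‖ ^ 2) := mean_nonneg fun t => by positivity
  have h8 : 0 ≤ mean (fun t => ‖β t‖ ^ 2) := mean_nonneg fun t => by positivity
  have a1 : 0 ≤ ‖fc ρ (-1)‖ ^ 2 := by positivity
  have a2 : 0 ≤ ‖fc ρ 1‖ ^ 2 := by positivity
  have a3 : 0 ≤ ‖fc ρ 3‖ ^ 2 := by positivity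
  have a4 : 0 ≤ ‖fc ρ 5‖ ^ 2 := by positivity
  have a5 : 0 ≤ ‖fc ρ 7‖ ^ 2 := by positivity
  have a6 : 0 ≤ ‖fc ρ (-3)‖ ^ 2 := by positivity
  have a7 : 0 ≤ ‖fc ρ (-5)‖ ^ 2 := by positivity
  linarith

/-! ### the row 0 -/

/-- the complex main part of the row 0 without the `β` term -/
noncomputable def G0 (A : ℝ) (B : ℂ) (ρ : ℝ → ℂ) (t : ℝ) : ℂ :=
  1 / 2 * (ρ t * (z0I A B t + 2 * (starRingEnd ℂ) (z0I A B t)))

theorem G0_eq (A : ℝ) (B : ℂ) (ρ : ℝ → ℂ) (t : ℝ) : G0 A B ρ t =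
    1 / 2 * A * Tn ρ 3 t + (A * Tn ρ (-3) t + 3 / 4 * (starRingEnd ℂ) B * Tn ρ (-5) t) := by
  have hz : z0I A B t = A * ee (-3 * t) + B * ee (-5 * t) - 1 / 2 * ((starRingEnd ℂ) B * ee (5 * t)) := by
    unfold z0I
    exact zB_eq _ _ _
  have hc := z_conj A B t
  unfold G0 Tn
  rw [hc, hz]
  have a1 : ee (-(((3 : ℤ) : ℝ) * t)) = ee (-3 * t) := by congr 1; push_cast; ring
  have a2 : ee (-(((-3 : ℤ) : ℝ) * t)) = ee (3 * t) := by congr 1; push_cast; ring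
  have a3 : ee (-(((-5 : ℤ) : ℝ) * t)) = ee (5 * t) := by congr 1; push_cast; ring
  rw [a1, a2, a3]
  ring

theorem G0_BM (hρ : BM ρ D) : ∃ E, BM (G0 A B ρ) E := by
  rw [funext (G0_eq A B ρ)]
  exact ⟨_, ((Tn_BM hρ 3).cmul (1 / 2 * A)).add (((Tn_BM hρ (-3)).cmul A).add ((Tn_BM hρ (-5)).cmul (3 / 4 * (starRingEnd ℂ) B)))⟩

theorem G0_av (hρ : BM ρ D) : av (G0 A B ρ) =
    1 / 2 * A * fc ρ 3 + (A * fc ρ (-3) + 3 / 4 * (starRingEnd ℂ) B * fc ρ (-5)) := by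
  rw [funext (G0_eq A B ρ)]
  rw [av_add ((Tn_BM hρ 3).cmul (1 / 2 * A)) (((Tn_BM hρ (-3)).cmul A).add ((Tn_BM hρ (-5)).cmul (3 / 4 * (starRingEnd ℂ) B))),
    av_add ((Tn_BM hρ (-3)).cmul A) ((Tn_BM hρ (-5)).cmul (3 / 4 * (starRingEnd ℂ) B))]
  simp only [av_cmul, av_Tn]

theorem av_conj {f : ℝ → ℂ} : av (fun t => (starRingEnd ℂ) (f t)) = (starRingEnd ℂ) (av f) := by
  have h := fc_conj f 0
  have e : ∀ g : ℝ → ℂ, fc g 0 = av g := by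
    intro g
    rw [fc_av]
    exact av_congr fun t => by simp [ee_zero]
  rw [neg_zero, e, e] at h
  exact h

theorem hR_av (hb : BM β C) : hR β = (av fun t => ((β t).re : ℂ)).re := by
  unfold hR
  have e : fc (dl β) 0 = (av fun t => ((β t).re : ℂ)) + Complex.I / 2 * av fun t => ((β t).im : ℂ) := by
    rw [fc_av, ← av_cmul, ← av_add (BMre hb) ((BMim hb).cmul (Complex.I / 2))]
    refine av_congr fun t => ?_
    have : -(((0 : ℤ) : ℝ) * t) = 0 := by push_cast; ring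
    rw [this, ee_zero, mul_one]
    unfold dl
    push_cast
    ring
  have h := av_conj (f := fun t => ((β t).im : ℂ))
  have h2 : (fun t => (starRingEnd ℂ) ((β t).im : ℂ)) = fun t => ((β t).im : ℂ) := by
    funext t; exact Complex.conj_ofReal _
  rw [h2] at h
  obtain ⟨r, hr⟩ := Complex.conj_eq_iff_real.1 h.symm
  rw [e, hr, Complex.add_re]
  have : (Complex.I / 2 * (r : ℂ)).re = 0 := by
    have : Complex.I / 2 * (r : ℂ) = ((r / 2 : ℝ) : ℂ) * Complex.I := by push_cast; ring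
    rw [this]
    simp
  rw [this, add_zero]

theorem G0_le (hA : 0 ≤ A) (hZ : A + 8 / 5 * ‖B‖ ≤ 1 / 12) (s : ℤ → ℂ) :
    ‖1 / 2 * (A : ℂ) * s 3 + (A * s (-3) + 3 / 4 * (starRingEnd ℂ) B * s (-5))‖ ^ 2 ≤
    2431 / 1000000 * (‖s 3‖ ^ 2 + 10 * (‖s (-3)‖ ^ 2 + ‖s (-5)‖ ^ 2)) := by
  have hB := norm_nonneg B
  have nA : ‖(A : ℂ)‖ = A := by rw [Complex.norm_real, Real.norm_eq_abs, abs_of_nonneg hA]
  have q1 : ‖(1 / 2 : ℂ)‖ = 1 / 2 := by norm_num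
  have q2 : ‖(3 / 4 : ℂ)‖ = 3 / 4 := by norm_num
  have t1 : ‖1 / 2 * (A : ℂ) * s 3‖ = 1 / 2 * A * ‖s 3‖ := by rw [norm_mul, norm_mul, q1, nA]
  have t2 : ‖(A : ℂ) * s (-3)‖ = A * ‖s (-3)‖ := by rw [norm_mul, nA]
  have t3 : ‖3 / 4 * (starRingEnd ℂ) B * s (-5)‖ = 3 / 4 * ‖B‖ * ‖s (-5)‖ := by
    rw [norm_mul, norm_mul, q2, Complex.norm_conj]
  have h1 : ‖1 / 2 * (A : ℂ) * s 3 + (A * s (-3) + 3 / 4 * (starRingEnd ℂ) B * s (-5))‖ ≤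
      1 / 2 * A * ‖s 3‖ + A * ‖s (-3)‖ + 3 / 4 * ‖B‖ * ‖s (-5)‖ := by
    have u1 := norm_add_le (1 / 2 * (A : ℂ) * s 3) (A * s (-3) + 3 / 4 * (starRingEnd ℂ) B * s (-5))
    have u2 := norm_add_le ((A : ℂ) * s (-3)) (3 / 4 * (starRingEnd ℂ) B * s (-5))
    linarith
  have h2 := pow_le_pow_left₀ (norm_nonneg _) h1 2
  refine h2.trans ?_
  set b := ‖B‖
  set x := ‖s 3‖
  set y := ‖s (-3)‖
  set w := ‖s (-5)‖
  have hx : 0 ≤ x := norm_nonneg _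
  have hy : 0 ≤ y := norm_nonneg _
  have hw : 0 ≤ w := norm_nonneg _
  have hA1 : A ≤ 1 / 12 - 8 / 5 * b := by linarith
  have hcs : (1 / 2 * A * x + A * y + 3 / 4 * b * w) ^ 2 ≤
      (1 / 4 * A ^ 2 + (A ^ 2 + 9 / 16 * b ^ 2) / 10) * (x ^ 2 + 10 * (y ^ 2 + w ^ 2)) := by
    have i1 := sq_nonneg (1 / 2 * A * (10 * y) - A * x)
    have i2 := sq_nonneg (1 / 2 * A * (10 * w) - 3 / 4 * b * x)
    have i3 := sq_nonneg (A * w - 3 / 4 * b * y)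
    nlinarith
  refine hcs.trans (mul_le_mul_of_nonneg_right ?_ (by positivity))
  have h3 : (A + 8 / 5 * b) ^ 2 ≤ (1 / 12) ^ 2 := pow_le_pow_left₀ (by positivity) hZ 2
  nlinarith [mul_nonneg hA hB, sq_nonneg b]

/-- the row 0: linear part and error -/
theorem row0_core (hr : (PI c A B).Reg) (hA : 0 ≤ A) (hZ : A + 8 / 5 * ‖B‖ ≤ 1 / 12) (hb : BM β C) (hρ : BM ρ D)
    (pb : ∀ t, β (t + Real.pi) = β t) (pr : ∀ t, ρ (t + Real.pi) = -ρ t) :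
    ∃ x : ℝ, e0R (PI c A B) β ρ + hR β = (av (G0 A B ρ)).re + x ∧
      x ^ 2 ≤ 21530 / 1000000000 * mean (fun t => ‖ρ t‖ ^ 2) + 58588 / 100000000 * mean (fun t => ‖β t‖ ^ 2) := by
  have hp2 : ∀ t, β (t + 2 * Real.pi) = β t := fun t => by
    rw [show t + 2 * Real.pi = t + Real.pi + Real.pi by ring, pb, pb]
  have hq2 : ∀ t, ρ (t + 2 * Real.pi) = ρ t := fun t => by
    rw [show t + 2 * Real.pi = t + Real.pi + Real.pi by ring, pr, pr, neg_neg]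
  set F : ℝ → ℂ := fun t => ((d0 (z0I A B t) (β t) (ρ t)).re : ℂ) with hF
  have hFe : F = fun t => eF ((0 : ℤ) : ℝ) (g1L (β t) (ρ t)) ((PI c A B).ph1 (t + Real.pi / 3) - t)
      + eF ((0 : ℤ) : ℝ) (g2L (β t) (ρ t)) ((PI c A B).ph2 (t + 2 * Real.pi / 3) - t) := by
    funext t
    rw [hF, dens0 hA hZ]
  have h1 : e0R (PI c A B) β ρ = (av F).re := by
    unfold e0R
    have h := eM_rest hr hb hρ hp2 hq2 0
    have hz : (0 : ℝ) = ((0 : ℤ) : ℝ) := by norm_num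
    rw [hz, h, hFe]
    congr 2
    funext t
    have : -(((0 : ℤ) : ℝ) * t) = 0 := by push_cast; ring
    rw [this, ee_zero, one_mul]
  have hFB : ∃ E, BM F E := by
    obtain ⟨E1, k1⟩ := g1L_BM hb hρ
    obtain ⟨E2, k2⟩ := g2L_BM hb hρ
    obtain ⟨E3, k3⟩ := eF_BM (l := ((0 : ℤ) : ℝ)) k1 (a := fun t => (PI c A B).ph1 (t + Real.pi / 3) - t)
      ((hr.mph1.comp (measurable_id.add_const _)).sub measurable_id)
    obtain ⟨E4, k4⟩ := eF_BM (l := ((0 : ℤ) : ℝ)) k2 (a := fun t => (PI c A B).ph2 (t + 2 * Real.pi / 3) - t)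
      ((hr.mph2.comp (measurable_id.add_const _)).sub measurable_id)
    rw [hFe]
    exact ⟨_, k3.add k4⟩
  obtain ⟨E, hE⟩ := hFB
  have hFp : ∀ t, F (t + Real.pi) = ((d0 (-z0I A B t) (β t) (-ρ t)).re : ℂ) := by
    intro t
    rw [hF]
    show ((d0 (z0I A B (t + Real.pi)) (β (t + Real.pi)) (ρ (t + Real.pi))).re : ℂ) = _
    rw [z0_pi, pb, pr]
  have hF2 : ∀ t, F (t + 2 * Real.pi) = F t := by
    intro t
    rw [show t + 2 * Real.pi = t + Real.pi + Real.pi by ring, hFp, z0_pi, pb, pr, neg_neg, neg_neg]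
  rw [h1, av_sym hE hF2]
  obtain ⟨G, hG⟩ := G0_BM (A := A) (B := B) hρ
  set M : ℝ → ℂ := fun t => (-1 : ℂ) * ((β t).re : ℂ) + (1 / 2 : ℂ) * (G0 A B ρ t + (starRingEnd ℂ) (G0 A B ρ t)) with hM
  have kM : BM M (‖(-1 : ℂ)‖ * C + ‖(1 / 2 : ℂ)‖ * (G + G)) := ((BMre hb).cmul (-1)).add ((hG.add hG.conj).cmul (1 / 2))
  have hMav : av M = -(av fun t => ((β t).re : ℂ)) + (1 / 2 : ℂ) * (av (G0 A B ρ) + (starRingEnd ℂ) (av (G0 A B ρ))) := by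
    rw [hM, av_add ((BMre hb).cmul (-1)) ((hG.add hG.conj).cmul (1 / 2)), av_cmul, av_cmul, av_add hG hG.conj, av_conj]
    ring
  have hMre : (av M).re = -hR β + (av (G0 A B ρ)).re := by
    rw [hMav, Complex.add_re, Complex.neg_re, hR_av hb]
    have e : ((1 / 2 : ℂ) * (av (G0 A B ρ) + (starRingEnd ℂ) (av (G0 A B ρ)))).re = (av (G0 A B ρ)).re := by
      rw [Complex.add_conj]
      have : (1 / 2 : ℂ) * ((2 * (av (G0 A B ρ)).re : ℝ) : ℂ) = (((av (G0 A B ρ)).re : ℝ) : ℂ) := by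
        push_cast; ring
      rw [this, Complex.ofReal_re]
    rw [e]
  have hMm : ∀ t, M t = ((m0 (z0I A B t) (β t) (ρ t) : ℝ) : ℂ) := by
    intro t
    rw [hM]
    unfold m0
    have : G0 A B ρ t = 1 / 2 * (ρ t * (z0I A B t + 2 * (starRingEnd ℂ) (z0I A B t))) := rfl
    simp only []
    rw [this, Complex.add_conj]
    push_cast
    ring
  have hS : BM (fun t => (F t + F (t + Real.pi)) / 2) (‖(1 / 2 : ℂ)‖ * (E + E)) := by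
    have k : BM (fun t => F (t + Real.pi)) E := ⟨hE.m.comp (measurable_id.add_const _), fun t => hE.b _⟩
    have := (hE.add k).cmul (1 / 2)
    have e : (fun t => (F t + F (t + Real.pi)) / 2) = fun t => (1 / 2 : ℂ) * (F t + F (t + Real.pi)) := by
      funext t; ring
    rw [e]
    exact this
  have hdif : av (fun t => (F t + F (t + Real.pi)) / 2) = av M + av (fun t => (F t + F (t + Real.pi)) / 2 - M t) := by
    rw [← av_add kM (hS.sub kM)]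
    exact av_congr fun t => by ring
  rw [hdif, Complex.add_re, hMre]
  have hJ := av_sq (hS.sub kM)
  have hpt : ∀ t, ‖(F t + F (t + Real.pi)) / 2 - M t‖ ^ 2 ≤ 21530 / 1000000000 * ‖ρ t‖ ^ 2 + 58588 / 100000000 * ‖β t‖ ^ 2 := by
    intro t
    have e : (F t + F (t + Real.pi)) / 2 - M t = ((((d0 (z0I A B t) (β t) (ρ t) + d0 (-z0I A B t) (β t) (-ρ t)) / 2).re
        - m0 (z0I A B t) (β t) (ρ t) : ℝ) : ℂ) := by
      rw [hFp, hMm, hF]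
      have : ((d0 (z0I A B t) (β t) (ρ t) + d0 (-z0I A B t) (β t) (-ρ t)) / 2).re =
          ((d0 (z0I A B t) (β t) (ρ t)).re + (d0 (-z0I A B t) (β t) (-ρ t)).re) / 2 := by
        rw [Complex.div_ofNat_re, Complex.add_re]
      rw [this]
      push_cast
      ring
    rw [e, Complex.norm_real, Real.norm_eq_abs]
    exact err0 (z0_small hA hZ t)
  have hmn := mean_mono (BR.nrm (hS.sub kM)).sq ((((BR.nrm hρ).sq).cmul (21530 / 1000000000)).add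
    (((BR.nrm hb).sq).cmul (58588 / 100000000))) hpt
  rw [mean_add (((BR.nrm hρ).sq).cmul _) (((BR.nrm hb).sq).cmul _), mean_cmul, mean_cmul] at hmn
  set X := av (fun t => (F t + F (t + Real.pi)) / 2 - M t) with hX
  have x1 : X.re ^ 2 ≤ ‖X‖ ^ 2 := by rw [nsq]; nlinarith [sq_nonneg X.im]
  exact ⟨X.re, by ring, x1.trans (hJ.trans hmn)⟩

theorem re_sq_le (Y : ℂ) : Y.re ^ 2 ≤ ‖Y‖ ^ 2 := by rw [nsq]; nlinarith [sq_nonneg Y.im]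

/-- THE ROW 0 -/
theorem row0 (hr : (PI c A B).Reg) (hA : 0 ≤ A) (hZ : A + 8 / 5 * ‖B‖ ≤ 1 / 12) (hb : BM β C) (hρ : BM ρ D)
    (pb : ∀ t, β (t + Real.pi) = β t) (pr : ∀ t, ρ (t + Real.pi) = -ρ t) :
    -(2 / 5 * hR β ^ 2) - 1 / 100 * ‖fc ρ 3‖ ^ 2 - 1 / 10 * (‖fc ρ (-3)‖ ^ 2 + ‖fc ρ (-5)‖ ^ 2)
      - 3 / 10000 * mean (fun t => ‖ρ t‖ ^ 2) - 3 / 400 * mean (fun t => ‖β t‖ ^ 2) ≤
    2 * hR β * (e0R (PI c A B) β ρ + hR β) := by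
  obtain ⟨x, e4, hx⟩ := row0_core hr hA hZ hb hρ pb pr
  have hlin := G0_le hA hZ (fc ρ)
  rw [← G0_av hρ] at hlin
  rw [e4]
  set y := (av (G0 A B ρ)).re
  have y1 : y ^ 2 ≤ ‖av (G0 A B ρ)‖ ^ 2 := re_sq_le _
  have h7 : 0 ≤ mean (fun t => ‖ρ t‖ ^ 2) := mean_nonneg fun t => by positivity
  have h8 : 0 ≤ mean (fun t => ‖β t‖ ^ 2) := mean_nonneg fun t => by positivity
  set p := hR β
  have z1 : 0 ≤ ‖fc ρ 3‖ ^ 2 := by positivity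
  have z2 : 0 ≤ ‖fc ρ (-3)‖ ^ 2 := by positivity
  have z3 : 0 ≤ ‖fc ρ (-5)‖ ^ 2 := by positivity
  have yo : -(2 / 5 * p ^ 2) - 5 / 2 * (y + x) ^ 2 ≤ 2 * p * (y + x) := by
    nlinarith [sq_nonneg (2 * p + 5 * (y + x))]
  have yo2 : (y + x) ^ 2 ≤ 5 / 4 * y ^ 2 + 5 * x ^ 2 := by
    nlinarith [sq_nonneg (y - 4 * x)]
  linarith

/-- the row 0, other weights -/
theorem row0b (hr : (PI c A B).Reg) (hA : 0 ≤ A) (hZ : A + 8 / 5 * ‖B‖ ≤ 1 / 12) (hb : BM β C) (hρ : BM ρ D)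
    (pb : ∀ t, β (t + Real.pi) = β t) (pr : ∀ t, ρ (t + Real.pi) = -ρ t) :
    -(4 / 5 * hR β ^ 2) - 1 / 65 * ‖fc ρ 3‖ ^ 2 - 1 / 6 * (‖fc ρ (-3)‖ ^ 2 + ‖fc ρ (-5)‖ ^ 2)
      - 1 / 25000 * mean (fun t => ‖ρ t‖ ^ 2) - 1 / 1000 * mean (fun t => ‖β t‖ ^ 2) ≤
    2 * hR β * (e0R (PI c A B) β ρ + hR β) := by
  obtain ⟨x, e4, hx⟩ := row0_core hr hA hZ hb hρ pb pr
  have hlin := G0_le hA hZ (fc ρ)
  rw [← G0_av hρ] at hlin
  rw [e4]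
  set y := (av (G0 A B ρ)).re
  have y1 : y ^ 2 ≤ ‖av (G0 A B ρ)‖ ^ 2 := re_sq_le _
  have h7 : 0 ≤ mean (fun t => ‖ρ t‖ ^ 2) := mean_nonneg fun t => by positivity
  have h8 : 0 ≤ mean (fun t => ‖β t‖ ^ 2) := mean_nonneg fun t => by positivity
  set p := hR β
  have z1 : 0 ≤ ‖fc ρ 3‖ ^ 2 := by positivity
  have z2 : 0 ≤ ‖fc ρ (-3)‖ ^ 2 := by positivity
  have z3 : 0 ≤ ‖fc ρ (-5)‖ ^ 2 := by positivity
  have yo : -(4 / 5 * p ^ 2) - 5 / 4 * (y + x) ^ 2 ≤ 2 * p * (y + x) := by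
    nlinarith [sq_nonneg (4 * p + 5 * (y + x))]
  have yo2 : (y + x) ^ 2 ≤ 5 * y ^ 2 + 5 / 4 * x ^ 2 := by
    nlinarith [sq_nonneg (4 * y - x)]
  linarith

end

end Helper41.RC.R02
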