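import Pool.Agent.Helper41.RC.M_R02
import Pool.Agent.Helper61.RC.QSt

/-!
# SHARP, zone I, (Q): `StC4` and `StC5`
-/

set_option autoImplicit false

open MeasureTheory Set Filter

namespace Helper41.RC.R02

open Helper49.LT hiding sg s3
open Helper49.Sharp
open Helper56.RC (fc)
open Helper87.RC (BM pars)
open Helper95.RC (Sup)
open Pool.Agent.Helper20.RC (lk)
open Pool.Agent.Helper43.SH
open Pool.Agent.Helper61.RC.QC

theorem fin_le (T S : Finset ℤ) (g : ℤ → ℝ) (h0 : ∀ n, 0 ≤ g n) (h : ∀ n, n ∉ S → g n = 0) :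
    ∑ n ∈ T, g n ≤ ∑ n ∈ S, g n := by
  have h1 : ∑ n ∈ T, g n = ∑ n ∈ T ∩ S, g n := by
    symm
    refine Finset.sum_subset Finset.inter_subset_left fun n hn hn2 => h n fun hs => hn2 (Finset.mem_inter.2 ⟨hn, hs⟩)
  rw [h1]
  exact Finset.sum_le_sum_of_subset_of_nonneg Finset.inter_subset_right fun n _ _ => h0 n

section

variable {β ρ : ℝ → ℂ} {M : ℕ} {p r s : ℤ → ℂ}

theorem mean_rho (R : Rest β ρ M p r s) : mean (fun t => ‖ρ t‖ ^ 2) = ∑ n ∈ Finset.Icc (-(M : ℤ)) M, ‖s n‖ ^ 2 := by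
  obtain ⟨C, hC⟩ := R.bmz
  have h := pars hC
  rw [R.hs] at h
  have h2 : HasSum (fun n : ℤ => ‖s n‖ ^ 2) (∑ n ∈ Finset.Icc (-(M : ℤ)) M, ‖s n‖ ^ 2) :=
    hasSum_sum_of_ne_finset_zero fun n hn => by rw [R.ss n hn]; simp
  exact h.unique h2

theorem mean_be (R : Rest β ρ M p r s) : mean (fun t => ‖β t‖ ^ 2) =
    (∑ n ∈ Finset.Icc (-(M : ℤ)) M, ‖p n‖ ^ 2) + ∑ n ∈ Finset.Icc (-(M : ℤ)) M, ‖r n‖ ^ 2 := by
  obtain ⟨C, hC⟩ := R.bmb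
  have e : (fun t => ‖β t‖ ^ 2) = fun t => (β t).re ^ 2 + (β t).im ^ 2 := by
    funext t
    exact nsq _
  rw [e, mean_add (BR.re hC).sq (BR.im hC).sq, R.re2, R.im2]

theorem FL_split (cz cp cr : ℤ → ℝ) (M : ℕ) (p r s : ℤ → ℂ) :
    FL cz (fun _ => 0) cp cr (fun _ => 0) M p r s =
      (∑ n ∈ Finset.Icc (-(M : ℤ)) M, cz n * ‖s n‖ ^ 2) + (∑ n ∈ Finset.Icc (-(M : ℤ)) M, cp n * ‖p n‖ ^ 2)
        + ∑ n ∈ Finset.Icc (-(M : ℤ)) M, cr n * ‖r n‖ ^ 2 := by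
  unfold FL
  rw [← Finset.sum_add_distrib, ← Finset.sum_add_distrib]
  exact Finset.sum_congr rfl fun n _ => by ring

/-- (C4) -/
theorem stC4 : StC4 := by
  intro A B β ρ M p r s hA hZ R
  obtain ⟨C, hb⟩ := R.bmb
  obtain ⟨D, hρ⟩ := R.bmz
  have h := row2 (reg_PZ (hZ12 hA hZ)) hA hZ hb hρ R.pb R.pz
  rw [R.hp, R.hr, R.hs, mean_rho R.toRest, mean_be R.toRest] at h
  refine (le_of_eq ?_).trans (h.trans ?_)
  · rfl
  rw [FL_split]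
  have e1 : ∑ n ∈ Finset.Icc (-(M : ℤ)) M, ((if |n| ≤ 7 then (1 / 200 : ℝ) else 0) + 1 / 5000) * ‖s n‖ ^ 2 =
      1 / 200 * (∑ n ∈ Finset.Icc (-(M : ℤ)) M, if |n| ≤ 7 then ‖s n‖ ^ 2 else 0)
        + 1 / 5000 * ∑ n ∈ Finset.Icc (-(M : ℤ)) M, ‖s n‖ ^ 2 := by
    rw [Finset.mul_sum, Finset.mul_sum, ← Finset.sum_add_distrib]
    refine Finset.sum_congr rfl fun n _ => ?_
    split_ifs <;> ring
  have h7 := fin_le {1, -1, 3, -3, 5, -5, 7} (Finset.Icc (-(M : ℤ)) M) (fun n => if |n| ≤ 7 then ‖s n‖ ^ 2 else 0)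
    (fun n => by positivity) (fun n hn => by rw [R.ss n hn]; simp)
  have e7 : ∑ n ∈ ({1, -1, 3, -3, 5, -5, 7} : Finset ℤ), (if |n| ≤ 7 then ‖s n‖ ^ 2 else 0) =
      ‖s 1‖ ^ 2 + (‖s (-1)‖ ^ 2 + (‖s 3‖ ^ 2 + (‖s (-3)‖ ^ 2 + (‖s 5‖ ^ 2 + (‖s (-5)‖ ^ 2 + ‖s 7‖ ^ 2))))) := by
    rw [Finset.sum_insert (by decide), Finset.sum_insert (by decide), Finset.sum_insert (by decide),
      Finset.sum_insert (by decide), Finset.sum_insert (by decide), Finset.sum_insert (by decide), Finset.sum_singleton]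
    rw [if_pos (by decide), if_pos (by decide), if_pos (by decide), if_pos (by decide), if_pos (by decide),
      if_pos (by decide), if_pos (by decide)]
  rw [e7] at h7
  rw [e1, ← Finset.mul_sum, ← Finset.mul_sum]
  have p0 : 0 ≤ ∑ n ∈ Finset.Icc (-(M : ℤ)) M, ‖p n‖ ^ 2 := Finset.sum_nonneg fun n _ => by positivity
  have r0 : 0 ≤ ∑ n ∈ Finset.Icc (-(M : ℤ)) M, ‖r n‖ ^ 2 := Finset.sum_nonneg fun n _ => by positivity
  linarith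

/-- (C5) -/
theorem stC5 : StC5 := by
  intro A B β ρ M p r s hA hZ R
  obtain ⟨C, hb⟩ := R.bmb
  obtain ⟨D, hρ⟩ := R.bmz
  have h := row0 (reg_PZ (hZ12 hA hZ)) hA hZ hb hρ R.pb R.pz
  have hp0 : ‖p 0‖ ^ 2 = (p 0).re ^ 2 := by
    rw [← R.p0_re, Complex.norm_real, Real.norm_eq_abs, sq_abs, Complex.ofReal_re]
  rw [R.hs, mean_rho R.toRest, mean_be R.toRest, R.hR_eq] at h
  refine le_trans (le_of_eq ?_) h
  rw [FL_split, ← Finset.mul_sum, ← Finset.mul_sum, ← Finset.mul_sum, hp0]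
  ring

/-- the weights of the low modes in `c4b` -/
noncomputable def wb (n : ℤ) : ℝ :=
  if n = -1 then 1 / 220 else if n = -3 ∨ n = -5 then 1 / 2 else if n = 1 ∨ n = 3 ∨ n = 5 ∨ n = 7 then 1 / 56 else 0

theorem wb_nonneg (n : ℤ) : 0 ≤ wb n := by
  unfold wb
  split_ifs <;> norm_num

/-- (C4), other weights -/
theorem c4b {A : ℝ} {B : ℂ} (hA : 0 ≤ A) (hZ : A + 8 / 5 * ‖B‖ ≤ 1 / 12) (R : RestC β ρ M p r s) :
    1 / 12 * ‖eR (PZ A B) β ρ 0 - (7 / 2 * p 2 - 37 / 8 * Complex.I * r 2)‖ ^ 2 ≤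
      FL (fun n => wb n + 1 / 9000) (fun _ => 0) (fun _ => 1 / 750) (fun _ => 1 / 750) (fun _ => 0) M p r s := by
  obtain ⟨C, hb⟩ := R.bmb
  obtain ⟨D, hρ⟩ := R.bmz
  have h := row2b (reg_PZ (hZ12 hA hZ)) hA hZ hb hρ R.pb R.pz
  rw [R.hp, R.hr, R.hs, mean_rho R.toRest, mean_be R.toRest] at h
  refine (le_of_eq ?_).trans (h.trans ?_)
  · rfl
  rw [FL_split]
  have e1 : ∑ n ∈ Finset.Icc (-(M : ℤ)) M, (wb n + 1 / 9000) * ‖s n‖ ^ 2 =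
      (∑ n ∈ Finset.Icc (-(M : ℤ)) M, wb n * ‖s n‖ ^ 2)
        + 1 / 9000 * ∑ n ∈ Finset.Icc (-(M : ℤ)) M, ‖s n‖ ^ 2 := by
    rw [Finset.mul_sum, ← Finset.sum_add_distrib]
    exact Finset.sum_congr rfl fun n _ => by ring
  have h7 := fin_le {1, -1, 3, -3, 5, -5, 7} (Finset.Icc (-(M : ℤ)) M) (fun n => wb n * ‖s n‖ ^ 2)
    (fun n => mul_nonneg (wb_nonneg n) (by positivity)) (fun n hn => by rw [R.ss n hn]; simp)
  have e7 : ∑ n ∈ ({1, -1, 3, -3, 5, -5, 7} : Finset ℤ), wb n * ‖s n‖ ^ 2 =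
      1 / 56 * ‖s 1‖ ^ 2 + (1 / 220 * ‖s (-1)‖ ^ 2 + (1 / 56 * ‖s 3‖ ^ 2 + (1 / 2 * ‖s (-3)‖ ^ 2
        + (1 / 56 * ‖s 5‖ ^ 2 + (1 / 2 * ‖s (-5)‖ ^ 2 + 1 / 56 * ‖s 7‖ ^ 2))))) := by
    rw [Finset.sum_insert (by decide), Finset.sum_insert (by decide), Finset.sum_insert (by decide),
      Finset.sum_insert (by decide), Finset.sum_insert (by decide), Finset.sum_insert (by decide), Finset.sum_singleton]
    unfold wb
    norm_num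
  rw [e7] at h7
  rw [e1, ← Finset.mul_sum, ← Finset.mul_sum]
  have p0 : 0 ≤ ∑ n ∈ Finset.Icc (-(M : ℤ)) M, ‖p n‖ ^ 2 := Finset.sum_nonneg fun n _ => by positivity
  have r0 : 0 ≤ ∑ n ∈ Finset.Icc (-(M : ℤ)) M, ‖r n‖ ^ 2 := Finset.sum_nonneg fun n _ => by positivity
  linarith

/-- (C5), other weights -/
theorem c5b {A : ℝ} {B : ℂ} (hA : 0 ≤ A) (hZ : A + 8 / 5 * ‖B‖ ≤ 1 / 12) (R : RestC β ρ M p r s) :
    -(4 / 5 * ‖p 0‖ ^ 2 + 1 / 65 * ‖s 3‖ ^ 2 + 1 / 6 * (‖s (-3)‖ ^ 2 + ‖s (-5)‖ ^ 2))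
      - FL (fun _ => 1 / 25000) (fun _ => 0) (fun _ => 1 / 1000) (fun _ => 1 / 1000) (fun _ => 0) M p r s ≤
    2 * (p 0).re * (e0R (PZ A B) β ρ + (p 0).re) := by
  obtain ⟨C, hb⟩ := R.bmb
  obtain ⟨D, hρ⟩ := R.bmz
  have h := row0b (reg_PZ (hZ12 hA hZ)) hA hZ hb hρ R.pb R.pz
  have hp0 : ‖p 0‖ ^ 2 = (p 0).re ^ 2 := by
    rw [← R.p0_re, Complex.norm_real, Real.norm_eq_abs, sq_abs, Complex.ofReal_re]
  rw [R.hs, mean_rho R.toRest, mean_be R.toRest, R.hR_eq] at h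
  refine le_trans (le_of_eq ?_) h
  rw [FL_split, ← Finset.mul_sum, ← Finset.mul_sum, ← Finset.mul_sum, hp0]
  ring

end

end Helper41.RC.R02
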