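import Pool.Agent.Helper33.SH.Inst
import Pool.Agent.Helper43.SH.Exp2

/-!
# SHARP, zone I, (Q): the rows `l = 0` and `l = 2`, part a: the coefficient functions

`nn ζ = (1 + conj ζ)/|1 + ζ|`: second order expansions of `nn` and `nn³` with cubic remainders.
-/

set_option autoImplicit false

namespace Helper41.RC.R02

open Complex

/-- the conjugate unit vector -/
noncomputable def nn (ζ : ℂ) : ℂ := (1 + (starRingEnd ℂ) ζ) / (‖1 + ζ‖ : ℂ)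

/-- second order part -/
noncomputable def q1 (ζ : ℂ) : ℂ := ⟨-(ζ.im ^ 2) / 2, ζ.re * ζ.im⟩
/-- second order part of the cube -/
noncomputable def q3 (ζ : ℂ) : ℂ := ⟨-(9 / 2 * ζ.im ^ 2), 3 * (ζ.re * ζ.im)⟩

theorem q1_neg (ζ : ℂ) : q1 (-ζ) = q1 ζ := by
  unfold q1
  apply Complex.ext
  · simp
  · simp

theorem q3_neg (ζ : ℂ) : q3 (-ζ) = q3 ζ := by
  unfold q3
  apply Complex.ext
  · simp
  · simp

/-- a norm bound from squares -/
theorem norm_le_sq (z : ℂ) {c : ℝ} (hc : 0 ≤ c) (h : z.re ^ 2 + z.im ^ 2 ≤ c ^ 2) : ‖z‖ ≤ c := by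
  refine abs_le_of_sq_le_sq' ?_ hc |>.2
  rw [← Complex.normSq_eq_norm_sq, Complex.normSq_apply]
  nlinarith

theorem nsq (z : ℂ) : ‖z‖ ^ 2 = z.re ^ 2 + z.im ^ 2 := by
  rw [← Complex.normSq_eq_norm_sq, Complex.normSq_apply]
  ring

theorem q1_le (ζ : ℂ) : ‖q1 ζ‖ ≤ 29 / 50 * ‖ζ‖ ^ 2 := by
  refine norm_le_sq _ (by positivity) ?_
  have h := nsq ζ
  rw [mul_pow, h]
  show (-(ζ.im ^ 2) / 2) ^ 2 + (ζ.re * ζ.im) ^ 2 ≤ _
  have hx := sq_nonneg ζ.re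
  have hy := sq_nonneg ζ.im
  nlinarith [sq_nonneg (ζ.re ^ 2 - 1 / 2 * ζ.im ^ 2), mul_nonneg hx hy, mul_nonneg hx hx, mul_nonneg hy hy]

theorem q3_le (ζ : ℂ) : ‖q3 ζ‖ ≤ 9 / 2 * ‖ζ‖ ^ 2 := by
  refine norm_le_sq _ (by positivity) ?_
  have h := nsq ζ
  rw [mul_pow, h]
  show (-(9 / 2 * ζ.im ^ 2)) ^ 2 + (3 * (ζ.re * ζ.im)) ^ 2 ≤ _
  have hx := sq_nonneg ζ.re
  have hy := sq_nonneg ζ.im
  nlinarith [mul_nonneg hx hy, mul_nonneg hx hx]

/-- the second order expansion -/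
theorem nn_exp {ζ : ℂ} (h : ‖ζ‖ ≤ 1 / 10) : ‖nn ζ - (1 - I * ζ.im + q1 ζ)‖ ≤ 2 * ‖ζ‖ ^ 3 := by
  set ρ := ‖ζ‖ with hρ
  have hρ0 : 0 ≤ ρ := norm_nonneg _
  set x := ζ.re with hx
  set y := ζ.im with hy
  have ax : |x| ≤ ρ := Complex.abs_re_le_norm ζ
  have ay : |y| ≤ ρ := Complex.abs_im_le_norm ζ
  have hns : ρ ^ 2 = x ^ 2 + y ^ 2 := nsq ζ
  set N := ‖1 + ζ‖ with hN
  have hN2 : N ^ 2 = (1 + x) ^ 2 + y ^ 2 := by
    have := nsq (1 + ζ)
    simpa using this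
  have hx1 := abs_le.1 ax
  have hy1 := abs_le.1 ay
  have hNlo : 9 / 10 ≤ N := by
    have h1 : 1 - ρ ≤ N := by
      have := norm_sub_norm_le (1 : ℂ) (-ζ)
      rw [norm_one, norm_neg, sub_neg_eq_add] at this
      exact this
    linarith
  have hNhi : N ≤ 1 + ρ := by
    have := norm_add_le (1 : ℂ) ζ
    rw [norm_one] at this
    exact this
  set e := N - (1 + x) with he
  have hpos : 9 / 5 ≤ N + 1 + x := by linarith
  have he1 : e * (N + 1 + x) = y ^ 2 := by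
    rw [he]
    nlinarith
  have he0 : 0 ≤ e := by
    by_contra hc
    rw [not_le] at hc
    nlinarith [sq_nonneg y]
  have heu : e ≤ 5 / 9 * y ^ 2 := by nlinarith
  -- |y²/2 - e|
  have hd : |y ^ 2 / 2 - e| ≤ 5 / 9 * ρ ^ 3 := by
    have e1 : (y ^ 2 / 2 - e) = e * ((N - 1) + x) / 2 := by
      linear_combination (-(1 : ℝ) / 2) * he1
    have e2 : |(N - 1) + x| ≤ 2 * ρ := by
      rw [abs_le]
      constructor
      · have h1 : 1 - ρ ≤ N := by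
          have := norm_sub_norm_le (1 : ℂ) (-ζ)
          rw [norm_one, norm_neg, sub_neg_eq_add] at this
          exact this
        linarith
      · linarith
    rw [e1, abs_div, abs_mul, abs_of_nonneg he0, abs_of_pos (by norm_num : (0 : ℝ) < 2)]
    have e3 : e ≤ 5 / 9 * ρ ^ 2 := by nlinarith [sq_nonneg x]
    have e4 : e * |N - 1 + x| ≤ (5 / 9 * ρ ^ 2) * (2 * ρ) := mul_le_mul e3 e2 (abs_nonneg _) (by positivity)
    calc e * |N - 1 + x| / 2 ≤ (5 / 9 * ρ ^ 2) * (2 * ρ) / 2 := by linarith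
      _ = 5 / 9 * ρ ^ 3 := by ring
  set T : ℂ := 1 - I * y + q1 ζ with hT
  have hNpos : (0 : ℝ) < N := by linarith
  have hNc : (N : ℂ) ≠ 0 := by exact_mod_cast hNpos.ne'
  have key : (nn ζ - T) * (N : ℂ) = ((y ^ 2 / 2 - e : ℝ) : ℂ) + (⟨x * y ^ 2 / 2, -(x ^ 2 * y)⟩ : ℂ)
      + (e : ℂ) * (1 - T) := by
    have e1 : nn ζ * (N : ℂ) = 1 + (starRingEnd ℂ) ζ := by
      unfold nn
      rw [← hN]
      field_simp
    rw [sub_mul, e1, hT]
    have hNe : N = 1 + x + e := by rw [he]; ring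
    rw [hNe]
    unfold q1
    apply Complex.ext
    · simp [pow_two]
      rw [← hx, ← hy]
      ring
    · simp [pow_two]
      rw [← hx, ← hy]
      ring
  have hT1 : ‖1 - T‖ ≤ 53 / 50 * ρ := by
    have e1 : 1 - T = I * y - q1 ζ := by rw [hT]; ring
    rw [e1]
    refine (norm_sub_le _ _).trans ?_
    have e2 : ‖I * (y : ℂ)‖ ≤ ρ := by
      rw [norm_mul, Complex.norm_I, one_mul, Complex.norm_real, Real.norm_eq_abs]
      exact ay
    have e3 := q1_le ζ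
    rw [← hρ] at e3
    nlinarith
  have hm : ‖(⟨x * y ^ 2 / 2, -(x ^ 2 * y)⟩ : ℂ)‖ ≤ 1 / 2 * ρ ^ 3 := by
    refine norm_le_sq _ (by positivity) ?_
    show (x * y ^ 2 / 2) ^ 2 + (-(x ^ 2 * y)) ^ 2 ≤ (1 / 2 * ρ ^ 3) ^ 2
    have e1 : (1 / 2 * ρ ^ 3) ^ 2 = 1 / 4 * (ρ ^ 2) ^ 3 := by ring
    rw [e1, hns]
    have h1 := sq_nonneg x
    have h2 := sq_nonneg y
    nlinarith [mul_nonneg h1 (sq_nonneg (x ^ 2 - y ^ 2)), mul_nonneg h1 (mul_nonneg h2 h2),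
      mul_nonneg h2 (mul_nonneg h2 h2), mul_nonneg h1 (mul_nonneg h1 h2), mul_nonneg h1 (mul_nonneg h1 h1),
      mul_nonneg h1 (sq_nonneg (x ^ 2 - 1 / 2 * y ^ 2))]
  have hk : ‖(nn ζ - T) * (N : ℂ)‖ ≤ 5 / 9 * ρ ^ 3 + 1 / 2 * ρ ^ 3 + 5 / 9 * ρ ^ 2 * (53 / 50 * ρ) := by
    rw [key]
    refine (norm_add_le _ _).trans (add_le_add ((norm_add_le _ _).trans (add_le_add ?_ hm)) ?_)
    · rw [Complex.norm_real, Real.norm_eq_abs]
      exact hd
    · rw [norm_mul, Complex.norm_real, Real.norm_eq_abs, abs_of_nonneg he0]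
      have e3 : e ≤ 5 / 9 * ρ ^ 2 := by nlinarith [sq_nonneg x]
      exact mul_le_mul e3 hT1 (norm_nonneg _) (by positivity)
  rw [norm_mul, Complex.norm_real, Real.norm_eq_abs, abs_of_pos hNpos] at hk
  have h3 : 0 ≤ ρ ^ 3 := by positivity
  have h4 : ‖nn ζ - T‖ * (9 / 10) ≤ ‖nn ζ - T‖ * N := mul_le_mul_of_nonneg_left hNlo (norm_nonneg _)
  nlinarith

theorem nn_norm {ζ : ℂ} (h : ‖ζ‖ ≤ 1 / 10) : ‖nn ζ‖ = 1 := by
  have h0 : 1 + ζ ≠ 0 := by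
    intro h0
    have : ζ = -1 := by linear_combination h0
    rw [this, norm_neg, norm_one] at h
    norm_num at h
  unfold nn
  have e : 1 + (starRingEnd ℂ) ζ = (starRingEnd ℂ) (1 + ζ) := by rw [map_add, map_one]
  rw [norm_div, Complex.norm_real, Real.norm_eq_abs, abs_of_nonneg (norm_nonneg _), e, Complex.norm_conj,
    div_self (norm_ne_zero_iff.2 h0)]

/-- the second order expansion of the cube -/
theorem nn3_exp {ζ : ℂ} (h : ‖ζ‖ ≤ 1 / 10) : ‖nn ζ ^ 3 - (1 - 3 * I * ζ.im + q3 ζ)‖ ≤ 12 * ‖ζ‖ ^ 3 := by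
  have h1 := nn_exp h
  have hn := nn_norm h
  have hq := q1_le ζ
  have hy : |ζ.im| ≤ ‖ζ‖ := Complex.abs_im_le_norm ζ
  set ρ := ‖ζ‖ with hρ
  have hρ0 : 0 ≤ ρ := norm_nonneg _
  set y := ζ.im with hyd
  set T : ℂ := 1 - I * y + q1 ζ with hT
  set t : ℂ := -(I * y) + q1 ζ with ht
  have eT : T = 1 + t := by rw [hT, ht]; ring
  have nt : ‖t‖ ≤ 53 / 50 * ρ := by
    rw [ht]
    refine (norm_add_le _ _).trans ?_
    rw [norm_neg, norm_mul, Complex.norm_I, one_mul, Complex.norm_real, Real.norm_eq_abs]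
    nlinarith
  have nT : ‖T‖ ≤ 1 + 53 / 50 * ρ := by
    rw [eT]
    refine (norm_add_le _ _).trans ?_
    rw [norm_one]
    linarith
  -- T^3
  have e3 : T ^ 3 - (1 - 3 * I * y + q3 ζ) = 3 * (-(2 * I * y) * q1 ζ + q1 ζ ^ 2) + t ^ 3 := by
    have hI : I * I = -1 := Complex.I_mul_I
    have hq3 : q3 ζ = 3 * q1 ζ - 3 * (y : ℂ) ^ 2 := by
      unfold q3 q1
      apply Complex.ext
      · simp [pow_two]
        rw [← hyd]
        ring
      · simp [pow_two]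
    rw [hq3, eT, ht]
    linear_combination (3 * (y : ℂ) ^ 2) * hI
  have n3 : ‖T ^ 3 - (1 - 3 * I * y + q3 ζ)‖ ≤ 3 * (2 * ρ * (29 / 50 * ρ ^ 2) + (29 / 50 * ρ ^ 2) ^ 2) + (53 / 50 * ρ) ^ 3 := by
    rw [e3]
    refine (norm_add_le _ _).trans (add_le_add ?_ ?_)
    · rw [norm_mul, Complex.norm_ofNat]
      refine mul_le_mul_of_nonneg_left ((norm_add_le _ _).trans (add_le_add ?_ ?_)) (by norm_num)
      · rw [norm_mul, norm_neg, norm_mul, norm_mul, Complex.norm_I, Complex.norm_ofNat, mul_one, Complex.norm_real,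
          Real.norm_eq_abs]
        exact mul_le_mul (by linarith) hq (norm_nonneg _) (by positivity)
      · rw [norm_pow]
        exact pow_le_pow_left₀ (norm_nonneg _) hq 2
    · rw [norm_pow]
      exact pow_le_pow_left₀ (norm_nonneg _) nt 3
  have e4 : nn ζ ^ 3 - T ^ 3 = (nn ζ - T) * (nn ζ ^ 2 + nn ζ * T + T ^ 2) := by ring
  have n4 : ‖nn ζ ^ 3 - T ^ 3‖ ≤ 2 * ρ ^ 3 * (1 + (1 + 53 / 50 * ρ) + (1 + 53 / 50 * ρ) ^ 2) := by
    rw [e4, norm_mul]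
    refine mul_le_mul h1 ?_ (norm_nonneg _) (by positivity)
    refine (norm_add_le _ _).trans (add_le_add ((norm_add_le _ _).trans (add_le_add ?_ ?_)) ?_)
    · rw [norm_pow, hn, one_pow]
    · rw [norm_mul, hn, one_mul]
      exact nT
    · rw [norm_pow]
      exact pow_le_pow_left₀ (norm_nonneg _) nT 2
  have e5 : nn ζ ^ 3 - (1 - 3 * I * y + q3 ζ) = (nn ζ ^ 3 - T ^ 3) + (T ^ 3 - (1 - 3 * I * y + q3 ζ)) := by ring
  rw [e5]
  refine (norm_add_le _ _).trans ((add_le_add n4 n3).trans ?_)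
  have p2 : 0 ≤ ρ ^ 2 := by positivity
  have p3 : 0 ≤ ρ ^ 3 := by positivity
  have p4 : ρ ^ 4 ≤ 1 / 10 * ρ ^ 3 := by nlinarith
  have p5 : ρ ^ 5 ≤ 1 / 100 * ρ ^ 3 := by nlinarith
  nlinarith

end Helper41.RC.R02
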