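import Pool.Agent.Helper41.RC.M_R02a

/-!
# SHARP, zone I, (Q): the rows `l = 0` and `l = 2`, part b: even and odd parts of the coefficient functions
-/

set_option autoImplicit false

namespace Helper41.RC.R02

open Complex
open Helper49.RC (om)
open Pool.Agent.Helper33.SH (om_sq om_norm om_mul)

/-! ### constants -/

noncomputable def qq : ℂ := (starRingEnd ℂ) om
noncomputable def kq : ℂ := (Real.sqrt 3 : ℂ) + Complex.I / 4
noncomputable def kc : ℂ := (Real.sqrt 3 : ℂ) - Complex.I / 4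

theorem r3_sq : (Real.sqrt 3 : ℂ) ^ 2 = 3 := by
  have : Real.sqrt 3 ^ 2 = 3 := Real.sq_sqrt (by norm_num)
  exact_mod_cast this

theorem om_eq : om = (1 + (Real.sqrt 3 : ℂ) * I) / 2 := by
  apply Complex.ext
  · rw [Pool.Agent.Helper43.SH.om_re']
    simp
  · rw [Pool.Agent.Helper43.SH.om_im']
    simp

theorem qq_eq : qq = (1 - (Real.sqrt 3 : ℂ) * I) / 2 := by
  unfold qq
  rw [om_eq]
  have h2 : (starRingEnd ℂ) (2 : ℂ) = 2 := Complex.conj_ofReal 2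
  rw [map_div₀, map_add, map_mul, map_one, Complex.conj_I, Complex.conj_ofReal, h2]
  ring

theorem qq_om : qq = 1 - om := by rw [qq_eq, om_eq]; ring
theorem qq_norm : ‖qq‖ = 1 := by unfold qq; rw [Complex.norm_conj, om_norm]
theorem qq_sq : qq ^ 2 = qq - 1 := by
  have := om_sq
  rw [qq_om]
  linear_combination this

theorem kq_norm : ‖kq‖ = 7 / 4 := by
  have h : ‖kq‖ ^ 2 = (7 / 4) ^ 2 := by
    rw [nsq]
    unfold kq
    have h3 : Real.sqrt 3 ^ 2 = 3 := Real.sq_sqrt (by norm_num)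
    simp
    linarith
  exact (pow_left_inj₀ (norm_nonneg _) (by norm_num) (by norm_num)).1 h

theorem kc_norm : ‖kc‖ = 7 / 4 := by
  have h : ‖kc‖ ^ 2 = (7 / 4) ^ 2 := by
    rw [nsq]
    unfold kc
    have h3 : Real.sqrt 3 ^ 2 = 3 := Real.sq_sqrt (by norm_num)
    simp
    linarith
  exact (pow_left_inj₀ (norm_nonneg _) (by norm_num) (by norm_num)).1 h

/-! ### even and odd parts -/

noncomputable def ev (F : ℂ → ℂ) (z : ℂ) : ℂ := (F z + F (-z)) / 2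
noncomputable def od (F : ℂ → ℂ) (z : ℂ) : ℂ := (F z - F (-z)) / 2

theorem ev1 {ζ : ℂ} (h : ‖ζ‖ ≤ 1 / 10) : ‖ev nn ζ - 1‖ ≤ 29 / 50 * ‖ζ‖ ^ 2 + 2 * ‖ζ‖ ^ 3 := by
  have h1 := nn_exp h
  have h2 := nn_exp (ζ := -ζ) (by rwa [norm_neg])
  have h3 := q1_le ζ
  rw [q1_neg, norm_neg] at h2
  have e : ev nn ζ - 1 = (1 / 2 : ℂ) * (nn ζ - (1 - I * ζ.im + q1 ζ)) + (1 / 2 : ℂ) * (nn (-ζ) - (1 - I * (-ζ).im + q1 ζ)) + q1 ζ := by
    unfold ev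
    rw [Complex.neg_im]
    push_cast
    ring
  rw [e]
  refine (norm_add_le _ _).trans ?_
  have h4 : ‖(1 / 2 : ℂ) * (nn ζ - (1 - I * ζ.im + q1 ζ)) + (1 / 2 : ℂ) * (nn (-ζ) - (1 - I * (-ζ).im + q1 ζ))‖ ≤
      2 * ‖ζ‖ ^ 3 := by
    refine (norm_add_le _ _).trans ?_
    rw [norm_mul, norm_mul]
    have : ‖(1 / 2 : ℂ)‖ = 1 / 2 := by norm_num
    rw [this]
    linarith
  linarith

theorem ev3 {ζ : ℂ} (h : ‖ζ‖ ≤ 1 / 10) : ‖ev (fun x => nn x ^ 3) ζ - 1‖ ≤ 9 / 2 * ‖ζ‖ ^ 2 + 12 * ‖ζ‖ ^ 3 := by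
  have h1 := nn3_exp h
  have h2 := nn3_exp (ζ := -ζ) (by rwa [norm_neg])
  have h3 := q3_le ζ
  rw [q3_neg, norm_neg] at h2
  have e : ev (fun x => nn x ^ 3) ζ - 1 = (1 / 2 : ℂ) * (nn ζ ^ 3 - (1 - 3 * I * ζ.im + q3 ζ))
      + (1 / 2 : ℂ) * (nn (-ζ) ^ 3 - (1 - 3 * I * (-ζ).im + q3 ζ)) + q3 ζ := by
    unfold ev
    rw [Complex.neg_im]
    push_cast
    ring
  rw [e]
  refine (norm_add_le _ _).trans ?_
  have h4 : ‖(1 / 2 : ℂ) * (nn ζ ^ 3 - (1 - 3 * I * ζ.im + q3 ζ)) + (1 / 2 : ℂ) * (nn (-ζ) ^ 3 - (1 - 3 * I * (-ζ).im + q3 ζ))‖ ≤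
      12 * ‖ζ‖ ^ 3 := by
    refine (norm_add_le _ _).trans ?_
    rw [norm_mul, norm_mul]
    have : ‖(1 / 2 : ℂ)‖ = 1 / 2 := by norm_num
    rw [this]
    linarith
  linarith

theorem od1 {ζ : ℂ} (h : ‖ζ‖ ≤ 1 / 10) : ‖od nn ζ + I * ζ.im‖ ≤ 2 * ‖ζ‖ ^ 3 := by
  have h1 := nn_exp h
  have h2 := nn_exp (ζ := -ζ) (by rwa [norm_neg])
  rw [q1_neg, norm_neg] at h2
  have e : od nn ζ + I * ζ.im = (1 / 2 : ℂ) * (nn ζ - (1 - I * ζ.im + q1 ζ)) - (1 / 2 : ℂ) * (nn (-ζ) - (1 - I * (-ζ).im + q1 ζ)) := by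
    unfold od
    rw [Complex.neg_im]
    push_cast
    ring
  rw [e]
  refine (norm_sub_le _ _).trans ?_
  rw [norm_mul, norm_mul]
  have : ‖(1 / 2 : ℂ)‖ = 1 / 2 := by norm_num
  rw [this]
  linarith

theorem od3 {ζ : ℂ} (h : ‖ζ‖ ≤ 1 / 10) : ‖od (fun x => nn x ^ 3) ζ + 3 * I * ζ.im‖ ≤ 12 * ‖ζ‖ ^ 3 := by
  have h1 := nn3_exp h
  have h2 := nn3_exp (ζ := -ζ) (by rwa [norm_neg])
  rw [q3_neg, norm_neg] at h2
  have e : od (fun x => nn x ^ 3) ζ + 3 * I * ζ.im = (1 / 2 : ℂ) * (nn ζ ^ 3 - (1 - 3 * I * ζ.im + q3 ζ))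
      - (1 / 2 : ℂ) * (nn (-ζ) ^ 3 - (1 - 3 * I * (-ζ).im + q3 ζ)) := by
    unfold od
    rw [Complex.neg_im]
    push_cast
    ring
  rw [e]
  refine (norm_sub_le _ _).trans ?_
  rw [norm_mul, norm_mul]
  have : ‖(1 / 2 : ℂ)‖ = 1 / 2 := by norm_num
  rw [this]
  linarith

/-! ### the coefficient functions of the rows -/

noncomputable def PX (z : ℂ) : ℂ := 1 / 2 * (qq * nn (qq * z) ^ 3 - qq ^ 2 * nn (om * z) ^ 3)
  + 3 / 2 * (nn (qq * z) + nn (om * z))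
noncomputable def PY (z : ℂ) : ℂ := 1 / 2 * (kq * nn (qq * z) ^ 3 - kc * nn (om * z) ^ 3)
  + 3 / 2 * (kc * qq * nn (qq * z) + kq * qq ^ 2 * nn (om * z))
noncomputable def CP (z : ℂ) : ℂ := 1 / 2 * (nn (qq * z) ^ 3 + nn (om * z) ^ 3)
noncomputable def CM (z : ℂ) : ℂ := 3 / 2 * (qq * nn (qq * z) - qq ^ 2 * nn (om * z))
noncomputable def ZX (z : ℂ) : ℂ := qq ^ 2 * nn (qq * z) + qq ^ 4 * nn (om * z)
noncomputable def ZY (z : ℂ) : ℂ := kq * qq * nn (qq * z) + kc * qq ^ 2 * nn (om * z)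
noncomputable def ZC0 (z : ℂ) : ℂ := qq * nn (qq * z) - qq ^ 2 * nn (om * z)

theorem nq (z : ℂ) : ‖qq * z‖ = ‖z‖ := by rw [norm_mul, qq_norm, one_mul]
theorem no (z : ℂ) : ‖om * z‖ = ‖z‖ := by rw [norm_mul, om_norm, one_mul]

theorem evPX {z : ℂ} (h : ‖z‖ ≤ 1 / 12) : ‖ev PX z - 7 / 2‖ ≤ 27 / 500 := by
  have h' : ‖z‖ ≤ 1 / 10 := h.trans (by norm_num)
  have a1 := ev1 (ζ := qq * z) (by rwa [nq])
  have a2 := ev1 (ζ := om * z) (by rwa [no])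
  have a3 := ev3 (ζ := qq * z) (by rwa [nq])
  have a4 := ev3 (ζ := om * z) (by rwa [no])
  rw [nq] at a1 a3
  rw [no] at a2 a4
  have e : ev PX z - 7 / 2 = 1 / 2 * (qq * (ev (fun x => nn x ^ 3) (qq * z) - 1) - qq ^ 2 * (ev (fun x => nn x ^ 3) (om * z) - 1))
      + 3 / 2 * ((ev nn (qq * z) - 1) + (ev nn (om * z) - 1)) := by
    unfold ev PX
    simp only [mul_neg]
    linear_combination (-(1 : ℂ) / 2) * qq_sq
  rw [e]
  refine (norm_add_le _ _).trans ?_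
  have n1 : ‖(1 : ℂ) / 2 * (qq * (ev (fun x => nn x ^ 3) (qq * z) - 1) - qq ^ 2 * (ev (fun x => nn x ^ 3) (om * z) - 1))‖
      ≤ 9 / 2 * ‖z‖ ^ 2 + 12 * ‖z‖ ^ 3 := by
    rw [norm_mul]
    have : ‖(1 / 2 : ℂ)‖ = 1 / 2 := by norm_num
    rw [this]
    have := norm_sub_le (qq * (ev (fun x => nn x ^ 3) (qq * z) - 1)) (qq ^ 2 * (ev (fun x => nn x ^ 3) (om * z) - 1))
    rw [norm_mul, norm_mul, norm_pow, qq_norm, one_pow, one_mul, one_mul] at this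
    linarith
  have n2 : ‖(3 : ℂ) / 2 * ((ev nn (qq * z) - 1) + (ev nn (om * z) - 1))‖ ≤ 3 * (29 / 50 * ‖z‖ ^ 2 + 2 * ‖z‖ ^ 3) := by
    rw [norm_mul]
    have : ‖(3 / 2 : ℂ)‖ = 3 / 2 := by norm_num
    rw [this]
    have := norm_add_le (ev nn (qq * z) - 1) (ev nn (om * z) - 1)
    linarith
  have h2 : ‖z‖ ^ 2 ≤ (1 / 12) ^ 2 := pow_le_pow_left₀ (norm_nonneg _) h 2
  have h3 : ‖z‖ ^ 3 ≤ (1 / 12) ^ 3 := pow_le_pow_left₀ (norm_nonneg _) h 3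
  norm_num at h2 h3
  linarith

theorem evPY {z : ℂ} (h : ‖z‖ ≤ 1 / 12) : ‖ev PY z + 37 / 8 * I‖ ≤ 19 / 200 := by
  have h' : ‖z‖ ≤ 1 / 10 := h.trans (by norm_num)
  have a1 := ev1 (ζ := qq * z) (by rwa [nq])
  have a2 := ev1 (ζ := om * z) (by rwa [no])
  have a3 := ev3 (ζ := qq * z) (by rwa [nq])
  have a4 := ev3 (ζ := om * z) (by rwa [no])
  rw [nq] at a1 a3
  rw [no] at a2 a4
  have e : ev PY z + 37 / 8 * I = 1 / 2 * (kq * (ev (fun x => nn x ^ 3) (qq * z) - 1) - kc * (ev (fun x => nn x ^ 3) (om * z) - 1))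
      + 3 / 2 * (kc * qq * (ev nn (qq * z) - 1) + kq * qq ^ 2 * (ev nn (om * z) - 1)) := by
    have c1 : 1 / 2 * (kq - kc) + 3 / 2 * (kc * qq + kq * qq ^ 2) = -(37 / 8 * I) := by
      rw [qq_sq, qq_eq]
      unfold kq kc
      linear_combination (-(3 : ℂ) / 2 * I) * r3_sq
    unfold ev PY
    simp only [mul_neg]
    linear_combination c1
  rw [e]
  refine (norm_add_le _ _).trans ?_
  have n1 : ‖(1 : ℂ) / 2 * (kq * (ev (fun x => nn x ^ 3) (qq * z) - 1) - kc * (ev (fun x => nn x ^ 3) (om * z) - 1))‖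
      ≤ 7 / 4 * (9 / 2 * ‖z‖ ^ 2 + 12 * ‖z‖ ^ 3) := by
    rw [norm_mul]
    have : ‖(1 / 2 : ℂ)‖ = 1 / 2 := by norm_num
    rw [this]
    have := norm_sub_le (kq * (ev (fun x => nn x ^ 3) (qq * z) - 1)) (kc * (ev (fun x => nn x ^ 3) (om * z) - 1))
    rw [norm_mul, norm_mul, kq_norm, kc_norm] at this
    linarith
  have n2 : ‖(3 : ℂ) / 2 * (kc * qq * (ev nn (qq * z) - 1) + kq * qq ^ 2 * (ev nn (om * z) - 1))‖
      ≤ 21 / 4 * (29 / 50 * ‖z‖ ^ 2 + 2 * ‖z‖ ^ 3) := by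
    rw [norm_mul]
    have : ‖(3 / 2 : ℂ)‖ = 3 / 2 := by norm_num
    rw [this]
    have := norm_add_le (kc * qq * (ev nn (qq * z) - 1)) (kq * qq ^ 2 * (ev nn (om * z) - 1))
    rw [norm_mul, norm_mul, norm_mul, norm_mul, norm_pow, qq_norm, one_pow, mul_one, mul_one, kq_norm, kc_norm] at this
    linarith
  have h2 : ‖z‖ ^ 2 ≤ (1 / 12) ^ 2 := pow_le_pow_left₀ (norm_nonneg _) h 2
  have h3 : ‖z‖ ^ 3 ≤ (1 / 12) ^ 3 := pow_le_pow_left₀ (norm_nonneg _) h 3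
  norm_num at h2 h3
  linarith

/-- imaginary parts -/
theorem im_sum (z : ℂ) : (((qq * z).im : ℝ) : ℂ) + (((om * z).im : ℝ) : ℂ) = (z.im : ℂ) := by
  have h : qq * z = z - om * z := by rw [qq_om]; ring
  rw [h, Complex.sub_im]
  push_cast
  ring

theorem im_dif (z : ℂ) : qq * (((qq * z).im : ℝ) : ℂ) - qq ^ 2 * (((om * z).im : ℝ) : ℂ) = I / 2 * (z + 2 * (starRingEnd ℂ) z) := by
  have h3 : Real.sqrt 3 * Real.sqrt 3 = 3 := Real.mul_self_sqrt (by norm_num)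
  have hq2 : qq ^ 2 = qq - 1 := qq_sq
  rw [hq2, qq_eq, om_eq]
  apply Complex.ext
  · simp
    ring
  · simp
    linear_combination ((1 : ℝ) / 2 * z.re) * h3

theorem odCP {z : ℂ} (h : ‖z‖ ≤ 1 / 12) : ‖od CP z + 3 / 2 * I * z.im‖ ≤ 7 / 1000 := by
  have h' : ‖z‖ ≤ 1 / 10 := h.trans (by norm_num)
  have a3 := od3 (ζ := qq * z) (by rwa [nq])
  have a4 := od3 (ζ := om * z) (by rwa [no])
  rw [nq] at a3
  rw [no] at a4
  have e : od CP z + 3 / 2 * I * z.im = 1 / 2 * ((od (fun x => nn x ^ 3) (qq * z) + 3 * I * (qq * z).im)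
      + (od (fun x => nn x ^ 3) (om * z) + 3 * I * (om * z).im)) := by
    unfold od CP
    simp only [mul_neg]
    linear_combination (-(3 : ℂ) / 2 * I) * im_sum z
  rw [e, norm_mul]
  have : ‖(1 / 2 : ℂ)‖ = 1 / 2 := by norm_num
  rw [this]
  have := norm_add_le (od (fun x => nn x ^ 3) (qq * z) + 3 * I * (qq * z).im) (od (fun x => nn x ^ 3) (om * z) + 3 * I * (om * z).im)
  have h3 : ‖z‖ ^ 3 ≤ (1 / 12) ^ 3 := pow_le_pow_left₀ (norm_nonneg _) h 3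
  norm_num at h3
  linarith

theorem od_dif {z : ℂ} (h : ‖z‖ ≤ 1 / 12) :
    ‖(qq * od nn (qq * z) - qq ^ 2 * od nn (om * z)) - 1 / 2 * (z + 2 * (starRingEnd ℂ) z)‖ ≤ 29 / 12500 := by
  have h' : ‖z‖ ≤ 1 / 10 := h.trans (by norm_num)
  have a3 := od1 (ζ := qq * z) (by rwa [nq])
  have a4 := od1 (ζ := om * z) (by rwa [no])
  rw [nq] at a3
  rw [no] at a4
  have e : (qq * od nn (qq * z) - qq ^ 2 * od nn (om * z)) - 1 / 2 * (z + 2 * (starRingEnd ℂ) z) =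
      qq * (od nn (qq * z) + I * (qq * z).im) - qq ^ 2 * (od nn (om * z) + I * (om * z).im) := by
    have hI : I * I = -1 := Complex.I_mul_I
    linear_combination (-I) * im_dif z - (1 / 2 * (z + 2 * (starRingEnd ℂ) z)) * hI
  rw [e]
  refine (norm_sub_le _ _).trans ?_
  rw [norm_mul, norm_mul, norm_pow, qq_norm, one_pow, one_mul, one_mul]
  have h3 : ‖z‖ ^ 3 ≤ (1 / 12) ^ 3 := pow_le_pow_left₀ (norm_nonneg _) h 3
  norm_num at h3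
  linarith

theorem odCM {z : ℂ} (h : ‖z‖ ≤ 1 / 12) : ‖od CM z - 3 / 4 * (z + 2 * (starRingEnd ℂ) z)‖ ≤ 7 / 2000 := by
  have h1 := od_dif h
  have e : od CM z - 3 / 4 * (z + 2 * (starRingEnd ℂ) z) =
      3 / 2 * ((qq * od nn (qq * z) - qq ^ 2 * od nn (om * z)) - 1 / 2 * (z + 2 * (starRingEnd ℂ) z)) := by
    unfold od CM
    simp only [mul_neg]
    ring
  rw [e, norm_mul]
  have : ‖(3 / 2 : ℂ)‖ = 3 / 2 := by norm_num
  rw [this]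
  linarith

theorem odZ {z : ℂ} (h : ‖z‖ ≤ 1 / 12) : ‖od ZC0 z - 1 / 2 * (z + 2 * (starRingEnd ℂ) z)‖ ≤ 29 / 12500 := by
  have h1 := od_dif h
  have e : od ZC0 z = qq * od nn (qq * z) - qq ^ 2 * od nn (om * z) := by
    unfold od ZC0
    simp only [mul_neg]
    ring
  rw [e]
  exact h1

theorem evZX {z : ℂ} (h : ‖z‖ ≤ 1 / 12) : ‖ev ZX z + 1‖ ≤ 13 / 1250 := by
  have h' : ‖z‖ ≤ 1 / 10 := h.trans (by norm_num)
  have a1 := ev1 (ζ := qq * z) (by rwa [nq])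
  have a2 := ev1 (ζ := om * z) (by rwa [no])
  rw [nq] at a1
  rw [no] at a2
  have e : ev ZX z + 1 = qq ^ 2 * (ev nn (qq * z) - 1) + qq ^ 4 * (ev nn (om * z) - 1) := by
    unfold ev ZX
    simp only [mul_neg]
    linear_combination (1 + qq ^ 2 + qq) * qq_sq
  rw [e]
  refine (norm_add_le _ _).trans ?_
  rw [norm_mul, norm_mul, norm_pow, norm_pow, qq_norm, one_pow, one_pow, one_mul, one_mul]
  have h2 : ‖z‖ ^ 2 ≤ (1 / 12) ^ 2 := pow_le_pow_left₀ (norm_nonneg _) h 2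
  have h3 : ‖z‖ ^ 3 ≤ (1 / 12) ^ 3 := pow_le_pow_left₀ (norm_nonneg _) h 3
  norm_num at h2 h3
  linarith

/-- the real part of the row 0 on the imaginary part of `β` -/
theorem evZY {z : ℂ} (h : ‖z‖ ≤ 1 / 12) : |(ev ZY z).re| ≤ 91 / 5000 := by
  have h' : ‖z‖ ≤ 1 / 10 := h.trans (by norm_num)
  have a1 := ev1 (ζ := qq * z) (by rwa [nq])
  have a2 := ev1 (ζ := om * z) (by rwa [no])
  rw [nq] at a1
  rw [no] at a2
  have e : ev ZY z = kq * qq * (ev nn (qq * z) - 1) + kc * qq ^ 2 * (ev nn (om * z) - 1) + (kq * qq + kc * qq ^ 2) := by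
    unfold ev ZY
    simp only [mul_neg]
    ring
  have e2 : (kq * qq + kc * qq ^ 2).re = 0 := by
    have h3 : Real.sqrt 3 * Real.sqrt 3 = 3 := Real.mul_self_sqrt (by norm_num)
    rw [qq_sq, qq_eq]
    unfold kq kc
    simp
    ring
  rw [e, Complex.add_re, e2, add_zero]
  refine (Complex.abs_re_le_norm _).trans ((norm_add_le _ _).trans ?_)
  rw [norm_mul, norm_mul, norm_mul, norm_mul, norm_pow, qq_norm, one_pow, mul_one, mul_one, kq_norm, kc_norm]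
  have h2 : ‖z‖ ^ 2 ≤ (1 / 12) ^ 2 := pow_le_pow_left₀ (norm_nonneg _) h 2
  have h3 : ‖z‖ ^ 3 ≤ (1 / 12) ^ 3 := pow_le_pow_left₀ (norm_nonneg _) h 3
  norm_num at h2 h3
  linarith

end Helper41.RC.R02
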