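import Pool.Agent.Helper41.RC.StRest

/-!
# Project RC / SHARP, link (7): from the finite head certificate to all sections
-/

open MeasureTheory Set Filter

namespace Helper41.RC

open Helper49.LT (ee)
open Pool.Agent.Helper99.RC (ps NS ent)
open Helper95.RC (Kc av)

theorem KK_Kc (ψ : ℝ → ℝ) (m n : ℤ) :
    KK ψ m n = Kc ψ m n + (if m + n = 0 then 0 else if m = n then 2 / (Complex.I * ((m + n : ℤ) : ℂ)) else 0) := by
  unfold KK Kc av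
  by_cases h : m + n = 0
  · rw [if_pos h, if_pos h, if_pos h, add_zero]
    rfl
  · rw [if_neg h, if_neg h, if_neg h]
    by_cases h2 : m = n
    · rw [if_pos h2, if_pos h2, mul_sub, mul_one]
      unfold ex ee
      ring
    · rw [if_neg h2, if_neg h2, sub_zero, add_zero]
      rfl

theorem ent_KK (d k ph : ℝ) (a b : ℤ → ℂ) (m n : ℤ) :
    -2 * (a m * (starRingEnd ℂ) (b n) * KK (ps d k ph) m n).im =
      ent d k ph a b m n
        + (if m = 0 then if n = 0 then 2 * d * (a 0 * (starRingEnd ℂ) (b 0)).im else 0 else 0) := by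
  have h := Pool.Agent.Helper99.RC.entry_all d k ph a b m n
  rw [KK_Kc, mul_add, Complex.add_im, mul_add, h]
  by_cases h1 : m + n = 0
  · rw [if_pos h1]
    by_cases h2 : m = n
    · have h3 : m = 0 := by omega
      rw [if_pos h2, h3]
      simp
    · rw [if_neg h2]
      simp
  · rw [if_neg h1]
    by_cases h2 : m = n
    · rw [if_pos h2, if_pos h2]
      subst h2
      have hm : (m : ℝ) ≠ 0 := by
        have : m ≠ 0 := by omega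
        exact_mod_cast this
      have e1 : (2 / (Complex.I * ((m + m : ℤ) : ℂ))) = ((1 / (m : ℝ) : ℝ) : ℂ) * (-Complex.I) := by
        have hI := Complex.I_ne_zero
        have hmc : (m : ℂ) ≠ 0 := by exact_mod_cast hm
        push_cast
        have hmm : (m : ℂ) + m ≠ 0 := by
          rw [← two_mul]
          exact mul_ne_zero two_ne_zero hmc
        field_simp
        linear_combination (2 : ℂ) * Complex.I_sq
      rw [e1]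
      have e2 : (a m * (starRingEnd ℂ) (b m) * (((1 / (m : ℝ) : ℝ) : ℂ) * (-Complex.I))).im
          = -(1 / (m : ℝ) * (a m * (starRingEnd ℂ) (b m)).re) := by
        rw [show a m * (starRingEnd ℂ) (b m) * (((1 / (m : ℝ) : ℝ) : ℂ) * (-Complex.I))
          = ((1 / (m : ℝ) : ℝ) : ℂ) * ((a m * (starRingEnd ℂ) (b m)) * (-Complex.I)) by ring,
          Complex.im_ofReal_mul]
        have e3 : (a m * (starRingEnd ℂ) (b m) * -Complex.I).im = -(a m * (starRingEnd ℂ) (b m)).re := by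
          simp [Complex.mul_im]
        rw [e3]
        ring
      rw [e2]
      field_simp
      ring
    · rw [if_neg h2, if_neg h2]
      simp

theorem NS_KK (d k ph : ℝ) {M : Finset ℤ} (h0 : (0 : ℤ) ∈ M) (a b : ℤ → ℂ) :
    NS d k ph M a b = ∑ m ∈ M, (‖a m‖ ^ 2 + ‖b m‖ ^ 2) / (m : ℝ)
      - 2 * (∑ m ∈ M, ∑ n ∈ M, a m * (starRingEnd ℂ) (b n) * KK (ps d k ph) m n).im := by
  have e1 : -(2 * (∑ m ∈ M, ∑ n ∈ M, a m * (starRingEnd ℂ) (b n) * KK (ps d k ph) m n).im)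
      = ∑ m ∈ M, ∑ n ∈ M, ent d k ph a b m n + 2 * d * (a 0 * (starRingEnd ℂ) (b 0)).im := by
    rw [Complex.im_sum, Finset.mul_sum, ← Finset.sum_neg_distrib]
    have e2 : ∀ m ∈ M, -(2 * (∑ n ∈ M, a m * (starRingEnd ℂ) (b n) * KK (ps d k ph) m n).im)
        = ∑ n ∈ M, ent d k ph a b m n
          + (if m = 0 then 2 * d * (a 0 * (starRingEnd ℂ) (b 0)).im else 0) := by
      intro m _
      rw [Complex.im_sum, Finset.mul_sum, ← Finset.sum_neg_distrib]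
      rw [Finset.sum_congr rfl (g := fun n => ent d k ph a b m n
        + (if m = 0 then if n = 0 then 2 * d * (a 0 * (starRingEnd ℂ) (b 0)).im else 0 else 0))
        (fun n _ => by rw [← ent_KK]; ring), Finset.sum_add_distrib]
      congr 1
      by_cases hm : m = 0
      · simp only [if_pos hm]
        rw [Finset.sum_ite_eq' M 0, if_pos h0]
      · simp only [if_neg hm, Finset.sum_const_zero]
    rw [Finset.sum_congr rfl e2, Finset.sum_add_distrib, Finset.sum_ite_eq' M 0, if_pos h0]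
  unfold NS
  linarith

theorem HF_eq (d k ph f e2 e3 s2 G : ℝ) (K : ℕ) (hK : 1 ≤ K) (p r s : ℤ → ℂ) :
    HF d k ph f e2 e3 s2 G K p r s
      = RF (ps d k ph) f e2 e3 s2 G (Finset.Icc (1 - (K : ℤ)) (1 + K)) (Finset.Icc (-(K : ℤ)) K) p r s := by
  unfold HF RF
  rw [NS_KK d k ph (M := Finset.Icc (1 - (K : ℤ)) (1 + K)) (by rw [Finset.mem_Icc]; omega)]
  have e1 : ∑ m ∈ Finset.Icc (1 - (K : ℤ)) (1 + K), Xw p r s m / (m : ℝ)
      = ∑ m ∈ Finset.Icc (1 - (K : ℤ)) (1 + K), (‖alw p r (m - 1)‖ ^ 2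
      + 2 * (alw p r (m - 1) * (starRingEnd ℂ) (aw p r s m + bw p r s m)).re) / (m : ℝ)
        + ∑ m ∈ Finset.Icc (1 - (K : ℤ)) (1 + K), (‖aw p r s m‖ ^ 2 + ‖bw p r s m‖ ^ 2) / (m : ℝ) := by
    rw [← Finset.sum_add_distrib]
    refine Finset.sum_congr rfl fun m _ => ?_
    unfold Xw
    rw [← add_div]
    congr 1
    ring
  rw [e1]
  ring

/-- weights: norms -/
noncomputable def Vw (p r s : ℤ → ℂ) (n : ℤ) : ℝ := 2 * ‖s n‖ ^ 2 + 6 * ‖p n‖ ^ 2 + 147 / 16 * ‖r n‖ ^ 2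

theorem ee_norm (x : ℝ) : ‖ee x‖ = 1 := ex_norm x

theorem two_sq (x y : ℂ) : ‖x + y‖ ^ 2 ≤ 3 * ‖x‖ ^ 2 + 3 / 2 * ‖y‖ ^ 2 := by
  have h := norm_add_le x y
  have h1 : ‖x + y‖ ^ 2 ≤ (‖x‖ + ‖y‖) ^ 2 := pow_le_pow_left₀ (norm_nonneg _) h 2
  nlinarith [sq_nonneg (2 * ‖x‖ - ‖y‖)]

theorem kap_norm : ‖((Real.sqrt 3 : ℝ) : ℂ) + Complex.I / 4‖ ^ 2 = 49 / 16 := by
  rw [← Complex.normSq_eq_norm_sq, Complex.normSq_apply]
  have h3 : Real.sqrt 3 * Real.sqrt 3 = 3 := Real.mul_self_sqrt (by norm_num)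
  have e1 : (((Real.sqrt 3 : ℝ) : ℂ) + Complex.I / 4).re = Real.sqrt 3 := by simp
  have e2 : (((Real.sqrt 3 : ℝ) : ℂ) + Complex.I / 4).im = 1 / 4 := by simp
  rw [e1, e2, h3]
  norm_num

theorem kap_norm' : ‖((Real.sqrt 3 : ℝ) : ℂ) - Complex.I / 4‖ ^ 2 = 49 / 16 := by
  rw [← Complex.normSq_eq_norm_sq, Complex.normSq_apply]
  have h3 : Real.sqrt 3 * Real.sqrt 3 = 3 := Real.mul_self_sqrt (by norm_num)
  have e1 : (((Real.sqrt 3 : ℝ) : ℂ) - Complex.I / 4).re = Real.sqrt 3 := by simp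
  have e2 : (((Real.sqrt 3 : ℝ) : ℂ) - Complex.I / 4).im = -(1 / 4) := by simp
  rw [e1, e2, h3]
  norm_num

theorem aw_odd {p r s : ℤ → ℂ} (h : Par p r s) {m : ℤ} (hm : Odd (m - 1)) :
    ‖aw p r s m‖ = ‖s (m - 1)‖ := by
  unfold aw
  rw [h.po _ hm, h.ro _ hm, mul_zero, mul_zero, zero_add, zero_add, norm_mul, ee_norm, one_mul]

theorem bw_odd {p r s : ℤ → ℂ} (h : Par p r s) {m : ℤ} (hm : Odd (m - 1)) :
    ‖bw p r s m‖ = ‖s (m - 1)‖ := by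
  unfold bw
  rw [h.po _ hm, h.ro _ hm, mul_zero, mul_zero, zero_add, zero_sub, norm_mul, ee_norm, one_mul, norm_neg]

theorem aw_even {p r s : ℤ → ℂ} (h : Par p r s) {m : ℤ} (hm : Even (m - 1)) :
    ‖aw p r s m‖ ^ 2 ≤ 3 * ‖p (m - 1)‖ ^ 2 + 147 / 32 * ‖r (m - 1)‖ ^ 2 := by
  unfold aw
  rw [h.se _ hm, add_zero, norm_mul, ee_norm, one_mul]
  refine le_trans (two_sq _ _) ?_
  rw [norm_mul, norm_mul, ee_norm, one_mul, mul_pow, kap_norm]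
  exact le_of_eq (by ring)

theorem bw_even {p r s : ℤ → ℂ} (h : Par p r s) {m : ℤ} (hm : Even (m - 1)) :
    ‖bw p r s m‖ ^ 2 ≤ 3 * ‖p (m - 1)‖ ^ 2 + 147 / 32 * ‖r (m - 1)‖ ^ 2 := by
  unfold bw
  rw [h.se _ hm, sub_zero, norm_mul, ee_norm, one_mul]
  refine le_trans (two_sq _ _) ?_
  rw [norm_mul, norm_mul, ee_norm, one_mul, mul_pow, kap_norm']
  exact le_of_eq (by ring)

theorem ab_le {p r s : ℤ → ℂ} (h : Par p r s) (m : ℤ) :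
    ‖aw p r s m‖ ^ 2 + ‖bw p r s m‖ ^ 2 ≤ Vw p r s (m - 1) := by
  unfold Vw
  rcases Int.even_or_odd (m - 1) with hm | hm
  · have h1 := aw_even h hm
    have h2 := bw_even h hm
    nlinarith [sq_nonneg ‖s (m - 1)‖]
  · rw [aw_odd h hm, bw_odd h hm]
    nlinarith [sq_nonneg ‖p (m - 1)‖, sq_nonneg ‖r (m - 1)‖]

theorem abl_le {p r s : ℤ → ℂ} (h : Par p r s) {l : ℝ} (hl : 0 < l) (m : ℤ) :
    l * ‖aw p r s m‖ ^ 2 + (l + 1 / l) * ‖bw p r s m‖ ^ 2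
      ≤ (2 * l + 1 / l) * ‖s (m - 1)‖ ^ 2
        + (l + 1 / l) * (6 * ‖p (m - 1)‖ ^ 2 + 147 / 16 * ‖r (m - 1)‖ ^ 2) := by
  have hl1 : 0 < 1 / l := by positivity
  rcases Int.even_or_odd (m - 1) with hm | hm
  · have h1 := aw_even h hm
    have h2 := bw_even h hm
    have h3 : l * ‖aw p r s m‖ ^ 2 ≤ (l + 1 / l) * (3 * ‖p (m - 1)‖ ^ 2 + 147 / 32 * ‖r (m - 1)‖ ^ 2) :=
      mul_le_mul (by linarith) h1 (by positivity) (by positivity)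
    have h4 : (l + 1 / l) * ‖bw p r s m‖ ^ 2
        ≤ (l + 1 / l) * (3 * ‖p (m - 1)‖ ^ 2 + 147 / 32 * ‖r (m - 1)‖ ^ 2) :=
      mul_le_mul_of_nonneg_left h2 (by positivity)
    have h5 : 0 ≤ (2 * l + 1 / l) * ‖s (m - 1)‖ ^ 2 := by positivity
    linarith
  · rw [aw_odd h hm, bw_odd h hm, h.po _ hm, h.ro _ hm]
    simp only [norm_zero]
    exact le_of_eq (by ring)

theorem alw_le (p r : ℤ → ℂ) (n : ℤ) : ‖alw p r n‖ ^ 2 ≤ 2 * ‖p n‖ ^ 2 + 1 / 2 * ‖r n‖ ^ 2 := by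
  unfold alw
  have h := norm_add_le (p n) (Complex.I / 2 * r n)
  have h1 : ‖p n + Complex.I / 2 * r n‖ ^ 2 ≤ (‖p n‖ + ‖Complex.I / 2 * r n‖) ^ 2 :=
    pow_le_pow_left₀ (norm_nonneg _) h 2
  have h2 : ‖Complex.I / 2 * r n‖ = 1 / 2 * ‖r n‖ := by
    rw [norm_mul, norm_div, Complex.norm_I]
    norm_num
  rw [h2] at h1
  nlinarith [sq_nonneg (‖p n‖ - 1 / 2 * ‖r n‖)]

theorem Xw_le {p r s : ℤ → ℂ} (h : Par p r s) (m : ℤ) :
    |Xw p r s m| ≤ 2 * ‖s (m - 1)‖ ^ 2 + 18 * ‖p (m - 1)‖ ^ 2 + 159 / 8 * ‖r (m - 1)‖ ^ 2 := by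
  unfold Xw
  rcases Int.even_or_odd (m - 1) with hm | hm
  · have h1 := aw_even h hm
    have h2 := bw_even h hm
    have h3 := alw_le p r (m - 1)
    have h4 : |(alw p r (m - 1) * (starRingEnd ℂ) (aw p r s m + bw p r s m)).re|
        ≤ ‖alw p r (m - 1)‖ * (‖aw p r s m‖ + ‖bw p r s m‖) := by
      refine le_trans (Complex.abs_re_le_norm _) ?_
      rw [norm_mul, Complex.norm_conj]
      exact mul_le_mul_of_nonneg_left (norm_add_le _ _) (norm_nonneg _)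
    have h5 := abs_le.1 h4
    have h6 : 2 * (‖alw p r (m - 1)‖ * (‖aw p r s m‖ + ‖bw p r s m‖))
        ≤ 2 * ‖alw p r (m - 1)‖ ^ 2 + (‖aw p r s m‖ ^ 2 + ‖bw p r s m‖ ^ 2) := by
      nlinarith [sq_nonneg (‖alw p r (m - 1)‖ - ‖aw p r s m‖), sq_nonneg (‖alw p r (m - 1)‖ - ‖bw p r s m‖)]
    have h7 := sq_nonneg ‖s (m - 1)‖
    have h8 := sq_nonneg ‖alw p r (m - 1)‖
    rw [abs_le]
    constructor
    · nlinarith [h5.1, sq_nonneg ‖aw p r s m‖, sq_nonneg ‖bw p r s m‖]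
    · nlinarith [h5.2]
  · have e : alw p r (m - 1) = 0 := by
      unfold alw
      rw [h.po _ hm, h.ro _ hm]
      simp
    rw [e, aw_odd h hm, bw_odd h hm]
    simp only [norm_zero, zero_mul, Complex.zero_re, mul_zero]
    rw [abs_of_nonneg (by positivity)]
    nlinarith [sq_nonneg ‖p (m - 1)‖, sq_nonneg ‖r (m - 1)‖]

theorem shift_idx (K : ℤ) (g : ℤ → ℝ) :
    ∑ m ∈ Finset.Icc (1 - K) (1 + K), g (m - 1) = ∑ n ∈ Finset.Icc (-K) K, g n := by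
  refine Finset.sum_nbij' (fun m => m - 1) (fun n => n + 1) ?_ ?_ ?_ ?_ ?_
  · intro m hm
    rw [Finset.mem_Icc] at hm ⊢
    omega
  · intro n hn
    rw [Finset.mem_Icc] at hn ⊢
    omega
  · intro m _
    ring
  · intro n _
    ring
  · intro m _
    rfl

/-- THE PASSAGE: head certificate at `(d', k')` gives all sections at `(d, k)`. -/
theorem rest {d k d' k' ph f e2 e3 s2 G gs gp gr : ℝ} {K N : ℕ} (hK : 1 ≤ K) (hN : K + 1 ≤ N)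
    (head : StHead d' k' ph f e2 e3 s2 G gs gp gr K)
    {σ R κ l D gs' gp' gr' : ℝ} (hσ1 : σ < 1) (hk : 3 / 2 * |k| ≤ σ) (hk' : 3 / 2 * |k'| ≤ σ)
    (hR : 0 < R) (hRσ : 1 + σ ≤ R ^ 2 * (1 - σ)) (hκ : 0 < κ) (hκσ : 1 ≤ κ ^ 2 * (1 - σ ^ 2))
    (hl : 0 < l) (hD : |d - d'| + |k - k'| ≤ D) (hf : 0 ≤ f)
    (hs : gs' ≤ gs - 2 * (D * κ + R / (K * l))) (hp : gp' ≤ gp - 6 * (D * κ + R / (K * l)))
    (hr : gr' ≤ gr - 147 / 16 * (D * κ + R / (K * l)))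
    (ts : gs' ≤ f / 2 - 2 / K - R / K * (2 * l + 1 / l))
    (tp' : gp' ≤ e2 - 18 / K - R / K * ((l + 1 / l) * 6))
    (tr : gr' ≤ e3 - 159 / 8 / K - R / K * ((l + 1 / l) * (147 / 16))) :
    StRestN d k ph f e2 e3 s2 G gs' gp' gr' N := by
  intro p r s hP
  set H := Finset.Icc (1 - (K : ℤ)) (1 + K) with hH
  set M := Finset.Icc (-(N : ℤ)) N with hM
  set LH := Finset.Icc (-(K : ℤ)) K with hLH
  set L := Finset.Icc (-((N : ℤ) + 1)) (N + 1) with hL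
  have hHM : H ⊆ M := by
    intro m hm
    rw [hH, Finset.mem_Icc] at hm
    rw [hM, Finset.mem_Icc]
    omega
  have hLHL : LH ⊆ L := by
    intro m hm
    rw [hLH, Finset.mem_Icc] at hm
    rw [hL, Finset.mem_Icc]
    omega
  set T := M \ H with hT
  set LT := L \ LH with hLT
  have hK0 : (0 : ℝ) < K := by exact_mod_cast hK
  have hTm : ∀ m ∈ T, (K : ℝ) ≤ |(m : ℝ)| := by
    intro m hm
    rw [hT, Finset.mem_sdiff, hH, hM, Finset.mem_Icc, Finset.mem_Icc] at hm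
    have h1 : (K : ℤ) ≤ |m| := by
      rcases le_total 0 m with h0 | h0
      · rw [abs_of_nonneg h0]
        omega
      · rw [abs_of_nonpos h0]
        omega
    have h2 : ((K : ℤ) : ℝ) ≤ ((|m| : ℤ) : ℝ) := by exact_mod_cast h1
    rw [Int.cast_abs] at h2
    exact_mod_cast h2
  have hTL : ∀ g : ℤ → ℝ, (∀ n, 0 ≤ g n) → ∑ m ∈ T, g (m - 1) ≤ ∑ n ∈ LT, g n := by
    intro g hg
    have h1 : ∑ m ∈ T, g (m - 1) = ∑ n ∈ T.image (fun m => m - 1), g n := by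
      rw [Finset.sum_image]
      intro a _ b _ hab
      simpa using hab
    rw [h1]
    refine Finset.sum_le_sum_of_subset_of_nonneg ?_ fun n _ _ => hg n
    intro n hn
    rw [Finset.mem_image] at hn
    obtain ⟨m, hm, rfl⟩ := hn
    rw [hT, Finset.mem_sdiff, hH, hM, Finset.mem_Icc, Finset.mem_Icc] at hm
    rw [hLT, Finset.mem_sdiff, hL, hLH, Finset.mem_Icc, Finset.mem_Icc]
    omega
  have hsh := Pool.Agent.Helper99.RC.ps
  -- the two shifts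
  have hs0 : 0 ≤ σ := le_trans (by positivity) hk
  have eps : ∀ d k : ℝ, ps d k ph = fun x => -d + k * Real.sin (3 * x + ph) := fun d k => rfl
  have g1 := shift_sin (-d) k ph (by linarith)
  have g1' : Shift (ps d k ph) (fun x => 3 * k * Real.cos (3 * x + ph)) σ := by
    rw [eps]
    exact ⟨g1.d, g1.c, g1.p, fun x => le_trans (g1.b x) (by linarith), hσ1⟩
  set a := aw p r s with ha
  set b := bw p r s with hb
  set DS : Finset ℤ → Finset ℤ → (ℝ → ℝ) → ℂ := fun A B ψ =>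
    ∑ m ∈ A, ∑ n ∈ B, a m * (starRingEnd ℂ) (b n) * KK ψ m n with hDS
  have hsplit : DS M M (ps d k ph) = DS H H (ps d' k' ph) + (DS H H (ps d k ph) - DS H H (ps d' k' ph))
      + DS T M (ps d k ph) + DS H T (ps d k ph) := by
    have h1 : DS M M (ps d k ph) = DS T M (ps d k ph) + DS H M (ps d k ph) := by
      rw [hDS]
      simp only
      rw [hT, Finset.sum_sdiff hHM]
    have h2 : DS H M (ps d k ph) = DS H T (ps d k ph) + DS H H (ps d k ph) := by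
      rw [hDS]
      simp only
      rw [← Finset.sum_add_distrib]
      refine Finset.sum_congr rfl fun m _ => ?_
      rw [hT, Finset.sum_sdiff hHM]
    rw [h1, h2]
    ring
  -- the three estimates
  have E1 : 2 * ‖DS H H (ps d k ph) - DS H H (ps d' k' ph)‖
      ≤ D * κ * (∑ m ∈ H, ‖a m‖ ^ 2 + ∑ m ∈ H, ‖b m‖ ^ 2) := by
    have h1 := pert_sin (-d) k (-d') k' ph σ hk hk' hσ1 hκ hκσ H H a b
    have h2 : DS H H (ps d k ph) - DS H H (ps d' k' ph)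
        = ∑ m ∈ H, ∑ n ∈ H, a m * (starRingEnd ℂ) (b n) * (KK (ps d k ph) m n - KK (ps d' k' ph) m n) := by
      rw [hDS]
      simp only
      rw [← Finset.sum_sub_distrib]
      refine Finset.sum_congr rfl fun m _ => ?_
      rw [← Finset.sum_sub_distrib]
      refine Finset.sum_congr rfl fun n _ => ?_
      ring
    rw [h2]
    refine le_trans h1 ?_
    have h3 : |-d - -d'| = |d - d'| := by
      rw [show -d - -d' = -(d - d') by ring, abs_neg]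
    rw [h3]
    have h4 : 0 ≤ ∑ m ∈ H, ‖a m‖ ^ 2 + ∑ m ∈ H, ‖b m‖ ^ 2 :=
      add_nonneg (Finset.sum_nonneg fun m _ => by positivity) (Finset.sum_nonneg fun m _ => by positivity)
    exact mul_le_mul_of_nonneg_right (mul_le_mul_of_nonneg_right hD hκ.le) h4
  have E2 := cross_a g1' T M hK0 hTm hR hRσ hl a b
  have E3 := cross_b g1' H T hK0 hTm hR hRσ hl a b
  have hbM : ∑ m ∈ M, ‖b m‖ ^ 2 = ∑ m ∈ T, ‖b m‖ ^ 2 + ∑ m ∈ H, ‖b m‖ ^ 2 := by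
    rw [hT, Finset.sum_sdiff hHM]
  -- the head
  have hd := head p r s hP
  rw [HF_eq d' k' ph f e2 e3 s2 G K hK p r s] at hd
  unfold RF Mw at hd
  unfold RF Mw
  rw [← hH, ← hLH] at hd
  -- sums over M and L
  have hXM : ∑ m ∈ M, Xw p r s m / (m : ℝ) = ∑ m ∈ T, Xw p r s m / (m : ℝ)
      + ∑ m ∈ H, Xw p r s m / (m : ℝ) := by
    rw [hT, Finset.sum_sdiff hHM]
  have hLL : ∀ g : ℤ → ℝ, ∑ n ∈ L, g n = ∑ n ∈ LT, g n + ∑ n ∈ LH, g n := by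
    intro g
    rw [hLT, Finset.sum_sdiff hLHL]
  have hXT : -(∑ m ∈ T, (2 * ‖s (m - 1)‖ ^ 2 + 18 * ‖p (m - 1)‖ ^ 2 + 159 / 8 * ‖r (m - 1)‖ ^ 2)) / K
      ≤ ∑ m ∈ T, Xw p r s m / (m : ℝ) := by
    rw [neg_div, Finset.sum_div, ← Finset.sum_neg_distrib]
    refine Finset.sum_le_sum fun m hm => ?_
    have h1 := Xw_le hP m
    have h2 := hTm m hm
    have h3 : |Xw p r s m / (m : ℝ)| ≤ (2 * ‖s (m - 1)‖ ^ 2 + 18 * ‖p (m - 1)‖ ^ 2
        + 159 / 8 * ‖r (m - 1)‖ ^ 2) / K := by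
      rw [abs_div]
      exact div_le_div₀ (by positivity) h1 hK0 h2
    exact (abs_le.1 h3).1
  have hXT2 : ∑ m ∈ T, (2 * ‖s (m - 1)‖ ^ 2 + 18 * ‖p (m - 1)‖ ^ 2 + 159 / 8 * ‖r (m - 1)‖ ^ 2)
      ≤ ∑ n ∈ LT, (2 * ‖s n‖ ^ 2 + 18 * ‖p n‖ ^ 2 + 159 / 8 * ‖r n‖ ^ 2) :=
    hTL (fun n => 2 * ‖s n‖ ^ 2 + 18 * ‖p n‖ ^ 2 + 159 / 8 * ‖r n‖ ^ 2) fun n => by positivity
  have hTl : ∑ m ∈ T, (l * ‖a m‖ ^ 2 + (l + 1 / l) * ‖b m‖ ^ 2)
      ≤ ∑ n ∈ LT, ((2 * l + 1 / l) * ‖s n‖ ^ 2 + (l + 1 / l) * (6 * ‖p n‖ ^ 2 + 147 / 16 * ‖r n‖ ^ 2)) := by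
    refine le_trans (Finset.sum_le_sum fun m _ => abl_le hP hl m) ?_
    exact hTL (fun n => (2 * l + 1 / l) * ‖s n‖ ^ 2
      + (l + 1 / l) * (6 * ‖p n‖ ^ 2 + 147 / 16 * ‖r n‖ ^ 2)) fun n => by positivity
  have hHV : ∑ m ∈ H, ‖a m‖ ^ 2 + ∑ m ∈ H, ‖b m‖ ^ 2 ≤ ∑ n ∈ LH, Vw p r s n := by
    rw [← Finset.sum_add_distrib]
    refine le_trans (Finset.sum_le_sum fun m _ => ab_le hP m) ?_
    rw [hH, shift_idx (K : ℤ) (Vw p r s)]
  -- the local part of the tail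
  have hLTs : ∑ n ∈ LT, (f / 2 * ‖s n‖ ^ 2 + e2 * ‖p n‖ ^ 2 + e3 * ‖r n‖ ^ 2)
      ≤ ∑ n ∈ LT, Lw f e2 e3 p r s n := by
    have hsym : ∑ n ∈ LT, ‖s (-n)‖ ^ 2 = ∑ n ∈ LT, ‖s n‖ ^ 2 := by
      refine Finset.sum_nbij' (fun n => -n) (fun n => -n) ?_ ?_ ?_ ?_ ?_
      · intro n hn
        rw [hLT, Finset.mem_sdiff, hL, hLH, Finset.mem_Icc, Finset.mem_Icc] at hn ⊢
        omega
      · intro n hn
        rw [hLT, Finset.mem_sdiff, hL, hLH, Finset.mem_Icc, Finset.mem_Icc] at hn ⊢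
        omega
      · intro n _
        ring
      · intro n _
        ring
      · intro n _
        rfl
    have h1 : ∀ n, f * (1 / 2 * ‖s n‖ ^ 2 + 1 / 4 * (‖s n‖ ^ 2 - ‖s (-n)‖ ^ 2)) + e2 * ‖p n‖ ^ 2
        + e3 * ‖r n‖ ^ 2 ≤ Lw f e2 e3 p r s n := by
      intro n
      unfold Lw
      have h2 : |(s n * s (-n)).re| ≤ ‖s n‖ * ‖s (-n)‖ := by
        refine le_trans (Complex.abs_re_le_norm _) ?_
        rw [norm_mul]
      have h3 := (abs_le.1 h2).1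
      have h4 : 1 / 2 * ‖s n‖ ^ 2 + 1 / 4 * (‖s n‖ ^ 2 - ‖s (-n)‖ ^ 2)
          ≤ ‖s n‖ ^ 2 + 1 / 2 * (s n * s (-n)).re := by
        nlinarith [sq_nonneg (‖s n‖ - ‖s (-n)‖)]
      have h5 := mul_le_mul_of_nonneg_left h4 hf
      linarith
    refine le_trans (le_of_eq ?_) (Finset.sum_le_sum fun n _ => h1 n)
    have h6 : ∑ n ∈ LT, (f * (1 / 2 * ‖s n‖ ^ 2 + 1 / 4 * (‖s n‖ ^ 2 - ‖s (-n)‖ ^ 2)) + e2 * ‖p n‖ ^ 2
        + e3 * ‖r n‖ ^ 2) = ∑ n ∈ LT, (f / 2 * ‖s n‖ ^ 2 + e2 * ‖p n‖ ^ 2 + e3 * ‖r n‖ ^ 2)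
          + f / 4 * (∑ n ∈ LT, ‖s n‖ ^ 2 - ∑ n ∈ LT, ‖s (-n)‖ ^ 2) := by
      rw [← Finset.sum_sub_distrib, Finset.mul_sum, ← Finset.sum_add_distrib]
      refine Finset.sum_congr rfl fun n _ => ?_
      ring
    rw [h6, hsym, sub_self, mul_zero, add_zero]
  -- coefficientwise
  set c := D * κ + R / (K * l) with hc
  have F1 : ∑ n ∈ LH, (gs' * ‖s n‖ ^ 2 + gp' * ‖p n‖ ^ 2 + gr' * ‖r n‖ ^ 2) + c * ∑ n ∈ LH, Vw p r s n
      ≤ ∑ n ∈ LH, (gs * ‖s n‖ ^ 2 + gp * ‖p n‖ ^ 2 + gr * ‖r n‖ ^ 2) := by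
    rw [Finset.mul_sum, ← Finset.sum_add_distrib]
    refine Finset.sum_le_sum fun n _ => ?_
    unfold Vw
    nlinarith [mul_le_mul_of_nonneg_right hs (sq_nonneg ‖s n‖),
      mul_le_mul_of_nonneg_right hp (sq_nonneg ‖p n‖), mul_le_mul_of_nonneg_right hr (sq_nonneg ‖r n‖)]
  have F2 : ∑ n ∈ LT, (gs' * ‖s n‖ ^ 2 + gp' * ‖p n‖ ^ 2 + gr' * ‖r n‖ ^ 2)
      ≤ ∑ n ∈ LT, (f / 2 * ‖s n‖ ^ 2 + e2 * ‖p n‖ ^ 2 + e3 * ‖r n‖ ^ 2)
        - (∑ n ∈ LT, (2 * ‖s n‖ ^ 2 + 18 * ‖p n‖ ^ 2 + 159 / 8 * ‖r n‖ ^ 2)) / K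
        - R / K * ∑ n ∈ LT, ((2 * l + 1 / l) * ‖s n‖ ^ 2
          + (l + 1 / l) * (6 * ‖p n‖ ^ 2 + 147 / 16 * ‖r n‖ ^ 2)) := by
    rw [Finset.sum_div, Finset.mul_sum, ← Finset.sum_sub_distrib, ← Finset.sum_sub_distrib]
    refine Finset.sum_le_sum fun n _ => ?_
    have h1 := mul_le_mul_of_nonneg_right ts (sq_nonneg ‖s n‖)
    have h2 := mul_le_mul_of_nonneg_right tp' (sq_nonneg ‖p n‖)
    have h3 := mul_le_mul_of_nonneg_right tr (sq_nonneg ‖r n‖)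
    have h4 : (2 * ‖s n‖ ^ 2 + 18 * ‖p n‖ ^ 2 + 159 / 8 * ‖r n‖ ^ 2) / (K : ℝ)
        = 2 / K * ‖s n‖ ^ 2 + 18 / K * ‖p n‖ ^ 2 + 159 / 8 / K * ‖r n‖ ^ 2 := by
      ring
    rw [h4]
    linarith
  have F3 : R / K * (l * ∑ m ∈ T, ‖a m‖ ^ 2 + 1 / l * ∑ m ∈ M, ‖b m‖ ^ 2)
      + R / K * (1 / l * ∑ m ∈ H, ‖a m‖ ^ 2 + l * ∑ m ∈ T, ‖b m‖ ^ 2)
      = R / K * ∑ m ∈ T, (l * ‖a m‖ ^ 2 + (l + 1 / l) * ‖b m‖ ^ 2)
        + R / (K * l) * (∑ m ∈ H, ‖a m‖ ^ 2 + ∑ m ∈ H, ‖b m‖ ^ 2) := by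
    rw [hbM, Finset.sum_add_distrib, ← Finset.mul_sum, ← Finset.mul_sum]
    field_simp
    ring
  have F4 : R / K * ∑ m ∈ T, (l * ‖a m‖ ^ 2 + (l + 1 / l) * ‖b m‖ ^ 2)
      ≤ R / K * ∑ n ∈ LT, ((2 * l + 1 / l) * ‖s n‖ ^ 2
          + (l + 1 / l) * (6 * ‖p n‖ ^ 2 + 147 / 16 * ‖r n‖ ^ 2)) :=
    mul_le_mul_of_nonneg_left hTl (by positivity)
  have hDκ : 0 ≤ D * κ := mul_nonneg (le_trans (by positivity) hD) hκ.le
  have F5 : (D * κ) * (∑ m ∈ H, ‖a m‖ ^ 2 + ∑ m ∈ H, ‖b m‖ ^ 2)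
      + R / (K * l) * (∑ m ∈ H, ‖a m‖ ^ 2 + ∑ m ∈ H, ‖b m‖ ^ 2) ≤ c * ∑ n ∈ LH, Vw p r s n := by
    rw [hc, ← add_mul]
    exact mul_le_mul_of_nonneg_left hHV (by positivity)
  have F6 : -(∑ n ∈ LT, (2 * ‖s n‖ ^ 2 + 18 * ‖p n‖ ^ 2 + 159 / 8 * ‖r n‖ ^ 2)) / K
      ≤ ∑ m ∈ T, Xw p r s m / (m : ℝ) := by
    refine le_trans ?_ hXT
    rw [neg_div, neg_div, neg_le_neg_iff]
    exact div_le_div_of_nonneg_right hXT2 hK0.le
  have him : 2 * (DS M M (ps d k ph)).im ≤ 2 * (DS H H (ps d' k' ph)).im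
      + 2 * ‖DS H H (ps d k ph) - DS H H (ps d' k' ph)‖ + 2 * ‖DS T M (ps d k ph)‖
      + 2 * ‖DS H T (ps d k ph)‖ := by
    rw [hsplit]
    simp only [Complex.add_im]
    have h1 := (abs_le.1 (Complex.abs_im_le_norm (DS H H (ps d k ph) - DS H H (ps d' k' ph)))).2
    have h2 := (abs_le.1 (Complex.abs_im_le_norm (DS T M (ps d k ph)))).2
    have h3 := (abs_le.1 (Complex.abs_im_le_norm (DS H T (ps d k ph)))).2
    linarith
  have eDS : ∀ (A B : Finset ℤ) (ψ : ℝ → ℝ), ∑ m ∈ A, ∑ n ∈ B, a m * (starRingEnd ℂ) (b n) * KK ψ m n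
      = DS A B ψ := fun A B ψ => rfl
  rw [eDS] at hd E2 E3
  rw [eDS, hXM, hLL, hLL]
  rw [neg_div] at F6
  linarith

end Helper41.RC
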