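import Pool.Agent.Helper41.RC.StRG

/-!
# Project RC / SHARP, link (7): general passage from the head certificate to all sections, interpolation
-/

open MeasureTheory Set Filter

namespace Helper41.RC

open Helper49.LT (ee)
open Pool.Agent.Helper99.RC (ps NS ent)

theorem HG_eq (d k ph : ℝ) (bil : ℤ → ℝ) (f : ℝ) (e2 e3 : ℤ → ℝ) (K : ℕ) (hK : 1 ≤ K) (p r s : ℤ → ℂ) :
    HG d k ph bil f e2 e3 K p r s
      = RG (ps d k ph) bil f e2 e3 (Finset.Icc (1 - (K : ℤ)) (1 + K)) (Finset.Icc (-(K : ℤ)) K) p r s := by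
  unfold HG RG
  rw [NS_KK d k ph (M := Finset.Icc (1 - (K : ℤ)) (1 + K)) (by rw [Finset.mem_Icc]; omega)]
  have e1 : ∑ m ∈ Finset.Icc (1 - (K : ℤ)) (1 + K), Xg bil p r s m / (m : ℝ)
      = ∑ m ∈ Finset.Icc (1 - (K : ℤ)) (1 + K), (‖alw p r (m - 1)‖ ^ 2
      + 2 * bil (m - 1) * (alw p r (m - 1) * (starRingEnd ℂ) (aw p r s m + bw p r s m)).re) / (m : ℝ)
        + ∑ m ∈ Finset.Icc (1 - (K : ℤ)) (1 + K), (‖aw p r s m‖ ^ 2 + ‖bw p r s m‖ ^ 2) / (m : ℝ) := by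
    rw [← Finset.sum_add_distrib]
    refine Finset.sum_congr rfl fun m _ => ?_
    unfold Xg
    rw [← add_div]
    congr 1
    ring
  rw [e1]
  ring

theorem Xg_le {bil : ℤ → ℝ} (hb : ∀ n, |bil n| ≤ 1) {p r s : ℤ → ℂ} (h : Par p r s) (m : ℤ) :
    |Xg bil p r s m| ≤ 2 * ‖s (m - 1)‖ ^ 2 + 18 * ‖p (m - 1)‖ ^ 2 + 159 / 8 * ‖r (m - 1)‖ ^ 2 := by
  unfold Xg
  rcases Int.even_or_odd (m - 1) with hm | hm
  · have h1 := aw_even h hm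
    have h2 := bw_even h hm
    have h3 := alw_le p r (m - 1)
    have h4 : |(alw p r (m - 1) * (starRingEnd ℂ) (aw p r s m + bw p r s m)).re|
        ≤ ‖alw p r (m - 1)‖ * (‖aw p r s m‖ + ‖bw p r s m‖) := by
      refine le_trans (Complex.abs_re_le_norm _) ?_
      rw [norm_mul, Complex.norm_conj]
      exact mul_le_mul_of_nonneg_left (norm_add_le _ _) (norm_nonneg _)
    have h4' : |bil (m - 1) * (alw p r (m - 1) * (starRingEnd ℂ) (aw p r s m + bw p r s m)).re|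
        ≤ ‖alw p r (m - 1)‖ * (‖aw p r s m‖ + ‖bw p r s m‖) := by
      rw [abs_mul]
      refine le_trans (mul_le_mul (hb _) h4 (abs_nonneg _) zero_le_one) ?_
      rw [one_mul]
    have h5 := abs_le.1 h4'
    have h6 : 2 * (‖alw p r (m - 1)‖ * (‖aw p r s m‖ + ‖bw p r s m‖))
        ≤ 2 * ‖alw p r (m - 1)‖ ^ 2 + (‖aw p r s m‖ ^ 2 + ‖bw p r s m‖ ^ 2) := by
      nlinarith [sq_nonneg (‖alw p r (m - 1)‖ - ‖aw p r s m‖), sq_nonneg (‖alw p r (m - 1)‖ - ‖bw p r s m‖)]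
    have h7 := sq_nonneg ‖s (m - 1)‖
    have h8 := sq_nonneg ‖alw p r (m - 1)‖
    rw [abs_le]
    constructor
    · nlinarith [h5.1, sq_nonneg ‖aw p r s m‖, sq_nonneg ‖bw p r s m‖]
    · nlinarith [h5.2]
  · have e : alw p r (m - 1) = 0 := by
      unfold alw
      rw [h.po _ hm, h.ro _ hm]
      simp
    rw [e, aw_odd h hm, bw_odd h hm]
    simp only [norm_zero, zero_mul, Complex.zero_re, mul_zero]
    rw [abs_of_nonneg (by positivity)]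
    nlinarith [sq_nonneg ‖p (m - 1)‖, sq_nonneg ‖r (m - 1)‖]

/-- THE PASSAGE, general form: head certificate at `(d', k')` gives all sections at `(d, k)`. -/
theorem rest_gen {d k d' k' ph f : ℝ} {bil e2 e3 gs gp gr gs' gp' gr' : ℤ → ℝ} {EH ES : Seq3} {K N : ℕ}
    (hbil : ∀ n, |bil n| ≤ 1) (hK : 1 ≤ K) (hN : K + 1 ≤ N)
    (head : HeadG d' k' ph bil f e2 e3 EH gs gp gr K)
    {σ R κ l D δ₁ δ₂ : ℝ} (hσ1 : σ < 1) (hk : 3 / 2 * |k| ≤ σ) (hk' : 3 / 2 * |k'| ≤ σ)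
    (hR : 0 < R) (hRσ : 1 + σ ≤ R ^ 2 * (1 - σ)) (hκ : 0 < κ) (hκσ : 1 ≤ κ ^ 2 * (1 - σ ^ 2))
    (hl : 0 < l) (hD : |d - d'| + |k - k'| ≤ D) (hf : 0 ≤ f)
    (hE : ∀ p r s : ℤ → ℂ, Par p r s → EH p r s
      - (δ₁ * ∑ n ∈ Finset.Icc (-(K : ℤ)) K, Vw p r s n
        + δ₂ * ∑ n ∈ Finset.Icc (-((N : ℤ) + 1)) (N + 1) \ Finset.Icc (-(K : ℤ)) K, Vw p r s n) ≤ ES p r s)
    (hs : ∀ n : ℤ, |n| ≤ K → gs' n ≤ gs n - 2 * (D * κ + R / (K * l) + δ₁))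
    (hp : ∀ n : ℤ, |n| ≤ K → gp' n ≤ gp n - 6 * (D * κ + R / (K * l) + δ₁))
    (hr : ∀ n : ℤ, |n| ≤ K → gr' n ≤ gr n - 147 / 16 * (D * κ + R / (K * l) + δ₁))
    (ts : ∀ n : ℤ, (K : ℤ) < |n| → gs' n ≤ f / 2 - 2 / K - R / K * (2 * l + 1 / l) - 2 * δ₂)
    (tp' : ∀ n : ℤ, (K : ℤ) < |n| → gp' n ≤ e2 n - 18 / K - R / K * ((l + 1 / l) * 6) - 6 * δ₂)
    (tr : ∀ n : ℤ, (K : ℤ) < |n| → gr' n ≤ e3 n - 159 / 8 / K - R / K * ((l + 1 / l) * (147 / 16))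
      - 147 / 16 * δ₂) :
    RestG d k ph bil f e2 e3 ES gs' gp' gr' N := by
  intro p r s hP
  set H := Finset.Icc (1 - (K : ℤ)) (1 + K) with hH
  set M := Finset.Icc (-(N : ℤ)) N with hM
  set LH := Finset.Icc (-(K : ℤ)) K with hLH
  set L := Finset.Icc (-((N : ℤ) + 1)) (N + 1) with hL
  have hHM : H ⊆ M := by
    intro m hm
    rw [hH, Finset.mem_Icc] at hm
    rw [hM, Finset.mem_Icc]
    omega
  have hLHL : LH ⊆ L := by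
    intro m hm
    rw [hLH, Finset.mem_Icc] at hm
    rw [hL, Finset.mem_Icc]
    omega
  set T := M \ H with hT
  set LT := L \ LH with hLT
  have hK0 : (0 : ℝ) < K := by exact_mod_cast hK
  have hTm : ∀ m ∈ T, (K : ℝ) ≤ |(m : ℝ)| := by
    intro m hm
    rw [hT, Finset.mem_sdiff, hH, hM, Finset.mem_Icc, Finset.mem_Icc] at hm
    have h1 : (K : ℤ) ≤ |m| := by
      rcases le_total 0 m with h0 | h0
      · rw [abs_of_nonneg h0]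
        omega
      · rw [abs_of_nonpos h0]
        omega
    have h2 : ((K : ℤ) : ℝ) ≤ ((|m| : ℤ) : ℝ) := by exact_mod_cast h1
    rw [Int.cast_abs] at h2
    exact_mod_cast h2
  have hTL : ∀ g : ℤ → ℝ, (∀ n, 0 ≤ g n) → ∑ m ∈ T, g (m - 1) ≤ ∑ n ∈ LT, g n := by
    intro g hg
    have h1 : ∑ m ∈ T, g (m - 1) = ∑ n ∈ T.image (fun m => m - 1), g n := by
      rw [Finset.sum_image]
      intro a _ b _ hab
      simpa using hab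
    rw [h1]
    refine Finset.sum_le_sum_of_subset_of_nonneg ?_ fun n _ _ => hg n
    intro n hn
    rw [Finset.mem_image] at hn
    obtain ⟨m, hm, rfl⟩ := hn
    rw [hT, Finset.mem_sdiff, hH, hM, Finset.mem_Icc, Finset.mem_Icc] at hm
    rw [hLT, Finset.mem_sdiff, hL, hLH, Finset.mem_Icc, Finset.mem_Icc]
    omega
  have hsh := Pool.Agent.Helper99.RC.ps
  -- the two shifts
  have hs0 : 0 ≤ σ := le_trans (by positivity) hk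
  have eps : ∀ d k : ℝ, ps d k ph = fun x => -d + k * Real.sin (3 * x + ph) := fun d k => rfl
  have g1 := shift_sin (-d) k ph (by linarith)
  have g1' : Shift (ps d k ph) (fun x => 3 * k * Real.cos (3 * x + ph)) σ := by
    rw [eps]
    exact ⟨g1.d, g1.c, g1.p, fun x => le_trans (g1.b x) (by linarith), hσ1⟩
  set a := aw p r s with ha
  set b := bw p r s with hb
  set DS : Finset ℤ → Finset ℤ → (ℝ → ℝ) → ℂ := fun A B ψ =>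
    ∑ m ∈ A, ∑ n ∈ B, a m * (starRingEnd ℂ) (b n) * KK ψ m n with hDS
  have hsplit : DS M M (ps d k ph) = DS H H (ps d' k' ph) + (DS H H (ps d k ph) - DS H H (ps d' k' ph))
      + DS T M (ps d k ph) + DS H T (ps d k ph) := by
    have h1 : DS M M (ps d k ph) = DS T M (ps d k ph) + DS H M (ps d k ph) := by
      rw [hDS]
      simp only
      rw [hT, Finset.sum_sdiff hHM]
    have h2 : DS H M (ps d k ph) = DS H T (ps d k ph) + DS H H (ps d k ph) := by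
      rw [hDS]
      simp only
      rw [← Finset.sum_add_distrib]
      refine Finset.sum_congr rfl fun m _ => ?_
      rw [hT, Finset.sum_sdiff hHM]
    rw [h1, h2]
    ring
  -- the three estimates
  have E1 : 2 * ‖DS H H (ps d k ph) - DS H H (ps d' k' ph)‖
      ≤ D * κ * (∑ m ∈ H, ‖a m‖ ^ 2 + ∑ m ∈ H, ‖b m‖ ^ 2) := by
    have h1 := pert_sin (-d) k (-d') k' ph σ hk hk' hσ1 hκ hκσ H H a b
    have h2 : DS H H (ps d k ph) - DS H H (ps d' k' ph)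
        = ∑ m ∈ H, ∑ n ∈ H, a m * (starRingEnd ℂ) (b n) * (KK (ps d k ph) m n - KK (ps d' k' ph) m n) := by
      rw [hDS]
      simp only
      rw [← Finset.sum_sub_distrib]
      refine Finset.sum_congr rfl fun m _ => ?_
      rw [← Finset.sum_sub_distrib]
      refine Finset.sum_congr rfl fun n _ => ?_
      ring
    rw [h2]
    refine le_trans h1 ?_
    have h3 : |-d - -d'| = |d - d'| := by
      rw [show -d - -d' = -(d - d') by ring, abs_neg]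
    rw [h3]
    have h4 : 0 ≤ ∑ m ∈ H, ‖a m‖ ^ 2 + ∑ m ∈ H, ‖b m‖ ^ 2 :=
      add_nonneg (Finset.sum_nonneg fun m _ => by positivity) (Finset.sum_nonneg fun m _ => by positivity)
    exact mul_le_mul_of_nonneg_right (mul_le_mul_of_nonneg_right hD hκ.le) h4
  have E2 := cross_a g1' T M hK0 hTm hR hRσ hl a b
  have E3 := cross_b g1' H T hK0 hTm hR hRσ hl a b
  have hbM : ∑ m ∈ M, ‖b m‖ ^ 2 = ∑ m ∈ T, ‖b m‖ ^ 2 + ∑ m ∈ H, ‖b m‖ ^ 2 := by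
    rw [hT, Finset.sum_sdiff hHM]
  -- the head
  have hd := head p r s hP
  have hEE := hE p r s hP
  rw [HG_eq d' k' ph bil f e2 e3 K hK p r s] at hd
  unfold RG MG at hd
  unfold RG MG
  -- sums over M and L
  have hXM : ∑ m ∈ M, Xg bil p r s m / (m : ℝ) = ∑ m ∈ T, Xg bil p r s m / (m : ℝ)
      + ∑ m ∈ H, Xg bil p r s m / (m : ℝ) := by
    rw [hT, Finset.sum_sdiff hHM]
  have hLL : ∀ g : ℤ → ℝ, ∑ n ∈ L, g n = ∑ n ∈ LT, g n + ∑ n ∈ LH, g n := by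
    intro g
    rw [hLT, Finset.sum_sdiff hLHL]
  have hXT : -(∑ m ∈ T, (2 * ‖s (m - 1)‖ ^ 2 + 18 * ‖p (m - 1)‖ ^ 2 + 159 / 8 * ‖r (m - 1)‖ ^ 2)) / K
      ≤ ∑ m ∈ T, Xg bil p r s m / (m : ℝ) := by
    rw [neg_div, Finset.sum_div, ← Finset.sum_neg_distrib]
    refine Finset.sum_le_sum fun m hm => ?_
    have h1 := Xg_le hbil hP m
    have h2 := hTm m hm
    have h3 : |Xg bil p r s m / (m : ℝ)| ≤ (2 * ‖s (m - 1)‖ ^ 2 + 18 * ‖p (m - 1)‖ ^ 2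
        + 159 / 8 * ‖r (m - 1)‖ ^ 2) / K := by
      rw [abs_div]
      exact div_le_div₀ (by positivity) h1 hK0 h2
    exact (abs_le.1 h3).1
  have hXT2 : ∑ m ∈ T, (2 * ‖s (m - 1)‖ ^ 2 + 18 * ‖p (m - 1)‖ ^ 2 + 159 / 8 * ‖r (m - 1)‖ ^ 2)
      ≤ ∑ n ∈ LT, (2 * ‖s n‖ ^ 2 + 18 * ‖p n‖ ^ 2 + 159 / 8 * ‖r n‖ ^ 2) :=
    hTL (fun n => 2 * ‖s n‖ ^ 2 + 18 * ‖p n‖ ^ 2 + 159 / 8 * ‖r n‖ ^ 2) fun n => by positivity
  have hTl : ∑ m ∈ T, (l * ‖a m‖ ^ 2 + (l + 1 / l) * ‖b m‖ ^ 2)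
      ≤ ∑ n ∈ LT, ((2 * l + 1 / l) * ‖s n‖ ^ 2 + (l + 1 / l) * (6 * ‖p n‖ ^ 2 + 147 / 16 * ‖r n‖ ^ 2)) := by
    refine le_trans (Finset.sum_le_sum fun m _ => abl_le hP hl m) ?_
    exact hTL (fun n => (2 * l + 1 / l) * ‖s n‖ ^ 2
      + (l + 1 / l) * (6 * ‖p n‖ ^ 2 + 147 / 16 * ‖r n‖ ^ 2)) fun n => by positivity
  have hHV : ∑ m ∈ H, ‖a m‖ ^ 2 + ∑ m ∈ H, ‖b m‖ ^ 2 ≤ ∑ n ∈ LH, Vw p r s n := by
    rw [← Finset.sum_add_distrib]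
    refine le_trans (Finset.sum_le_sum fun m _ => ab_le hP m) ?_
    rw [hH, shift_idx (K : ℤ) (Vw p r s)]
  -- the local part of the tail
  have hLTs : ∑ n ∈ LT, (f / 2 * ‖s n‖ ^ 2 + e2 n * ‖p n‖ ^ 2 + e3 n * ‖r n‖ ^ 2)
      ≤ ∑ n ∈ LT, Lg f e2 e3 p r s n := by
    have hsym : ∑ n ∈ LT, ‖s (-n)‖ ^ 2 = ∑ n ∈ LT, ‖s n‖ ^ 2 := by
      refine Finset.sum_nbij' (fun n => -n) (fun n => -n) ?_ ?_ ?_ ?_ ?_
      · intro n hn
        rw [hLT, Finset.mem_sdiff, hL, hLH, Finset.mem_Icc, Finset.mem_Icc] at hn ⊢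
        omega
      · intro n hn
        rw [hLT, Finset.mem_sdiff, hL, hLH, Finset.mem_Icc, Finset.mem_Icc] at hn ⊢
        omega
      · intro n _
        ring
      · intro n _
        ring
      · intro n _
        rfl
    have h1 : ∀ n, f * (1 / 2 * ‖s n‖ ^ 2 + 1 / 4 * (‖s n‖ ^ 2 - ‖s (-n)‖ ^ 2)) + e2 n * ‖p n‖ ^ 2
        + e3 n * ‖r n‖ ^ 2 ≤ Lg f e2 e3 p r s n := by
      intro n
      unfold Lg
      have h2 : |(s n * s (-n)).re| ≤ ‖s n‖ * ‖s (-n)‖ := by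
        refine le_trans (Complex.abs_re_le_norm _) ?_
        rw [norm_mul]
      have h3 := (abs_le.1 h2).1
      have h4 : 1 / 2 * ‖s n‖ ^ 2 + 1 / 4 * (‖s n‖ ^ 2 - ‖s (-n)‖ ^ 2)
          ≤ ‖s n‖ ^ 2 + 1 / 2 * (s n * s (-n)).re := by
        nlinarith [sq_nonneg (‖s n‖ - ‖s (-n)‖)]
      have h5 := mul_le_mul_of_nonneg_left h4 hf
      linarith
    refine le_trans (le_of_eq ?_) (Finset.sum_le_sum fun n _ => h1 n)
    have h6 : ∑ n ∈ LT, (f * (1 / 2 * ‖s n‖ ^ 2 + 1 / 4 * (‖s n‖ ^ 2 - ‖s (-n)‖ ^ 2)) + e2 n * ‖p n‖ ^ 2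
        + e3 n * ‖r n‖ ^ 2) = ∑ n ∈ LT, (f / 2 * ‖s n‖ ^ 2 + e2 n * ‖p n‖ ^ 2 + e3 n * ‖r n‖ ^ 2)
          + f / 4 * (∑ n ∈ LT, ‖s n‖ ^ 2 - ∑ n ∈ LT, ‖s (-n)‖ ^ 2) := by
      rw [← Finset.sum_sub_distrib, Finset.mul_sum, ← Finset.sum_add_distrib]
      refine Finset.sum_congr rfl fun n _ => ?_
      ring
    rw [h6, hsym, sub_self, mul_zero, add_zero]
  -- coefficientwise
  set c := D * κ + R / (K * l) with hc
  have F1 : ∑ n ∈ LH, (gs' n * ‖s n‖ ^ 2 + gp' n * ‖p n‖ ^ 2 + gr' n * ‖r n‖ ^ 2)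
      + (c + δ₁) * ∑ n ∈ LH, Vw p r s n
      ≤ ∑ n ∈ LH, (gs n * ‖s n‖ ^ 2 + gp n * ‖p n‖ ^ 2 + gr n * ‖r n‖ ^ 2) := by
    rw [Finset.mul_sum, ← Finset.sum_add_distrib]
    refine Finset.sum_le_sum fun n hn => ?_
    have hnK : |n| ≤ (K : ℤ) := by
      rw [hLH, Finset.mem_Icc] at hn
      exact abs_le.2 hn
    unfold Vw
    nlinarith [mul_le_mul_of_nonneg_right (hs n hnK) (sq_nonneg ‖s n‖),
      mul_le_mul_of_nonneg_right (hp n hnK) (sq_nonneg ‖p n‖),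
      mul_le_mul_of_nonneg_right (hr n hnK) (sq_nonneg ‖r n‖)]
  have F2 : ∑ n ∈ LT, (gs' n * ‖s n‖ ^ 2 + gp' n * ‖p n‖ ^ 2 + gr' n * ‖r n‖ ^ 2)
      + δ₂ * ∑ n ∈ LT, Vw p r s n
      ≤ ∑ n ∈ LT, (f / 2 * ‖s n‖ ^ 2 + e2 n * ‖p n‖ ^ 2 + e3 n * ‖r n‖ ^ 2)
        - (∑ n ∈ LT, (2 * ‖s n‖ ^ 2 + 18 * ‖p n‖ ^ 2 + 159 / 8 * ‖r n‖ ^ 2)) / K
        - R / K * ∑ n ∈ LT, ((2 * l + 1 / l) * ‖s n‖ ^ 2
          + (l + 1 / l) * (6 * ‖p n‖ ^ 2 + 147 / 16 * ‖r n‖ ^ 2)) := by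
    rw [Finset.sum_div, Finset.mul_sum, Finset.mul_sum, ← Finset.sum_sub_distrib,
      ← Finset.sum_sub_distrib, ← Finset.sum_add_distrib]
    refine Finset.sum_le_sum fun n hn => ?_
    have hnK : (K : ℤ) < |n| := by
      rw [hLT, Finset.mem_sdiff] at hn
      by_contra h
      exact hn.2 (by rw [hLH, Finset.mem_Icc]; exact abs_le.1 (not_lt.1 h))
    have h1 := mul_le_mul_of_nonneg_right (ts n hnK) (sq_nonneg ‖s n‖)
    have h2 := mul_le_mul_of_nonneg_right (tp' n hnK) (sq_nonneg ‖p n‖)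
    have h3 := mul_le_mul_of_nonneg_right (tr n hnK) (sq_nonneg ‖r n‖)
    unfold Vw
    have h4 : (2 * ‖s n‖ ^ 2 + 18 * ‖p n‖ ^ 2 + 159 / 8 * ‖r n‖ ^ 2) / (K : ℝ)
        = 2 / K * ‖s n‖ ^ 2 + 18 / K * ‖p n‖ ^ 2 + 159 / 8 / K * ‖r n‖ ^ 2 := by
      ring
    rw [h4]
    linarith
  have F3 : R / K * (l * ∑ m ∈ T, ‖a m‖ ^ 2 + 1 / l * ∑ m ∈ M, ‖b m‖ ^ 2)
      + R / K * (1 / l * ∑ m ∈ H, ‖a m‖ ^ 2 + l * ∑ m ∈ T, ‖b m‖ ^ 2)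
      = R / K * ∑ m ∈ T, (l * ‖a m‖ ^ 2 + (l + 1 / l) * ‖b m‖ ^ 2)
        + R / (K * l) * (∑ m ∈ H, ‖a m‖ ^ 2 + ∑ m ∈ H, ‖b m‖ ^ 2) := by
    rw [hbM, Finset.sum_add_distrib, ← Finset.mul_sum, ← Finset.mul_sum]
    field_simp
    ring
  have F4 : R / K * ∑ m ∈ T, (l * ‖a m‖ ^ 2 + (l + 1 / l) * ‖b m‖ ^ 2)
      ≤ R / K * ∑ n ∈ LT, ((2 * l + 1 / l) * ‖s n‖ ^ 2
          + (l + 1 / l) * (6 * ‖p n‖ ^ 2 + 147 / 16 * ‖r n‖ ^ 2)) :=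
    mul_le_mul_of_nonneg_left hTl (by positivity)
  have hDκ : 0 ≤ D * κ := mul_nonneg (le_trans (by positivity) hD) hκ.le
  have F5 : (D * κ) * (∑ m ∈ H, ‖a m‖ ^ 2 + ∑ m ∈ H, ‖b m‖ ^ 2)
      + R / (K * l) * (∑ m ∈ H, ‖a m‖ ^ 2 + ∑ m ∈ H, ‖b m‖ ^ 2) ≤ c * ∑ n ∈ LH, Vw p r s n := by
    rw [hc, ← add_mul]
    exact mul_le_mul_of_nonneg_left hHV (by positivity)
  have F6 : -(∑ n ∈ LT, (2 * ‖s n‖ ^ 2 + 18 * ‖p n‖ ^ 2 + 159 / 8 * ‖r n‖ ^ 2)) / K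
      ≤ ∑ m ∈ T, Xg bil p r s m / (m : ℝ) := by
    refine le_trans ?_ hXT
    rw [neg_div, neg_div, neg_le_neg_iff]
    exact div_le_div_of_nonneg_right hXT2 hK0.le
  have him : 2 * (DS M M (ps d k ph)).im ≤ 2 * (DS H H (ps d' k' ph)).im
      + 2 * ‖DS H H (ps d k ph) - DS H H (ps d' k' ph)‖ + 2 * ‖DS T M (ps d k ph)‖
      + 2 * ‖DS H T (ps d k ph)‖ := by
    rw [hsplit]
    simp only [Complex.add_im]
    have h1 := (abs_le.1 (Complex.abs_im_le_norm (DS H H (ps d k ph) - DS H H (ps d' k' ph)))).2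
    have h2 := (abs_le.1 (Complex.abs_im_le_norm (DS T M (ps d k ph)))).2
    have h3 := (abs_le.1 (Complex.abs_im_le_norm (DS H T (ps d k ph)))).2
    linarith
  have eDS : ∀ (A B : Finset ℤ) (ψ : ℝ → ℝ), ∑ m ∈ A, ∑ n ∈ B, a m * (starRingEnd ℂ) (b n) * KK ψ m n
      = DS A B ψ := fun A B ψ => rfl
  rw [eDS] at hd E2 E3
  rw [eDS, hXM, hLL, hLL]
  rw [neg_div] at F6
  linarith

/-- INTERPOLATION of head certificates, general form -/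
theorem headG_interp {d₀ k₀ d₁ k₁ ph f : ℝ} {bil e2 e3 gs gp gr gs' gp' gr' : ℤ → ℝ} {E : Seq3} {K : ℕ}
    (hK : 1 ≤ K) (H0 : HeadG d₀ k₀ ph bil f e2 e3 E gs gp gr K)
    (H1 : HeadG d₁ k₁ ph bil f e2 e3 E gs gp gr K) {σ D κ : ℝ} (hσ1 : σ < 1) (hk₀ : 3 / 2 * |k₀| ≤ σ) (hk₁ : 3 / 2 * |k₁| ≤ σ)
    (hκ : 0 < κ) (hκσ : 1 ≤ κ ^ 2 * (1 - σ ^ 2)) (hD : |d₀ - d₁| + |k₀ - k₁| ≤ D)
    (hs : ∀ n : ℤ, |n| ≤ K → gs' n ≤ gs n - κ * D ^ 2 * ((K : ℝ) + 1) / 4) (hp : ∀ n : ℤ, |n| ≤ K → gp' n ≤ gp n - 3 * (κ * D ^ 2 * ((K : ℝ) + 1)) / 4)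
    (hr : ∀ n : ℤ, |n| ≤ K → gr' n ≤ gr n - 147 / 128 * (κ * D ^ 2 * ((K : ℝ) + 1)))
    {t : ℝ} (h0 : 0 ≤ t) (h1 : t ≤ 1) :
    HeadG ((1 - t) * d₀ + t * d₁) ((1 - t) * k₀ + t * k₁) ph bil f e2 e3 E gs' gp' gr' K := by
  intro p r s hP
  have a0 := H0 p r s hP
  have a1 := H1 p r s hP
  rw [HG_eq _ _ _ _ _ _ _ K hK] at a0 a1 ⊢
  have hs0 : 0 ≤ σ := le_trans (by positivity) hk₀
  have g0 := shift_sin (-d₀) k₀ ph (by linarith)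
  have g0' : Shift (ps d₀ k₀ ph) (fun x => 3 * k₀ * Real.cos (3 * x + ph)) σ :=
    ⟨g0.d, g0.c, g0.p, fun x => le_trans (g0.b x) (by linarith), hσ1⟩
  have g1 := shift_sin (-d₁) k₁ ph (by linarith)
  have g1' : Shift (ps d₁ k₁ ph) (fun x => 3 * k₁ * Real.cos (3 * x + ph)) σ :=
    ⟨g1.d, g1.c, g1.p, fun x => le_trans (g1.b x) (by linarith), hσ1⟩
  set H := Finset.Icc (1 - (K : ℤ)) (1 + K) with hH
  have hHm : ∀ m ∈ H, |(m : ℝ)| ≤ (K : ℝ) + 1 := by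
    intro m hm
    rw [hH, Finset.mem_Icc] at hm
    have h2 : |m| ≤ (K : ℤ) + 1 := by
      rw [abs_le]
      omega
    have h3 : ((|m| : ℤ) : ℝ) ≤ (((K : ℤ) + 1 : ℤ) : ℝ) := by exact_mod_cast h2
    rw [Int.cast_abs] at h3
    push_cast at h3
    exact h3
  have hDx : ∀ x, |ps d₁ k₁ ph x - ps d₀ k₀ ph x| ≤ D := by
    intro x
    unfold ps
    have e : -d₁ + k₁ * Real.sin (3 * x + ph) - (-d₀ + k₀ * Real.sin (3 * x + ph))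
        = (d₀ - d₁) + (k₁ - k₀) * Real.sin (3 * x + ph) := by ring
    rw [e]
    refine le_trans (abs_add_le _ _) ?_
    rw [abs_mul, abs_sub_comm k₁ k₀]
    have h2 := Real.abs_sin_le_one (3 * x + ph)
    nlinarith [abs_nonneg (k₀ - k₁)]
  have hi := interp g1' g0' hDx hκ hκσ H (by positivity : (0 : ℝ) < (K : ℝ) + 1) hHm (aw p r s) (bw p r s) h0 h1
  have hfun : (fun x => ps d₀ k₀ ph x + t * (ps d₁ k₁ ph x - ps d₀ k₀ ph x))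
      = ps ((1 - t) * d₀ + t * d₁) ((1 - t) * k₀ + t * k₁) ph := by
    funext x
    unfold ps
    ring
  rw [hfun] at hi
  unfold RG at a0 a1 ⊢
  have hV : ∑ m ∈ H, ‖aw p r s m‖ ^ 2 + ∑ m ∈ H, ‖bw p r s m‖ ^ 2
      ≤ ∑ n ∈ Finset.Icc (-(K : ℤ)) K, Vw p r s n := by
    rw [← Finset.sum_add_distrib]
    refine le_trans (Finset.sum_le_sum fun m _ => ab_le hP m) ?_
    rw [hH, shift_idx (K : ℤ) (Vw p r s)]
  have hD0 : 0 ≤ D := le_trans (abs_nonneg _) (hDx 0)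
  have hM : MG gs' gp' gr' (Finset.Icc (-(K : ℤ)) K) p r s
      + κ * D ^ 2 * ((K : ℝ) + 1) / 8 * ∑ n ∈ Finset.Icc (-(K : ℤ)) K, Vw p r s n
      ≤ MG gs gp gr (Finset.Icc (-(K : ℤ)) K) p r s := by
    unfold MG
    rw [Finset.mul_sum, ← Finset.sum_add_distrib]
    refine Finset.sum_le_sum fun n hn => ?_
    have hnK : |n| ≤ (K : ℤ) := by
      rw [Finset.mem_Icc] at hn
      exact abs_le.2 hn
    unfold Vw
    nlinarith [mul_le_mul_of_nonneg_right (hs n hnK) (sq_nonneg ‖s n‖),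
      mul_le_mul_of_nonneg_right (hp n hnK) (sq_nonneg ‖p n‖),
      mul_le_mul_of_nonneg_right (hr n hnK) (sq_nonneg ‖r n‖)]
  have hc := mul_le_mul_of_nonneg_left hV (by positivity : 0 ≤ κ * D ^ 2 * ((K : ℝ) + 1) / 8)
  have b0 := mul_le_mul_of_nonneg_left a0 (sub_nonneg.2 h1)
  have b1 := mul_le_mul_of_nonneg_left a1 h0
  nlinarith [hi, hM, hc, b0, b1]


end Helper41.RC
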