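import Mathlib

/-!
# Project RC / SHARP, link (7e): the tail of the shifted arrangement form

Families `f = ∑ a m e^{imφ}`, `g = ∑ b m e^{imφ}` with frequencies `|m| ≥ m₁`, shift `ψ` of class `C¹`, period `2π`,
`|ψ'| ≤ 2 s < 2`. The mixed term of the form `[N]_ψ` is `-2 Im ∑ a m conj (b n) K' m n`,
`K' m n = (2/(i (m+n))) av (e^{i(m-n)φ} e^{i(m+n)ψ/2})` (`av (ψ e^{i(m-n)φ})` for `m + n = 0`).
It is at most `(R/m₁) (∑ ‖a m‖² + ∑ ‖b m‖²)` if `1 + s ≤ R² (1 - s)`.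
-/

open MeasureTheory Set Filter intervalIntegral

namespace Helper41.RC

/-- `e^{ix}` -/
noncomputable def ex (x : ℝ) : ℂ := Complex.exp (x * Complex.I)

theorem ex_add (x y : ℝ) : ex (x + y) = ex x * ex y := by
  unfold ex
  rw [← Complex.exp_add]
  congr 1
  push_cast
  ring

theorem ex_norm (x : ℝ) : ‖ex x‖ = 1 := by
  unfold ex
  exact Complex.norm_exp_ofReal_mul_I x

theorem ex_conj (x : ℝ) : (starRingEnd ℂ) (ex x) = ex (-x) := by
  unfold ex
  rw [← Complex.exp_conj]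
  congr 1
  rw [map_mul, Complex.conj_ofReal, Complex.conj_I]
  push_cast
  ring

theorem ex_int_two_pi (m : ℤ) (x : ℝ) : ex (m * (x + 2 * Real.pi)) = ex (m * x) := by
  unfold ex
  have : ((m * (x + 2 * Real.pi) : ℝ) : ℂ) * Complex.I
      = ((m * x : ℝ) : ℂ) * Complex.I + m * (2 * Real.pi * Complex.I) := by
    push_cast
    ring
  rw [this, Complex.exp_add, Complex.exp_int_mul_two_pi_mul_I, mul_one]

theorem ex_hasDeriv (c x : ℝ) : HasDerivAt (fun y : ℝ => ex (c * y)) (c * Complex.I * ex (c * x)) x := by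
  unfold ex
  have h1 : HasDerivAt (fun y : ℝ => ((c * y : ℝ) : ℂ) * Complex.I) (c * Complex.I) x := by
    have h2 : HasDerivAt (fun y : ℝ => ((c * y : ℝ) : ℂ)) (c : ℂ) x := by
      have h3 : HasDerivAt (fun y : ℝ => c * y) c x := by
        simpa using (hasDerivAt_id x).const_mul c
      exact h3.ofReal_comp
    exact h2.mul_const _
  have h4 := h1.cexp
  convert h4 using 1
  ring

theorem ex_cont : Continuous ex := by
  unfold ex
  fun_prop

/-- trigonometric polynomial -/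
noncomputable def tp (S : Finset ℤ) (a : ℤ → ℂ) (x : ℝ) : ℂ := ∑ m ∈ S, a m * ex (m * x)

theorem tp_cont (S : Finset ℤ) (a : ℤ → ℂ) : Continuous (tp S a) := by
  unfold tp
  refine continuous_finsetSum _ fun m _ => continuous_const.mul (ex_cont.comp ?_)
  fun_prop

theorem tp_per (S : Finset ℤ) (a : ℤ → ℂ) (x : ℝ) : tp S a (x + 2 * Real.pi) = tp S a x := by
  unfold tp
  exact Finset.sum_congr rfl fun m _ => by rw [ex_int_two_pi]

theorem int_ex (m : ℤ) : ∫ x in (0 : ℝ)..(2 * Real.pi), ex (m * x)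
    = if m = 0 then (2 * Real.pi : ℂ) else 0 := by
  by_cases h : m = 0
  · subst h
    simp [ex]
  · rw [if_neg h]
    have hm : (m : ℂ) ≠ 0 := by exact_mod_cast h
    have h1 : ∀ x ∈ Set.uIcc (0 : ℝ) (2 * Real.pi),
        HasDerivAt (fun y : ℝ => (1 / (m * Complex.I)) * ex ((m : ℝ) * y)) (ex (m * x)) x := by
      intro x _
      have h2 := (ex_hasDeriv (m : ℝ) x).const_mul (1 / (m * Complex.I))
      have h3 : (1 / (m * Complex.I)) * ((((m : ℝ) : ℂ)) * Complex.I * ex (m * x)) = ex (m * x) := by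
        push_cast
        field_simp
      rwa [h3] at h2
    rw [integral_eq_sub_of_hasDerivAt h1 ((ex_cont.comp (by fun_prop)).intervalIntegrable _ _)]
    have h3 := ex_int_two_pi m 0
    rw [zero_add] at h3
    rw [h3]
    ring

/-- Parseval for trigonometric polynomials -/
theorem tp_parseval (S : Finset ℤ) (a : ℤ → ℂ) :
    ∫ x in (0 : ℝ)..(2 * Real.pi), ‖tp S a x‖ ^ 2 = 2 * Real.pi * ∑ m ∈ S, ‖a m‖ ^ 2 := by
  have h1 : ∀ x, ((‖tp S a x‖ ^ 2 : ℝ) : ℂ)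
      = ∑ m ∈ S, ∑ n ∈ S, a m * (starRingEnd ℂ) (a n) * ex (((m - n : ℤ) : ℝ) * x) := by
    intro x
    have h2 : ((‖tp S a x‖ ^ 2 : ℝ) : ℂ) = tp S a x * (starRingEnd ℂ) (tp S a x) := by
      rw [Complex.mul_conj, Complex.normSq_eq_norm_sq]
    rw [h2]
    unfold tp
    rw [map_sum, Finset.sum_mul_sum]
    refine Finset.sum_congr rfl fun m _ => Finset.sum_congr rfl fun n _ => ?_
    rw [map_mul, ex_conj]
    have : ((m - n : ℤ) : ℝ) * x = m * x + -(n * x) := by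
      push_cast
      ring
    rw [this, ex_add]
    ring
  have h3 : ((∫ x in (0 : ℝ)..(2 * Real.pi), ‖tp S a x‖ ^ 2 : ℝ) : ℂ)
      = ((2 * Real.pi * ∑ m ∈ S, ‖a m‖ ^ 2 : ℝ) : ℂ) := by
    rw [← intervalIntegral.integral_ofReal]
    rw [intervalIntegral.integral_congr (g := fun x => ∑ m ∈ S, ∑ n ∈ S,
      a m * (starRingEnd ℂ) (a n) * ex (((m - n : ℤ) : ℝ) * x)) (fun x _ => h1 x)]
    rw [intervalIntegral.integral_finsetSum]
    · have h4 : ∀ m ∈ S, ∫ x in (0 : ℝ)..(2 * Real.pi), ∑ n ∈ S,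
          a m * (starRingEnd ℂ) (a n) * ex (((m - n : ℤ) : ℝ) * x) = 2 * Real.pi * (‖a m‖ ^ 2 : ℝ) := by
        intro m hm
        rw [intervalIntegral.integral_finsetSum]
        · have h5 : ∀ n ∈ S, ∫ x in (0 : ℝ)..(2 * Real.pi),
              a m * (starRingEnd ℂ) (a n) * ex (((m - n : ℤ) : ℝ) * x)
              = if m = n then (2 * Real.pi * (‖a m‖ ^ 2 : ℝ) : ℂ) else 0 := by
            intro n _
            rw [intervalIntegral.integral_const_mul, int_ex]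
            by_cases h6 : m = n
            · subst h6
              rw [sub_self, if_pos rfl, if_pos rfl, Complex.mul_conj, Complex.normSq_eq_norm_sq]
              push_cast
              ring
            · rw [if_neg (by intro h7; exact h6 (by omega)), if_neg h6, mul_zero]
          rw [Finset.sum_congr rfl h5, Finset.sum_ite_eq, if_pos hm]
        · intro n _
          exact (continuous_const.mul (ex_cont.comp (by fun_prop))).intervalIntegrable _ _
      rw [Finset.sum_congr rfl h4, ← Finset.mul_sum]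
      push_cast
      ring
    · intro m _
      refine Continuous.intervalIntegrable ?_ _ _
      exact continuous_finsetSum _ fun n _ => continuous_const.mul (ex_cont.comp (by fun_prop))
  exact_mod_cast h3

/-- a `C¹` shift with the period `2π`, `|ψ'| ≤ 2 s` -/
structure Shift (ψ ψ' : ℝ → ℝ) (s : ℝ) : Prop where
  d : ∀ x, HasDerivAt ψ (ψ' x) x
  c : Continuous ψ'
  p : ∀ x, ψ (x + 2 * Real.pi) = ψ x
  b : ∀ x, |ψ' x| ≤ 2 * s
  s1 : s < 1

theorem Shift.cont {ψ ψ' : ℝ → ℝ} {s : ℝ} (h : Shift ψ ψ' s) : Continuous ψ :=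
  continuous_iff_continuousAt.2 fun x => (h.d x).continuousAt

/-- the coefficient of the modes `m`, `n` of the mixed term -/
noncomputable def KK (ψ : ℝ → ℝ) (m n : ℤ) : ℂ :=
  if m + n = 0 then
    (1 / (2 * Real.pi) : ℂ) * ∫ x in (0 : ℝ)..(2 * Real.pi), (ψ x : ℂ) * ex (((m - n : ℤ) : ℝ) * x)
  else (2 / (Complex.I * ((m + n : ℤ) : ℂ))) * ((1 / (2 * Real.pi) : ℂ) *
    ∫ x in (0 : ℝ)..(2 * Real.pi), ex (((m - n : ℤ) : ℝ) * x) * ex (((m + n : ℤ) : ℝ) * (ψ x / 2)))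

/-- change of variables `x ↦ x + ψ x / 2` for a periodic continuous function -/
theorem int_shift {ψ ψ' : ℝ → ℝ} {s : ℝ} (h : Shift ψ ψ' s) (σ : ℝ) {G : ℝ → ℝ} (hG : Continuous G)
    (hp : ∀ x, G (x + 2 * Real.pi) = G x) :
    ∫ x in (0 : ℝ)..(2 * Real.pi), G (x + σ * (ψ x / 2)) * (1 + σ * (ψ' x / 2))
      = ∫ x in (0 : ℝ)..(2 * Real.pi), G x := by
  have hd : ∀ x ∈ Set.uIcc (0 : ℝ) (2 * Real.pi),
      HasDerivAt (fun y => y + σ * (ψ y / 2)) (1 + σ * (ψ' x / 2)) x := by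
    intro x _
    exact (hasDerivAt_id x).add (((h.d x).div_const 2).const_mul σ)
  have hc : ContinuousOn (fun x => 1 + σ * (ψ' x / 2)) (Set.uIcc (0 : ℝ) (2 * Real.pi)) :=
    (continuous_const.add (continuous_const.mul (h.c.div_const 2))).continuousOn
  have key := intervalIntegral.integral_comp_mul_deriv hd hc hG
  have e1 : ∫ x in (0 : ℝ)..(2 * Real.pi), G (x + σ * (ψ x / 2)) * (1 + σ * (ψ' x / 2))
      = ∫ x in (0 : ℝ)..(2 * Real.pi), (G ∘ fun y => y + σ * (ψ y / 2)) x * (1 + σ * (ψ' x / 2)) := rfl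
  rw [e1, key]
  have h0 : ψ (2 * Real.pi) = ψ 0 := by
    have := h.p 0
    rwa [zero_add] at this
  rw [h0, zero_add, show 2 * Real.pi + σ * (ψ 0 / 2) = σ * (ψ 0 / 2) + 2 * Real.pi by ring]
  have hper : Function.Periodic G (2 * Real.pi) := hp
  rw [hper.intervalIntegral_add_eq (σ * (ψ 0 / 2)) 0, zero_add]

theorem int_zero_of_per {f f' : ℝ → ℂ} (hd : ∀ x, HasDerivAt f (f' x) x) (hc : Continuous f')
    (hp : f (2 * Real.pi) = f 0) : ∫ x in (0 : ℝ)..(2 * Real.pi), f' x = 0 := by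
  rw [integral_eq_sub_of_hasDerivAt (fun x _ => hd x) (hc.intervalIntegrable _ _), hp, sub_self]

theorem mode {ψ ψ' : ℝ → ℝ} {s : ℝ} (h : Shift ψ ψ' s) {m n : ℤ} (hm : m ≠ 0) :
    (1 / (2 * Real.pi) : ℂ) * ∫ x in (0 : ℝ)..(2 * Real.pi),
      (1 / ((m : ℂ) * Complex.I)) * ex (m * (x + ψ x / 2))
        * (starRingEnd ℂ) (ex (n * (x - ψ x / 2))) * ((1 - ψ' x / 2 : ℝ) : ℂ) = KK ψ m n := by
  have hm' : (m : ℂ) ≠ 0 := by exact_mod_cast hm
  have hψc := h.cont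
  have h0 : ψ (2 * Real.pi) = ψ 0 := by
    have := h.p 0
    rwa [zero_add] at this
  set E : ℝ → ℂ := fun x => ex (((m - n : ℤ) : ℝ) * x) * ex (((m + n : ℤ) : ℝ) * (ψ x / 2)) with hE
  have hEeq : ∀ x, ex (m * (x + ψ x / 2)) * (starRingEnd ℂ) (ex (n * (x - ψ x / 2))) = E x := by
    intro x
    rw [ex_conj, hE, ← ex_add]
    simp only
    rw [← ex_add]
    congr 1
    push_cast
    ring
  have hEc : Continuous E := by
    rw [hE]
    exact (ex_cont.comp (by fun_prop)).mul (ex_cont.comp (by fun_prop))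
  have hEd : ∀ x, HasDerivAt E ((((m - n : ℤ) : ℂ) * Complex.I
      + ((m + n : ℤ) : ℂ) * Complex.I * ((ψ' x / 2 : ℝ) : ℂ)) * E x) x := by
    intro x
    have h1 := ex_hasDeriv ((m - n : ℤ) : ℝ) x
    have h2 : HasDerivAt (fun y : ℝ => ex (((m + n : ℤ) : ℝ) * (ψ y / 2)))
        ((((m + n : ℤ) : ℂ) * Complex.I * ((ψ' x / 2 : ℝ) : ℂ))
          * ex (((m + n : ℤ) : ℝ) * (ψ x / 2))) x := by
      have h3 := (ex_hasDeriv ((m + n : ℤ) : ℝ) (ψ x / 2)).scomp x ((h.d x).div_const 2)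
      refine h3.congr_deriv ?_
      rw [Complex.real_smul]
      push_cast
      ring
    have h4 := h1.mul h2
    refine h4.congr_deriv ?_
    rw [hE]
    push_cast
    ring
  have hEp : E (2 * Real.pi) = E 0 := by
    rw [hE]
    simp only
    rw [h0]
    have := ex_int_two_pi (m - n) 0
    rw [zero_add] at this
    rw [this]
  have hI : ∫ x in (0 : ℝ)..(2 * Real.pi), ((((m - n : ℤ) : ℂ) * Complex.I
      + ((m + n : ℤ) : ℂ) * Complex.I * ((ψ' x / 2 : ℝ) : ℂ)) * E x) = 0 := by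
    refine int_zero_of_per hEd ?_ hEp
    refine Continuous.mul ?_ hEc
    exact continuous_const.add (continuous_const.mul (Complex.continuous_ofReal.comp (h.c.div_const 2)))
  by_cases hmn : m + n = 0
  · unfold KK
    rw [if_pos hmn]
    congr 1
    have hn : n = -m := by omega
    subst hn
    have hE1 : ∀ x, E x = ex (((m - -m : ℤ) : ℝ) * x) := by
      intro x
      rw [hE]
      simp [ex]
    -- the derivative of `ψ E`
    have hP : ∫ x in (0 : ℝ)..(2 * Real.pi), (((ψ' x : ℝ) : ℂ) * E x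
        + ((ψ x : ℝ) : ℂ) * ((((m - -m : ℤ) : ℂ) * Complex.I) * E x)) = 0 := by
      refine int_zero_of_per (f := fun x => ((ψ x : ℝ) : ℂ) * E x) ?_ ?_ ?_
      · intro x
        have h5 := (h.d x).ofReal_comp
        have h6 := hEd x
        rw [hmn] at h6
        have h7 := h5.mul h6
        refine h7.congr_deriv ?_
        push_cast
        ring
      · exact ((Complex.continuous_ofReal.comp h.c).mul hEc).add
          ((Complex.continuous_ofReal.comp hψc).mul (continuous_const.mul hEc))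
      · rw [hEp, h0]
    have hZ : ∫ x in (0 : ℝ)..(2 * Real.pi), E x = 0 := by
      rw [intervalIntegral.integral_congr (fun x _ => hE1 x), int_ex, if_neg]
      omega
    have i1 : IntervalIntegrable (fun x => ((ψ' x : ℝ) : ℂ) * E x) volume 0 (2 * Real.pi) :=
      ((Complex.continuous_ofReal.comp h.c).mul hEc).intervalIntegrable _ _
    have i2 : IntervalIntegrable (fun x => ((ψ x : ℝ) : ℂ) * E x) volume 0 (2 * Real.pi) :=
      ((Complex.continuous_ofReal.comp hψc).mul hEc).intervalIntegrable _ _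
    have hP2 : (∫ x in (0 : ℝ)..(2 * Real.pi), ((ψ' x : ℝ) : ℂ) * E x)
        + (2 * (m : ℂ) * Complex.I) * ∫ x in (0 : ℝ)..(2 * Real.pi), ((ψ x : ℝ) : ℂ) * E x = 0 := by
      rw [← intervalIntegral.integral_const_mul, ← intervalIntegral.integral_add i1 (i2.const_mul _)]
      rw [← hP]
      refine intervalIntegral.integral_congr fun x _ => ?_
      push_cast
      ring
    have e1 : ∀ x, (1 / ((m : ℂ) * Complex.I)) * ex (m * (x + ψ x / 2))
        * (starRingEnd ℂ) (ex (((-m : ℤ) : ℝ) * (x - ψ x / 2))) * ((1 - ψ' x / 2 : ℝ) : ℂ)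
        = (1 / ((m : ℂ) * Complex.I)) * E x
          - (1 / (2 * (m : ℂ) * Complex.I)) * (((ψ' x : ℝ) : ℂ) * E x) := by
      intro x
      rw [← hEeq x]
      push_cast
      field_simp
    rw [intervalIntegral.integral_congr (fun x _ => e1 x),
      intervalIntegral.integral_sub ((hEc.intervalIntegrable _ _).const_mul _) (i1.const_mul _),
      intervalIntegral.integral_const_mul, intervalIntegral.integral_const_mul, hZ, mul_zero, zero_sub]
    have e2 : ∫ x in (0 : ℝ)..(2 * Real.pi), (ψ x : ℂ) * ex (((m - -m : ℤ) : ℝ) * x)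
        = ∫ x in (0 : ℝ)..(2 * Real.pi), ((ψ x : ℝ) : ℂ) * E x :=
      intervalIntegral.integral_congr fun x _ => by
        rw [hE1 x]
    rw [e2]
    have e3 : (∫ x in (0 : ℝ)..(2 * Real.pi), ((ψ' x : ℝ) : ℂ) * E x)
        = -((2 * (m : ℂ) * Complex.I) * ∫ x in (0 : ℝ)..(2 * Real.pi), ((ψ x : ℝ) : ℂ) * E x) :=
      eq_neg_of_add_eq_zero_left hP2
    rw [e3]
    have hI0 := Complex.I_ne_zero
    field_simp
  · unfold KK
    rw [if_neg hmn]
    have hmn' : ((m + n : ℤ) : ℂ) ≠ 0 := by exact_mod_cast hmn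
    have hI0 := Complex.I_ne_zero
    have e1 : ∀ x, (1 / ((m : ℂ) * Complex.I)) * ex (m * (x + ψ x / 2))
        * (starRingEnd ℂ) (ex (n * (x - ψ x / 2))) * ((1 - ψ' x / 2 : ℝ) : ℂ)
        = (2 / (Complex.I * ((m + n : ℤ) : ℂ))) * E x
          - (1 / ((m : ℂ) * Complex.I)) * (1 / (Complex.I * ((m + n : ℤ) : ℂ)))
            * ((((m - n : ℤ) : ℂ) * Complex.I
              + ((m + n : ℤ) : ℂ) * Complex.I * ((ψ' x / 2 : ℝ) : ℂ)) * E x) := by
      intro x
      rw [← hEeq x]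
      push_cast
      push_cast at hmn'
      field_simp
      ring
    rw [intervalIntegral.integral_congr (fun x _ => e1 x)]
    rw [intervalIntegral.integral_sub, intervalIntegral.integral_const_mul,
      intervalIntegral.integral_const_mul, hI, mul_zero, sub_zero]
    · ring
    · exact (hEc.intervalIntegrable _ _).const_mul _
    · refine IntervalIntegrable.const_mul ?_ _
      refine Continuous.intervalIntegrable ?_ _ _
      refine Continuous.mul ?_ hEc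
      exact continuous_const.add
        (continuous_const.mul (Complex.continuous_ofReal.comp (h.c.div_const 2)))

/-- the mixed term as one integral -/
theorem mixed_eq {ψ ψ' : ℝ → ℝ} {s : ℝ} (h : Shift ψ ψ' s) (S : Finset ℤ) (hS : ∀ m ∈ S, m ≠ 0)
    (a b : ℤ → ℂ) :
    ∑ m ∈ S, ∑ n ∈ S, a m * (starRingEnd ℂ) (b n) * KK ψ m n
      = (1 / (2 * Real.pi) : ℂ) * ∫ x in (0 : ℝ)..(2 * Real.pi),
        tp S (fun m => a m / ((m : ℂ) * Complex.I)) (x + ψ x / 2)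
          * (starRingEnd ℂ) (tp S b (x - ψ x / 2)) * ((1 - ψ' x / 2 : ℝ) : ℂ) := by
  have hψc := h.cont
  have e1 : ∀ x, tp S (fun m => a m / ((m : ℂ) * Complex.I)) (x + ψ x / 2)
          * (starRingEnd ℂ) (tp S b (x - ψ x / 2)) * ((1 - ψ' x / 2 : ℝ) : ℂ)
      = ∑ m ∈ S, ∑ n ∈ S, (a m * (starRingEnd ℂ) (b n)) * ((1 / ((m : ℂ) * Complex.I))
        * ex (m * (x + ψ x / 2)) * (starRingEnd ℂ) (ex (n * (x - ψ x / 2)))
          * ((1 - ψ' x / 2 : ℝ) : ℂ)) := by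
    intro x
    unfold tp
    rw [map_sum, Finset.sum_mul_sum, Finset.sum_mul]
    refine Finset.sum_congr rfl fun m _ => ?_
    rw [Finset.sum_mul]
    refine Finset.sum_congr rfl fun n _ => ?_
    rw [map_mul]
    ring
  have hcont : ∀ m n : ℤ, Continuous fun x : ℝ => (a m * (starRingEnd ℂ) (b n))
      * ((1 / ((m : ℂ) * Complex.I)) * ex (m * (x + ψ x / 2))
        * (starRingEnd ℂ) (ex (n * (x - ψ x / 2))) * ((1 - ψ' x / 2 : ℝ) : ℂ)) := by
    intro m n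
    refine continuous_const.mul ?_
    refine Continuous.mul (Continuous.mul (continuous_const.mul (ex_cont.comp (by fun_prop))) ?_) ?_
    · exact Complex.continuous_conj.comp (ex_cont.comp (by fun_prop))
    · exact Complex.continuous_ofReal.comp (continuous_const.sub (h.c.div_const 2))
  rw [intervalIntegral.integral_congr (fun x _ => e1 x), intervalIntegral.integral_finsetSum]
  · rw [Finset.mul_sum]
    refine Finset.sum_congr rfl fun m hm => ?_
    rw [intervalIntegral.integral_finsetSum]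
    · rw [Finset.mul_sum]
      refine Finset.sum_congr rfl fun n _ => ?_
      rw [intervalIntegral.integral_const_mul, ← mode h (hS m hm) (n := n)]
      ring
    · intro n _
      exact (hcont m n).intervalIntegrable _ _
  · intro m _
    exact (continuous_finsetSum _ fun n _ => hcont m n).intervalIntegrable _ _

/-- THE TAIL BOUND -/
theorem tail {ψ ψ' : ℝ → ℝ} {s : ℝ} (h : Shift ψ ψ' s) (S : Finset ℤ) {m₁ R : ℝ} (hm : 0 < m₁)
    (hS : ∀ m ∈ S, m₁ ≤ |(m : ℝ)|) (hR : 0 < R) (hs : 1 + s ≤ R ^ 2 * (1 - s)) (a b : ℤ → ℂ) :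
    2 * ‖∑ m ∈ S, ∑ n ∈ S, a m * (starRingEnd ℂ) (b n) * KK ψ m n‖
      ≤ R / m₁ * (∑ m ∈ S, ‖a m‖ ^ 2 + ∑ m ∈ S, ‖b m‖ ^ 2) := by
  have hpi := Real.pi_pos
  have hψc := h.cont
  have hS0 : ∀ m ∈ S, m ≠ 0 := by
    intro m hmS h0
    have := hS m hmS
    rw [h0] at this
    simp at this
    linarith
  rw [mixed_eq h S hS0 a b]
  set w : ℤ → ℂ := fun m => a m / ((m : ℂ) * Complex.I) with hw
  have hW := tp_cont S w
  have hB := tp_cont S b
  -- the two squares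
  have q1 : ∫ x in (0 : ℝ)..(2 * Real.pi), ‖tp S w (x + ψ x / 2)‖ ^ 2 * (1 + ψ' x / 2)
      = 2 * Real.pi * ∑ m ∈ S, ‖w m‖ ^ 2 := by
    have := int_shift h 1 (G := fun x => ‖tp S w x‖ ^ 2) (hW.norm.pow 2)
      (fun x => by rw [tp_per])
    simp only [one_mul] at this
    rw [this, tp_parseval]
  have q2 : ∫ x in (0 : ℝ)..(2 * Real.pi), ‖tp S b (x - ψ x / 2)‖ ^ 2 * (1 - ψ' x / 2)
      = 2 * Real.pi * ∑ m ∈ S, ‖b m‖ ^ 2 := by
    have := int_shift h (-1) (G := fun x => ‖tp S b x‖ ^ 2) (hB.norm.pow 2)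
      (fun x => by rw [tp_per])
    rw [tp_parseval] at this
    rw [← this]
    refine intervalIntegral.integral_congr fun x _ => ?_
    rw [show x - ψ x / 2 = x + -1 * (ψ x / 2) by ring]
    ring
  have hww : ∑ m ∈ S, ‖w m‖ ^ 2 ≤ 1 / m₁ ^ 2 * ∑ m ∈ S, ‖a m‖ ^ 2 := by
    rw [Finset.mul_sum]
    refine Finset.sum_le_sum fun m hmS => ?_
    rw [hw]
    simp only
    rw [norm_div, norm_mul, Complex.norm_I, mul_one, div_pow]
    have h1 : ‖(m : ℂ)‖ = |(m : ℝ)| := by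
      rw [← Complex.ofReal_intCast, Complex.norm_real, Real.norm_eq_abs]
    rw [h1]
    have h2 : m₁ ^ 2 ≤ |(m : ℝ)| ^ 2 := pow_le_pow_left₀ hm.le (hS m hmS) 2
    have h3 : 0 < m₁ ^ 2 := by positivity
    calc ‖a m‖ ^ 2 / |(m : ℝ)| ^ 2 ≤ ‖a m‖ ^ 2 / m₁ ^ 2 :=
          div_le_div_of_nonneg_left (by positivity) h3 h2
      _ = 1 / m₁ ^ 2 * ‖a m‖ ^ 2 := by ring
  -- pointwise
  have hpt : ∀ x, ‖tp S w (x + ψ x / 2) * (starRingEnd ℂ) (tp S b (x - ψ x / 2))
      * ((1 - ψ' x / 2 : ℝ) : ℂ)‖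
      ≤ (m₁ * R / 2) * (‖tp S w (x + ψ x / 2)‖ ^ 2 * (1 + ψ' x / 2))
        + (R / (2 * m₁)) * (‖tp S b (x - ψ x / 2)‖ ^ 2 * (1 - ψ' x / 2)) := by
    intro x
    have hb := abs_le.1 (h.b x)
    have hs1 := h.s1
    have t1 : 0 ≤ 1 - ψ' x / 2 := by linarith [hb.2]
    have t2 : 1 - ψ' x / 2 ≤ R ^ 2 * (1 + ψ' x / 2) := by
      have : R ^ 2 * (1 - s) ≤ R ^ 2 * (1 + ψ' x / 2) :=
        mul_le_mul_of_nonneg_left (by linarith [hb.1]) (by positivity)
      linarith [hb.1]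
    rw [norm_mul, norm_mul, Complex.norm_real, Real.norm_eq_abs, abs_of_nonneg t1,
      Complex.norm_conj]
    set X := ‖tp S w (x + ψ x / 2)‖
    set Y := ‖tp S b (x - ψ x / 2)‖
    have h1 : 0 ≤ (m₁ * X - R * Y) ^ 2 := sq_nonneg _
    have h2 : X * Y ≤ (m₁ / (2 * R)) * X ^ 2 + (R / (2 * m₁)) * Y ^ 2 := by
      have h3 : (m₁ / (2 * R)) * X ^ 2 + (R / (2 * m₁)) * Y ^ 2 - X * Y
          = (m₁ * X - R * Y) ^ 2 / (2 * R * m₁) := by
        field_simp
        ring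
      have h4 : 0 ≤ (m₁ * X - R * Y) ^ 2 / (2 * R * m₁) := by positivity
      linarith
    have h5 : X * Y * (1 - ψ' x / 2)
        ≤ ((m₁ / (2 * R)) * X ^ 2 + (R / (2 * m₁)) * Y ^ 2) * (1 - ψ' x / 2) :=
      mul_le_mul_of_nonneg_right h2 t1
    have h6 : (m₁ / (2 * R)) * X ^ 2 * (1 - ψ' x / 2)
        ≤ (m₁ / (2 * R)) * X ^ 2 * (R ^ 2 * (1 + ψ' x / 2)) :=
      mul_le_mul_of_nonneg_left t2 (by positivity)
    have h7 : (m₁ / (2 * R)) * X ^ 2 * (R ^ 2 * (1 + ψ' x / 2))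
        = (m₁ * R / 2) * (X ^ 2 * (1 + ψ' x / 2)) := by
      field_simp
    nlinarith [h5, h6, h7]
  have c1 : Continuous fun x : ℝ => ‖tp S w (x + ψ x / 2)‖ ^ 2 * (1 + ψ' x / 2) :=
    ((hW.comp (by fun_prop)).norm.pow 2).mul (continuous_const.add (h.c.div_const 2))
  have c2 : Continuous fun x : ℝ => ‖tp S b (x - ψ x / 2)‖ ^ 2 * (1 - ψ' x / 2) :=
    ((hB.comp (by fun_prop)).norm.pow 2).mul (continuous_const.sub (h.c.div_const 2))
  have hnorm : ‖∫ x in (0 : ℝ)..(2 * Real.pi), tp S w (x + ψ x / 2)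
      * (starRingEnd ℂ) (tp S b (x - ψ x / 2)) * ((1 - ψ' x / 2 : ℝ) : ℂ)‖
      ≤ ∫ x in (0 : ℝ)..(2 * Real.pi), ((m₁ * R / 2) * (‖tp S w (x + ψ x / 2)‖ ^ 2 * (1 + ψ' x / 2))
        + (R / (2 * m₁)) * (‖tp S b (x - ψ x / 2)‖ ^ 2 * (1 - ψ' x / 2))) := by
    refine intervalIntegral.norm_integral_le_of_norm_le (by positivity) ?_ ?_
    · exact ae_of_all _ fun x _ => hpt x
    · exact ((continuous_const.mul c1).add (continuous_const.mul c2)).intervalIntegrable _ _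
  rw [intervalIntegral.integral_add ((c1.intervalIntegrable _ _).const_mul _)
    ((c2.intervalIntegrable _ _).const_mul _), intervalIntegral.integral_const_mul,
    intervalIntegral.integral_const_mul, q1, q2] at hnorm
  rw [norm_mul]
  have hn : ‖(1 / (2 * Real.pi) : ℂ)‖ = 1 / (2 * Real.pi) := by
    rw [show (1 / (2 * Real.pi) : ℂ) = ((1 / (2 * Real.pi) : ℝ) : ℂ) by push_cast; ring,
      Complex.norm_real, Real.norm_eq_abs, abs_of_pos (by positivity)]
  rw [hn]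
  have h8 : 1 / (2 * Real.pi) * ‖∫ x in (0 : ℝ)..(2 * Real.pi), tp S w (x + ψ x / 2)
      * (starRingEnd ℂ) (tp S b (x - ψ x / 2)) * ((1 - ψ' x / 2 : ℝ) : ℂ)‖
      ≤ 1 / (2 * Real.pi) * ((m₁ * R / 2) * (2 * Real.pi * ∑ m ∈ S, ‖w m‖ ^ 2)
        + (R / (2 * m₁)) * (2 * Real.pi * ∑ m ∈ S, ‖b m‖ ^ 2)) :=
    mul_le_mul_of_nonneg_left hnorm (by positivity)
  have h9 : 1 / (2 * Real.pi) * ((m₁ * R / 2) * (2 * Real.pi * ∑ m ∈ S, ‖w m‖ ^ 2)
        + (R / (2 * m₁)) * (2 * Real.pi * ∑ m ∈ S, ‖b m‖ ^ 2))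
      = (m₁ * R / 2) * ∑ m ∈ S, ‖w m‖ ^ 2 + (R / (2 * m₁)) * ∑ m ∈ S, ‖b m‖ ^ 2 := by
    field_simp
  have h10 : (m₁ * R / 2) * ∑ m ∈ S, ‖w m‖ ^ 2
      ≤ (m₁ * R / 2) * (1 / m₁ ^ 2 * ∑ m ∈ S, ‖a m‖ ^ 2) :=
    mul_le_mul_of_nonneg_left hww (by positivity)
  have h11 : (m₁ * R / 2) * (1 / m₁ ^ 2 * ∑ m ∈ S, ‖a m‖ ^ 2)
      = R / (2 * m₁) * ∑ m ∈ S, ‖a m‖ ^ 2 := by
    field_simp
  have h12 : R / m₁ * (∑ m ∈ S, ‖a m‖ ^ 2 + ∑ m ∈ S, ‖b m‖ ^ 2)
      = 2 * (R / (2 * m₁) * ∑ m ∈ S, ‖a m‖ ^ 2 + (R / (2 * m₁)) * ∑ m ∈ S, ‖b m‖ ^ 2) := by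
    field_simp
  rw [h12]
  linarith

/-- the sinus shift -/
theorem shift_sin (d k p : ℝ) (hk : |k| < 2 / 3) :
    Shift (fun x => d + k * Real.sin (3 * x + p)) (fun x => 3 * k * Real.cos (3 * x + p))
      (3 / 2 * |k|) := by
  refine ⟨?_, ?_, ?_, ?_, by linarith⟩
  · intro x
    have h1 : HasDerivAt (fun y : ℝ => 3 * y + p) 3 x := by
      simpa using ((hasDerivAt_id x).const_mul 3).add_const p
    have h2 := ((h1.sin).const_mul k).const_add d
    refine h2.congr_deriv ?_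
    ring
  · fun_prop
  · intro x
    rw [show 3 * (x + 2 * Real.pi) + p = 3 * x + p + (3 : ℕ) * (2 * Real.pi) by push_cast; ring,
      Real.sin_add_nat_mul_two_pi]
  · intro x
    rw [abs_mul, abs_mul, abs_of_pos (by norm_num : (0 : ℝ) < 3)]
    have h1 := Real.abs_cos_le_one (3 * x + p)
    have h2 := abs_nonneg k
    nlinarith

/-- the tail bound for the sinus shift, real part form -/
theorem tail_sin (d k p : ℝ) (hk : |k| < 2 / 3) (S : Finset ℤ) {m₁ R : ℝ} (hm : 0 < m₁)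
    (hS : ∀ m ∈ S, m₁ ≤ |(m : ℝ)|) (hR : 0 < R)
    (hs : 1 + 3 / 2 * |k| ≤ R ^ 2 * (1 - 3 / 2 * |k|)) (a b : ℤ → ℂ) :
    |2 * (∑ m ∈ S, ∑ n ∈ S, a m * (starRingEnd ℂ) (b n)
        * KK (fun x => d + k * Real.sin (3 * x + p)) m n).im|
      ≤ R / m₁ * (∑ m ∈ S, ‖a m‖ ^ 2 + ∑ m ∈ S, ‖b m‖ ^ 2) := by
  refine le_trans ?_ (tail (shift_sin d k p hk) S hm hS hR hs a b)
  rw [abs_mul, abs_of_pos (by norm_num : (0 : ℝ) < 2)]
  exact mul_le_mul_of_nonneg_left (Complex.abs_im_le_norm _) (by norm_num)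

end Helper41.RC
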