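import Pool.Agent.Helper41.RC.M_INTP

/-!
# Project RC / SHARP, link (7): the rest form, general version

As `StRest`, but the prices `e2, e3`, the factor `bil` of the bilinear term (link 2, natural alignment) and the metric
`gs, gp, gr` may depend on the frequency `n`, and an arbitrary extra form `E` (second harmonic, penalty, corrections of
the alignment, moments) is allowed.
-/

open MeasureTheory Set Filter

namespace Helper41.RC

open Helper49.LT (ee)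
open Pool.Agent.Helper99.RC (ps NS)

/-- triples of coefficient sequences -/
abbrev Seq3 := (ℤ → ℂ) → (ℤ → ℂ) → (ℤ → ℂ) → ℝ

/-- the numerator of the frequency `m` in the unmixed part, `bil n` = factor of the bilinear term -/
noncomputable def Xg (bil : ℤ → ℝ) (p r s : ℤ → ℂ) (m : ℤ) : ℝ :=
  ‖alw p r (m - 1)‖ ^ 2
    + 2 * bil (m - 1) * (alw p r (m - 1) * (starRingEnd ℂ) (aw p r s m + bw p r s m)).re
    + ‖aw p r s m‖ ^ 2 + ‖bw p r s m‖ ^ 2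

/-- the local part -/
noncomputable def Lg (f : ℝ) (e2 e3 : ℤ → ℝ) (p r s : ℤ → ℂ) (n : ℤ) : ℝ :=
  f * (‖s n‖ ^ 2 + 1 / 2 * (s n * s (-n)).re) + e2 n * ‖p n‖ ^ 2 + e3 n * ‖r n‖ ^ 2

/-- the rest form, sections (nonlocal frequencies `m ∈ M`, local frequencies `n ∈ L`) -/
noncomputable def RG (ψ : ℝ → ℝ) (bil : ℤ → ℝ) (f : ℝ) (e2 e3 : ℤ → ℝ) (M L : Finset ℤ)
    (p r s : ℤ → ℂ) : ℝ :=
  ∑ m ∈ M, Xg bil p r s m / (m : ℝ)
    - 2 * (∑ m ∈ M, ∑ n ∈ M, aw p r s m * (starRingEnd ℂ) (bw p r s n) * KK ψ m n).im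
    + ∑ n ∈ L, Lg f e2 e3 p r s n

/-- the head form `|n| ≤ K`, with the closed form `NS` of link 3 -/
noncomputable def HG (d k ph : ℝ) (bil : ℤ → ℝ) (f : ℝ) (e2 e3 : ℤ → ℝ) (K : ℕ) (p r s : ℤ → ℂ) : ℝ :=
  ∑ m ∈ Finset.Icc (1 - (K : ℤ)) (1 + K), (‖alw p r (m - 1)‖ ^ 2
      + 2 * bil (m - 1) * (alw p r (m - 1) * (starRingEnd ℂ) (aw p r s m + bw p r s m)).re) / (m : ℝ)
    + NS d k ph (Finset.Icc (1 - (K : ℤ)) (1 + K)) (aw p r s) (bw p r s)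
    + ∑ n ∈ Finset.Icc (-(K : ℤ)) K, Lg f e2 e3 p r s n

/-- the weighted metric -/
noncomputable def MG (gs gp gr : ℤ → ℝ) (L : Finset ℤ) (p r s : ℤ → ℂ) : ℝ :=
  ∑ n ∈ L, (gs n * ‖s n‖ ^ 2 + gp n * ‖p n‖ ^ 2 + gr n * ‖r n‖ ^ 2)

/-- HEAD, general form: the finite certificate at `(d, k, ph)` with the extra form `E` -/
def HeadG (d k ph : ℝ) (bil : ℤ → ℝ) (f : ℝ) (e2 e3 : ℤ → ℝ) (E : Seq3) (gs gp gr : ℤ → ℝ) (K : ℕ) : Prop :=
  ∀ p r s : ℤ → ℂ, Par p r s →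
    MG gs gp gr (Finset.Icc (-(K : ℤ)) K) p r s ≤ HG d k ph bil f e2 e3 K p r s + E p r s

/-- REST, general form: the section `N` at `(d, k, ph)` with the extra form `E` -/
def RestG (d k ph : ℝ) (bil : ℤ → ℝ) (f : ℝ) (e2 e3 : ℤ → ℝ) (E : Seq3) (gs gp gr : ℤ → ℝ) (N : ℕ) : Prop :=
  ∀ p r s : ℤ → ℂ, Par p r s →
    MG gs gp gr (Finset.Icc (-((N : ℤ) + 1)) (N + 1)) p r s
      ≤ RG (ps d k ph) bil f e2 e3 (Finset.Icc (-(N : ℤ)) N) (Finset.Icc (-((N : ℤ) + 1)) (N + 1)) p r s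
        + E p r s

end Helper41.RC
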