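import Pool.Agent.Helper99.RC.KcSin
import Pool.Agent.Helper41.RC.M_PERT

/-!
# Project RC / SHARP, link (7): the rest form (gauge q = 2), statements

Rest variables (Fourier coefficients of the weighted differences): `p n` (of `w (b₂ - b₂⁰)`), `r n`
(of `w (b₃ - b₃⁰)`), even `n`, conjugate symmetric; `s n` (of `w (z - z₀)`), odd `n`.
`aw`, `bw` are the coefficients of the rest parts of the families `G1`, `G2`, `alw` those of `w (b₂ + i b₃/2)`.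
`RF ψ .. M L` is the quadratic form of the sections: frequencies `m ∈ M` in the nonlocal part, `n ∈ L` in the
local part. The penalty `G (‖s (-3)‖² + ‖s (-5)‖²)` replaces the constraints on the modes `-3`, `-5`.
-/

open MeasureTheory Set Filter

namespace Helper41.RC

open Helper49.LT (ee)
open Pool.Agent.Helper99.RC (ps NS)

/-- parities of the rest coefficients -/
structure Par (p r s : ℤ → ℂ) : Prop where
  pc : ∀ n, p (-n) = (starRingEnd ℂ) (p n)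
  rc : ∀ n, r (-n) = (starRingEnd ℂ) (r n)
  po : ∀ n, Odd n → p n = 0
  ro : ∀ n, Odd n → r n = 0
  se : ∀ n, Even n → s n = 0

/-- coefficients of the rest part of `G1` -/
noncomputable def aw (p r s : ℤ → ℂ) (m : ℤ) : ℂ :=
  ee (-((m : ℝ) * (Real.pi / 3))) * (ee (-(Real.pi / 3)) * p (m - 1)
    + ((Real.sqrt 3 : ℝ) + Complex.I / 4) * r (m - 1) + s (m - 1))

/-- coefficients of the rest part of `G2` -/
noncomputable def bw (p r s : ℤ → ℂ) (m : ℤ) : ℂ :=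
  ee (-((m : ℝ) * (2 * Real.pi / 3))) * (ee (-(2 * Real.pi / 3)) * p (m - 1)
    + ((Real.sqrt 3 : ℝ) - Complex.I / 4) * r (m - 1) - s (m - 1))

/-- coefficients of `w (β₂ + i β₃ / 2)` -/
noncomputable def alw (p r : ℤ → ℂ) (n : ℤ) : ℂ := p n + Complex.I / 2 * r n

/-- the numerator of the frequency `m` in the unmixed part (links 1, 2, 3) -/
noncomputable def Xw (p r s : ℤ → ℂ) (m : ℤ) : ℝ :=
  ‖alw p r (m - 1)‖ ^ 2 + 2 * (alw p r (m - 1) * (starRingEnd ℂ) (aw p r s m + bw p r s m)).re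
    + ‖aw p r s m‖ ^ 2 + ‖bw p r s m‖ ^ 2

/-- the local part -/
noncomputable def Lw (f e2 e3 : ℝ) (p r s : ℤ → ℂ) (n : ℤ) : ℝ :=
  f * (‖s n‖ ^ 2 + 1 / 2 * (s n * s (-n)).re) + e2 * ‖p n‖ ^ 2 + e3 * ‖r n‖ ^ 2

/-- the second harmonic and the penalty -/
noncomputable def Pw (s2 G : ℝ) (p r s : ℤ → ℂ) : ℝ :=
  s2 * ‖alw p r (-2) + aw p r s (-1) + bw p r s (-1)‖ ^ 2 + G * (‖s (-3)‖ ^ 2 + ‖s (-5)‖ ^ 2)

/-- THE REST FORM, sections -/
noncomputable def RF (ψ : ℝ → ℝ) (f e2 e3 s2 G : ℝ) (M L : Finset ℤ) (p r s : ℤ → ℂ) : ℝ :=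
  ∑ m ∈ M, Xw p r s m / (m : ℝ)
    - 2 * (∑ m ∈ M, ∑ n ∈ M, aw p r s m * (starRingEnd ℂ) (bw p r s n) * KK ψ m n).im
    + ∑ n ∈ L, Lw f e2 e3 p r s n + Pw s2 G p r s

/-- the head form: frequencies `|m - 1| ≤ K`, written with the closed form `NS` of link 3 -/
noncomputable def HF (d k ph f e2 e3 s2 G : ℝ) (K : ℕ) (p r s : ℤ → ℂ) : ℝ :=
  ∑ m ∈ Finset.Icc (1 - (K : ℤ)) (1 + K), (‖alw p r (m - 1)‖ ^ 2
      + 2 * (alw p r (m - 1) * (starRingEnd ℂ) (aw p r s m + bw p r s m)).re) / (m : ℝ)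
    + NS d k ph (Finset.Icc (1 - (K : ℤ)) (1 + K)) (aw p r s) (bw p r s)
    + ∑ n ∈ Finset.Icc (-(K : ℤ)) K, Lw f e2 e3 p r s n + Pw s2 G p r s

/-- the weighted metric -/
noncomputable def Mw (gs gp gr : ℝ) (L : Finset ℤ) (p r s : ℤ → ℂ) : ℝ :=
  ∑ n ∈ L, (gs * ‖s n‖ ^ 2 + gp * ‖p n‖ ^ 2 + gr * ‖r n‖ ^ 2)

/-- HEAD (helper46): the finite certificate at `(d, k, ph)` -/
def StHead (d k ph f e2 e3 s2 G gs gp gr : ℝ) (K : ℕ) : Prop :=
  ∀ p r s : ℤ → ℂ, Par p r s →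
    Mw gs gp gr (Finset.Icc (-(K : ℤ)) K) p r s ≤ HF d k ph f e2 e3 s2 G K p r s

/-- REST: all sections at `(d, k, ph)` -/
def StRestN (d k ph f e2 e3 s2 G gs gp gr : ℝ) (N : ℕ) : Prop :=
  ∀ p r s : ℤ → ℂ, Par p r s →
    Mw gs gp gr (Finset.Icc (-((N : ℤ) + 1)) (N + 1)) p r s
      ≤ RF (ps d k ph) f e2 e3 s2 G (Finset.Icc (-(N : ℤ)) N) (Finset.Icc (-((N : ℤ) + 1)) (N + 1)) p r s

end Helper41.RC
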